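import Pool.Agent.Lib.MP_72e2e6_nt.Sm.S.Spec

/-!
# MP_72e2e6_nt, `Sm`, block S: division points over a field closed under square roots
-/

namespace Pool.Agent.MP72S.S

open Finset WeierstrassCurve Polynomial

open Pool.Agent.MP72W (pmap IsCoc LocTriv InSha ShaTwoFin XY px py)

open Pool.Agent.MP72S.C

open scoped Classical

theorem tDvo (hVee : C.S_Vee) (hDvn : C.S_Dvn) : S_Dvo := by
  intro K _ a Ω Ω' _ _ _ _ I I' f hH hQ
  obtain rfl : I = fun a b => Classical.propDecidable (a = b) := Subsingleton.elim _ _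
  obtain rfl : I' = fun a b => Classical.propDecidable (a = b) := Subsingleton.elim _ _
  have hH' : Hyp a Ω' := by
    refine ⟨?_, hH.2⟩
    intro h
    apply hH.1
    apply (f : Ω →+* Ω').injective
    change f 2 = f 0
    rw [map_ofNat, map_zero]
    exact h
  have hdv : ∀ P : PA a Ω, ∃ P' : PA a Ω, 2 • P' = P := by
    intro P
    obtain ⟨Q, hQQ⟩ := (hDvn K a Ω hH hQ).1 P
    exact ⟨Q, by rw [two_nsmul]; exact hQQ⟩
  have hv := hVee K a Ω hH
  have hv' := hVee K a Ω' hH'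
  have hee : ∀ i, pmap (Wa a) f (ee a i : PA a Ω) = ee a i := by
    intro i
    obtain ⟨h1, e1⟩ := pm_xy (Wa a) f (hv.1 i)
    obtain ⟨h2, e2⟩ := hv'.1 i
    rw [e1, e2]
    have e3 : f (al a Ω i) = al a Ω' i := by
      unfold al
      exact f.commutes (a i)
    have e4 : f (0 : Ω) = 0 := map_zero f
    rw [Affine.Point.some.injEq]
    exact ⟨e3, e4⟩
  have hee2 : ∀ i, (ee a i : PA a Ω) + ee a i = 0 := fun i =>
    (hv.2.1 (ee a i)).2 (Or.inr ⟨i, rfl⟩)
  refine ⟨hdv, ?_⟩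
  intro k
  induction k with
  | zero =>
    intro P' R h
    refine ⟨R, ?_, ?_⟩
    · rw [pow_zero, one_nsmul] at h
      exact h.symm
    · rw [pow_zero, one_nsmul]
  | succ k ih =>
    intro P' R h
    obtain ⟨R1, hR1⟩ := hdv R
    have h2 : 2 • (2 ^ k • P' - pmap (Wa a) f R1) = 0 := by
      rw [nsmul_sub, ← pm_nsmul, hR1, ← h, pow_succ, mul_comm, mul_nsmul', sub_self]
    rw [two_nsmul] at h2
    obtain ⟨T, hT1, hT2⟩ : ∃ T : PA a Ω, pmap (Wa a) f T = 2 ^ k • P' - pmap (Wa a) f R1 ∧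
        2 • T = 0 := by
      rcases (hv'.2.1 _).1 h2 with h3 | ⟨i, h3⟩
      · exact ⟨0, by rw [h3]; exact pm_zero _ _, nsmul_zero 2⟩
      · exact ⟨ee a i, by rw [h3]; exact hee i, by rw [two_nsmul]; exact hee2 i⟩
    obtain ⟨P, hP1, hP2⟩ := ih P' (R1 + T) (by
      rw [pm_add, hT1]
      abel)
    refine ⟨P, hP1, ?_⟩
    rw [pow_succ, mul_comm, mul_nsmul', hP2, nsmul_add, hR1, hT2, add_zero]

end Pool.Agent.MP72S.S
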