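import Pool.Agent.Lib.MP_72e2e6_nt.Sm.S.Spec

/-!
# MP_72e2e6_nt, `Sm/S/Gok`: the hypotheses `GOk` for the data of block D
-/

namespace Pool.Agent.MP72S.S

open Finset WeierstrassCurve Polynomial

open Pool.Agent.MP72W (pmap IsCoc LocTriv InSha ShaTwoFin XY px py)

open Pool.Agent.MP72S.C

private theorem Gok_two {F : Type} [Field F] (h2 : (2 : F) ≠ 0) : (2 : RatFunc F) ≠ 0 := by
  intro h
  apply h2
  have h3 : algebraMap F (RatFunc F) 2 = 0 := by rw [map_ofNat]; exact h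
  exact (map_eq_zero (algebraMap F (RatFunc F))).1 h3

theorem tGok (av : MP72W.S_Av) (qg : D.S_QG) (km : D.S_Km) (ldc : S_Ldc) : S_Gok := by
  intro F _ _ A h2 hA a ha B d₀ hinf htau hphi hch hch0 hd0
  obtain ⟨g1, -, -, g4, -⟩ := qg F
  have g4 := g4 h2
  obtain ⟨-, k2, -, -⟩ := km F h2
  have key : ∀ f : RatFunc F, f ≠ 0 → ∃ δ : D.Qf F, δ ^ 2 = algebraMap (RatFunc F) (D.Qf F) f ∧
      ∀ g : D.GQ F, g δ = if D.hK f g = 0 then δ else -δ := by
    intro f hf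
    obtain ⟨δ, hδ⟩ := g4 (algebraMap (RatFunc F) (D.Qf F) f)
    exact ⟨δ, hδ, k2 f hf δ hδ⟩
  have hP0 : ∀ P : {P : F[X] // P.Monic ∧ Irreducible P},
      algebraMap F[X] (RatFunc F) P.1 ≠ 0 := by
    intro P h
    exact P.2.2.ne_zero ((map_eq_zero_iff _ (IsFractionRing.injective F[X] (RatFunc F))).1 h)
  refine ⟨⟨Gok_two h2, ha⟩, g1.to_normal, g4, ?_, ?_, ?_, ?_, hd0, ?_⟩
  · intro v
    exact (av F).2.2 _ _ (hA.ok v).pl
  · intro v
    rw [htau, hphi]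
    exact ldc F h2 v.o (A v) (hA.ok v)
  · intro v hv
    rcases v with _ | P
    · exact absurd hinf.symm hv
    · exact hP0 P
  · intro v hv
    rcases v with _ | P
    · exact absurd hinf.symm hv
    · obtain ⟨δ, h1, h3⟩ := key _ (hP0 P)
      refine ⟨δ, h1, fun g => ?_⟩
      rw [h3 g, hch P]
  · obtain ⟨δ, h1, h3⟩ := key _ hd0
    refine ⟨δ, h1, fun g => ?_⟩
    rw [h3 g, hch0]

end Pool.Agent.MP72S.S
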