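import Pool.Agent.Lib.MP_72e2e6_nt.Sm.S.Spec

/-!
# MP_72e2e6_nt, `Sm`, block S, module Hdb: heights and doubling
-/

namespace Pool.Agent.MP72S.S

open Finset WeierstrassCurve Polynomial

open Pool.Agent.MP72W (pmap IsCoc LocTriv InSha ShaTwoFin XY px py)

open Pool.Agent.MP72S.C

open scoped Classical

private theorem hdb_fin (F : Type) [Field F] [Finite F] (n : ℕ) :
    {p : F[X] | p.natDegree ≤ n}.Finite := by
  refine Set.Finite.of_finite_image (f := fun p : F[X] => fun i : Fin (n + 1) => p.coeff i)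
    (Set.toFinite _) ?_
  intro p hp q hq h
  ext i
  rcases Nat.lt_or_ge i (n + 1) with hi | hi
  · exact congrFun h ⟨i, hi⟩
  · have hp' : p.natDegree < i := lt_of_le_of_lt hp (by omega)
    have hq' : q.natDegree < i := lt_of_le_of_lt hq (by omega)
    rw [coeff_eq_zero_of_natDegree_lt hp', coeff_eq_zero_of_natDegree_lt hq']

private theorem hdb_hgt {F : Type} [Field F] (δ e₀ : RatFunc F)
    {W : WeierstrassCurve (RatFunc F)} {P : W.toAffine.Point} {x y : RatFunc F} (h : XY P x y) :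
    hgt δ e₀ P = max (δ * (x - e₀)).num.natDegree (δ * (x - e₀)).denom.natDegree := by
  obtain ⟨h, rfl⟩ := h
  rfl

private theorem hdb_hgt0 {F : Type} [Field F] (δ e₀ : RatFunc F)
    {W : WeierstrassCurve (RatFunc F)} : hgt δ e₀ (0 : W.toAffine.Point) = 0 := rfl

theorem tHdb (h1 : C.S_Grp) (h2 : C.S_Vee) (h3 : C.S_Prd) (h4 : S_Hpl) : S_Hdb := by
  intro F _ _ e hH
  obtain ⟨g1, g2, -, -, -, g6, -, -, g9⟩ := h1 (RatFunc F) e (RatFunc F) hH
  obtain ⟨-, v2, -⟩ := h2 (RatFunc F) e (RatFunc F) hH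
  obtain ⟨-, p2⟩ := h3 (RatFunc F) e (RatFunc F) hH
  have hal : ∀ i, al e (RatFunc F) i = e i := fun i => rfl
  have h2F : (2 : F) ≠ 0 := by
    intro h
    apply hH.1
    have : (2 : RatFunc F) = algebraMap F (RatFunc F) 2 := (map_ofNat (algebraMap F (RatFunc F)) 2).symm
    rw [this, h, map_zero]
  -- the polynomials
  obtain ⟨c, hc⟩ : ∃ c, c = e 0 - e 1 := ⟨_, rfl⟩
  obtain ⟨d, hd⟩ : ∃ d, d = e 0 - e 2 := ⟨_, rfl⟩
  have hc0 : c ≠ 0 := by
    rw [hc]
    exact sub_ne_zero.2 fun h => absurd (hH.2 h) (by decide)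
  have hd0 : d ≠ 0 := by
    rw [hd]
    exact sub_ne_zero.2 fun h => absurd (hH.2 h) (by decide)
  have hcd : c ≠ d := by
    rw [hc, hd]
    intro h
    have h5 : e 1 = e 2 := by
      have := sub_right_injective h
      exact this
    exact absurd (hH.2 h5) (by decide)
  have hcden : algebraMap F[X] (RatFunc F) c.denom ≠ 0 := RatFunc.algebraMap_ne_zero c.denom_ne_zero
  have hdden : algebraMap F[X] (RatFunc F) d.denom ≠ 0 := RatFunc.algebraMap_ne_zero d.denom_ne_zero
  obtain ⟨δ, hδ⟩ : ∃ δ, δ = algebraMap F[X] (RatFunc F) (c.denom * d.denom) := ⟨_, rfl⟩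
  have hδ0 : δ ≠ 0 := by
    rw [hδ, map_mul]
    exact mul_ne_zero hcden hdden
  obtain ⟨a, ha⟩ : ∃ a, a = c.num * d.denom := ⟨_, rfl⟩
  obtain ⟨b, hb⟩ : ∃ b, b = d.num * c.denom := ⟨_, rfl⟩
  have hca : algebraMap F[X] (RatFunc F) a = δ * c := by
    rw [ha, hδ, map_mul, map_mul, (div_eq_iff hcden).1 (RatFunc.num_div_denom c)]
    ring
  have hdb : algebraMap F[X] (RatFunc F) b = δ * d := by
    rw [hb, hδ, map_mul, map_mul, (div_eq_iff hdden).1 (RatFunc.num_div_denom d)]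
    ring
  have ha0 : a ≠ 0 := by
    intro h
    rw [h, map_zero] at hca
    exact mul_ne_zero hδ0 hc0 hca.symm
  have hb0 : b ≠ 0 := by
    intro h
    rw [h, map_zero] at hdb
    exact mul_ne_zero hδ0 hd0 hdb.symm
  have hab : a ≠ b := by
    intro h
    apply hcd
    apply mul_left_cancel₀ hδ0
    rw [← hca, ← hdb, h]
  have hV : {P : PA e (RatFunc F) | P + P = 0}.Finite := by
    refine Set.Finite.subset ((Set.finite_singleton (0 : PA e (RatFunc F))).union
      (Set.finite_range fun i : Fin 3 => (ee e i : PA e (RatFunc F)))) ?_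
    intro P hP
    rcases (v2 P).1 hP with h | ⟨i, h⟩
    · exact Or.inl h
    · exact Or.inr ⟨i, h.symm⟩
  obtain ⟨B0, hB0⟩ := h4 F a b h2F ha0 hb0 hab
  obtain ⟨B1, hB1⟩ := (hV.image fun P => 4 * hgt δ (e 0) P).bddAbove
  refine ⟨δ, hδ0, ⟨B0 + B1, ?_⟩, ?_, hV⟩
  · intro P
    by_cases hPP : P + P = 0
    · have h5 : 4 * hgt δ (e 0) P ≤ B1 := hB1 ⟨P, hPP, rfl⟩
      omega
    · have hP0 : P ≠ 0 := by
        intro h
        apply hPP
        rw [h, add_zero]
      obtain ⟨x, y, hxy⟩ := (g1 P).resolve_left hP0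
      obtain ⟨x2, y2, hxy2⟩ := (g1 (P + P)).resolve_left hPP
      obtain ⟨-, hpx, hpy, heq⟩ := g2 P x y hxy
      obtain ⟨-, hpx2, -, -⟩ := g2 (P + P) x2 y2 hxy2
      have hy : y ≠ 0 := by
        intro h
        rw [h] at hxy
        exact hPP (g9 P x hxy)
      have h5 := p2 P 0 hPP
      rw [hpx, hpx2, hpy] at h5
      simp only [hal] at h5 heq
      have e01 : (0 : Fin 3) + 1 = 1 := rfl
      have e02 : (0 : Fin 3) + 2 = 2 := rfl
      rw [e01, e02, ← hc, ← hd] at h5
      rw [hdb_hgt δ (e 0) hxy, hdb_hgt δ (e 0) hxy2]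
      obtain ⟨U, hU⟩ : ∃ U, U = δ * (x - e 0) := ⟨_, rfl⟩
      obtain ⟨r, hr⟩ : ∃ r, r = δ * (x2 - e 0) := ⟨_, rfl⟩
      rw [← hU, ← hr]
      have hZ : algebraMap F[X] (RatFunc F) U.denom ≠ 0 := RatFunc.algebraMap_ne_zero U.denom_ne_zero
      have hX : algebraMap F[X] (RatFunc F) U.num = U * algebraMap F[X] (RatFunc F) U.denom :=
        (div_eq_iff hZ).1 (RatFunc.num_div_denom U)
      have hy2 : y ^ 2 = (x - e 0) * (x - e 0 + c) * (x - e 0 + d) := by
        rw [heq, hc, hd]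
        ring
      have h6 : algebraMap F[X] (RatFunc F) (4 * U.num * U.denom * (U.num + a * U.denom) *
          (U.num + b * U.denom)) = 4 * δ ^ 3 * y ^ 2 *
          algebraMap F[X] (RatFunc F) U.denom ^ 4 := by
        simp only [map_mul, map_add, map_ofNat, hX, hca, hdb]
        rw [hy2, hU]
        ring
      have h7 : algebraMap F[X] (RatFunc F) ((U.num ^ 2 - a * b * U.denom ^ 2) ^ 2) =
          δ ^ 4 * ((x - e 0) ^ 2 - c * d) ^ 2 * algebraMap F[X] (RatFunc F) U.denom ^ 4 := by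
        simp only [map_mul, map_sub, map_pow, hX, hca, hdb]
        rw [hU]
        ring
      have h4' : (4 : RatFunc F) ≠ 0 := by
        have : (4 : RatFunc F) = 2 * 2 := by norm_num
        rw [this]
        exact mul_ne_zero hH.1 hH.1
      have h8 := hB0 U.num U.denom r (RatFunc.isCoprime_num_denom U) U.denom_ne_zero (by
        intro h9
        rw [h9, map_zero] at h6
        exact mul_ne_zero (mul_ne_zero (mul_ne_zero h4' (pow_ne_zero _ hδ0)) (pow_ne_zero _ hy))
          (pow_ne_zero _ hZ) h6.symm) (by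
        rw [h6, h7, ← h5, hr]
        ring)
      omega
  · intro n
    have hT : ({p : F[X] | p.natDegree ≤ n} ×ˢ {p : F[X] | p.natDegree ≤ n}).Finite :=
      (hdb_fin F n).prod (hdb_fin F n)
    have hXn := hT.image fun pq : F[X] × F[X] =>
      (algebraMap F[X] (RatFunc F) pq.1 / algebraMap F[X] (RatFunc F) pq.2) / δ + e 0
    refine Set.Finite.subset ((Set.finite_singleton (0 : PA e (RatFunc F))).union
      (hXn.biUnion (t := fun x => {P : PA e (RatFunc F) | P ≠ 0 ∧ px P = x}) ?_)) ?_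
    · intro x _
      by_cases hx : ∃ P₀ : PA e (RatFunc F), P₀ ≠ 0 ∧ px P₀ = x
      · obtain ⟨P₀, hP₀, hx⟩ := hx
        refine Set.Finite.subset (Set.toFinite {P₀, -P₀}) ?_
        rintro P ⟨hP, hPx⟩
        exact g6 P₀ P hP₀ hP (hx.trans hPx.symm)
      · refine Set.Finite.subset Set.finite_empty ?_
        rintro P hP
        exact hx ⟨P, hP⟩
    · intro P hP
      by_cases hP0 : P = 0
      · exact Or.inl hP0
      · right
        obtain ⟨x, y, hxy⟩ := (g1 P).resolve_left hP0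
        obtain ⟨-, hpx, -, -⟩ := g2 P x y hxy
        have hP' : hgt δ (e 0) P ≤ n := hP
        rw [hdb_hgt δ (e 0) hxy] at hP'
        refine Set.mem_biUnion (x := x) ⟨((δ * (x - e 0)).num, (δ * (x - e 0)).denom),
          ⟨(le_max_left _ _).trans hP', (le_max_right _ _).trans hP'⟩, ?_⟩ ⟨hP0, hpx⟩
        show (algebraMap F[X] (RatFunc F) (δ * (x - e 0)).num /
          algebraMap F[X] (RatFunc F) (δ * (x - e 0)).denom) / δ + e 0 = x
        rw [RatFunc.num_div_denom, mul_div_cancel_left₀ _ hδ0, sub_add_cancel]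

end Pool.Agent.MP72S.S
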