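import Pool.Agent.Lib.MP_72e2e6_nt.Sm.S.Spec

/-!
# MP_72e2e6_nt, `Sm`, block S, Hgt: abstract height argument (helper82)
-/

set_option autoImplicit false

namespace Pool.Agent.MP72S.S

theorem tHgt : S_Hgt := by
  intro A _ h B hB hfin htor hdiv
  obtain ⟨A₀, hA₀⟩ : ∃ A₀ : Set A, A₀ = {X | (∃ P, X = 2 • P) ∧ h X ≤ B} := ⟨_, rfl⟩
  have hA₀f : A₀.Finite := by
    rw [hA₀]
    exact (hfin B).subset fun X hX => hX.2
  have hhalf : ∀ X : A, (∃ P, X = 2 • P) → ∃ X' : A, (∃ P, X' = 2 • P) ∧ 2 • X' = X ∧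
      4 * h X' ≤ h X + B := by
    rintro X ⟨P, rfl⟩
    obtain ⟨P', hP'⟩ := hdiv P
    have h1 : 2 • (2 • P') = 2 • P := by
      rw [hP', ← mul_smul]
      norm_num
    refine ⟨2 • P', ⟨P', rfl⟩, h1, ?_⟩
    have h2 := hB (2 • P')
    rwa [← two_nsmul, h1] at h2
  have hdb : ∀ X ∈ A₀, 2 • X ∈ A₀ := by
    have h1 : ∀ X : A₀, ∃ X' : A₀, 2 • (X' : A) = X := by
      rintro ⟨X, hX⟩
      have hX' := hX
      rw [hA₀] at hX'
      obtain ⟨X', h2, h3, h4⟩ := hhalf X hX'.1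
      refine ⟨⟨X', ?_⟩, h3⟩
      rw [hA₀]
      exact ⟨h2, by have := hX'.2; omega⟩
    choose g hg using h1
    have hginj : Function.Injective g := by
      intro X Y hXY
      apply Subtype.val_injective
      rw [← hg X, ← hg Y, hXY]
    have : Finite A₀ := hA₀f
    have hgs : Function.Surjective g := Finite.surjective_of_injective hginj
    intro X hX
    obtain ⟨Y, hY⟩ := hgs ⟨X, hX⟩
    have h2 := hg Y
    rw [hY] at h2
    rw [h2]
    exact Y.2
  have hM : ∀ n : ℕ, ∀ X : A, h X = n → (∃ P, X = 2 • P) → X ∈ A₀ := by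
    intro n
    induction n using Nat.strong_induction_on with
    | _ n ih =>
      intro X hX hXM
      by_cases hle : h X ≤ B
      · rw [hA₀]
        exact ⟨hXM, hle⟩
      · obtain ⟨X', h2, h3, h4⟩ := hhalf X hXM
        rw [← h3]
        exact hdb X' (ih (h X') (by omega) X' rfl h2)
  have hfib : ∀ X : A, {P : A | 2 • P = X}.Finite := by
    intro X
    by_cases hX : ∃ P₀ : A, 2 • P₀ = X
    · obtain ⟨P₀, rfl⟩ := hX
      refine (htor.image fun T => T + P₀).subset ?_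
      intro P hP
      refine ⟨P - P₀, ?_, sub_add_cancel _ _⟩
      show P - P₀ + (P - P₀) = 0
      have hP' : 2 • P = 2 • P₀ := hP
      rw [← two_nsmul, smul_sub, hP', sub_self]
    · refine Set.finite_empty.subset fun P hP => ?_
      exact (hX ⟨P, hP⟩).elim
  have huniv : (Set.univ : Set A) ⊆ ⋃ X ∈ A₀, {P : A | 2 • P = X} := by
    intro P _
    rw [Set.mem_iUnion₂]
    exact ⟨2 • P, hM _ _ rfl ⟨P, rfl⟩, rfl⟩
  exact Set.finite_univ_iff.1 ((hA₀f.biUnion fun X _ => hfib X).subset huniv)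

end Pool.Agent.MP72S.S
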