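import Pool.Agent.Lib.MP_72e2e6_nt.Sm.S.Spec

/-!
# MP_72e2e6_nt, `Sm`, block S, module Hpl: the height of a rational function of degree four
-/

namespace Pool.Agent.MP72S.S

open Polynomial

section hpl

variable {F : Type} [Field F]

private theorem hpl_a {p q : F[X]} {n : ℕ} (hp : p.natDegree ≤ n) (hq : q.natDegree ≤ n) :
    (p + q).natDegree ≤ n := natDegree_add_le_of_degree_le hp hq

private theorem hpl_s {p q : F[X]} {n : ℕ} (hp : p.natDegree ≤ n) (hq : q.natDegree ≤ n) :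
    (p - q).natDegree ≤ n := by
  have := natDegree_sub_le_of_le hp hq
  rwa [max_self] at this

private theorem hpl_m {p q : F[X]} {i j n : ℕ} (hp : p.natDegree ≤ i) (hq : q.natDegree ≤ j)
    (h : i + j ≤ n) : (p * q).natDegree ≤ n := (natDegree_mul_le_of_le hp hq).trans h

private theorem hpl_p {p : F[X]} {i n : ℕ} (k : ℕ) (hp : p.natDegree ≤ i) (h : k * i ≤ n) :
    (p ^ k).natDegree ≤ n := (natDegree_pow_le_of_le k hp).trans h

private theorem hpl_n (k : ℕ) : ((k : ℕ) : F[X]).natDegree ≤ 0 := by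
  rw [natDegree_natCast]

private theorem hpl_2 : (2 : F[X]).natDegree ≤ 0 := by
  have := hpl_n (F := F) 2
  rwa [Nat.cast_ofNat] at this

private theorem hpl_3 : (3 : F[X]).natDegree ≤ 0 := by
  have := hpl_n (F := F) 3
  rwa [Nat.cast_ofNat] at this

private theorem hpl_4 : (4 : F[X]).natDegree ≤ 0 := by
  have := hpl_n (F := F) 4
  rwa [Nat.cast_ofNat] at this

private theorem hpl_5 : (5 : F[X]).natDegree ≤ 0 := by
  have := hpl_n (F := F) 5
  rwa [Nat.cast_ofNat] at this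

theorem tHpl : S_Hpl := by
  intro F _ a b h2 ha hb hab
  have h4 : (4 : F[X]) ≠ 0 := by
    have h4' : (4 : F) ≠ 0 := by
      have : (4 : F) = 2 * 2 := by norm_num
      rw [this]
      exact mul_ne_zero h2 h2
    intro h
    apply h4'
    have h5 := congrArg (fun p : F[X] => p.coeff 0) h
    simp only [coeff_zero] at h5
    have h6 : (4 : F[X]).coeff 0 = 4 := by
      have : (4 : F[X]) = C (4 : F) := (map_ofNat C 4).symm
      rw [this, coeff_C_zero]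
    rw [h6] at h5
    exact h5
  have hab' : a - b ≠ 0 := sub_ne_zero.2 hab
  have hκ : (a * b) ^ 2 * (a - b) ^ 2 ≠ 0 :=
    mul_ne_zero (pow_ne_zero _ (mul_ne_zero ha hb)) (pow_ne_zero _ hab')
  have hκ4 : 4 * ((a * b) ^ 2 * (a - b) ^ 2) ≠ 0 := mul_ne_zero h4 hκ
  obtain ⟨e, he⟩ : ∃ e, e = max a.natDegree b.natDegree := ⟨_, rfl⟩
  have hae : a.natDegree ≤ e := he ▸ le_max_left _ _
  have hbe : b.natDegree ≤ e := he ▸ le_max_right _ _
  refine ⟨6 * e + (4 * ((a * b) ^ 2 * (a - b) ^ 2)).natDegree, ?_⟩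
  intro X Z r hco hZ hg hr
  obtain ⟨m, hm⟩ : ∃ m, m = max X.natDegree Z.natDegree := ⟨_, rfl⟩
  have hXm : X.natDegree ≤ m := hm ▸ le_max_left _ _
  have hZm : Z.natDegree ≤ m := hm ▸ le_max_right _ _
  obtain ⟨f, hf⟩ : ∃ f, f = (X ^ 2 - a * b * Z ^ 2) ^ 2 := ⟨_, rfl⟩
  obtain ⟨g, hgd⟩ : ∃ g, g = 4 * X * Z * (X + a * Z) * (X + b * Z) := ⟨_, rfl⟩
  rw [← hgd] at hg hr
  rw [← hf] at hr
  -- the common factor
  have hden : algebraMap F[X] (RatFunc F) r.denom ≠ 0 := RatFunc.algebraMap_ne_zero r.denom_ne_zero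
  have e1 : r.num * g = f * r.denom := by
    apply RatFunc.algebraMap_injective F
    rw [map_mul, map_mul, ← hr, (div_eq_iff hden).1 (RatFunc.num_div_denom r)]
    ring
  obtain ⟨w, hw⟩ : r.denom ∣ g := by
    have h1 : r.denom ∣ r.num * g := ⟨f, by rw [e1, mul_comm]⟩
    exact (RatFunc.isCoprime_num_denom r).symm.dvd_of_dvd_mul_left h1
  have hw' : f = r.num * w := by
    have h1 : f * r.denom = (r.num * w) * r.denom := by
      rw [← e1, hw]
      ring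
    exact mul_right_cancel₀ r.denom_ne_zero h1
  -- the identities
  have I1 : 4 * ((a * b) ^ 2 * (a - b) ^ 2) * Z ^ 7 =
      (4 * (Z * ((a - b) ^ 2 * Z ^ 2 - 2 * (a + b) * X * Z - 3 * X ^ 2))) * f +
      (3 * X ^ 3 - (a + b) * X ^ 2 * Z - 5 * (a * b) * X * Z ^ 2 +
        2 * (a * b) * (a + b) * Z ^ 3) * g := by
    rw [hf, hgd]
    ring
  have I2 : 4 * (a - b) ^ 2 * X ^ 7 =
      (4 * (X * ((a - b) ^ 2 * X ^ 2 - 2 * (a + b) * (a * b) * X * Z - 3 * (a * b) ^ 2 * Z ^ 2))) *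
        f + (a * b * (3 * (a * b) ^ 2 * Z ^ 3 - (a + b) * (a * b) * X * Z ^ 2 -
        5 * (a * b) * X ^ 2 * Z + 2 * (a + b) * X ^ 3)) * g := by
    rw [hf, hgd]
    ring
  have d1 : w ∣ 4 * ((a * b) ^ 2 * (a - b) ^ 2) * Z ^ 7 := by
    rw [I1, hw', hw]
    exact dvd_add (Dvd.dvd.mul_left (dvd_mul_left w _) _) (Dvd.dvd.mul_left (dvd_mul_left w _) _)
  have d2 : w ∣ 4 * ((a * b) ^ 2 * (a - b) ^ 2) * X ^ 7 := by
    have : 4 * ((a * b) ^ 2 * (a - b) ^ 2) * X ^ 7 = (a * b) ^ 2 * (4 * (a - b) ^ 2 * X ^ 7) := by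
      ring
    rw [this]
    refine Dvd.dvd.mul_left ?_ _
    rw [I2, hw', hw]
    exact dvd_add (Dvd.dvd.mul_left (dvd_mul_left w _) _) (Dvd.dvd.mul_left (dvd_mul_left w _) _)
  have d3 : w ∣ 4 * ((a * b) ^ 2 * (a - b) ^ 2) := by
    obtain ⟨u, v, huv⟩ := (hco.pow (m := 7) (n := 7))
    have : 4 * ((a * b) ^ 2 * (a - b) ^ 2) = u * (4 * ((a * b) ^ 2 * (a - b) ^ 2) * X ^ 7) +
        v * (4 * ((a * b) ^ 2 * (a - b) ^ 2) * Z ^ 7) := by
      calc 4 * ((a * b) ^ 2 * (a - b) ^ 2) = 4 * ((a * b) ^ 2 * (a - b) ^ 2) *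
          (u * X ^ 7 + v * Z ^ 7) := by rw [huv, mul_one]
        _ = _ := by ring
    rw [this]
    exact dvd_add (Dvd.dvd.mul_left d2 _) (Dvd.dvd.mul_left d1 _)
  have hwd : w.natDegree ≤ (4 * ((a * b) ^ 2 * (a - b) ^ 2)).natDegree :=
    natDegree_le_of_dvd d3 hκ4
  obtain ⟨R, hR⟩ : ∃ R, R = max r.num.natDegree r.denom.natDegree := ⟨_, rfl⟩
  obtain ⟨κ', hκ'⟩ : ∃ κ', κ' = (4 * ((a * b) ^ 2 * (a - b) ^ 2)).natDegree := ⟨_, rfl⟩
  rw [← hκ'] at hwd
  rw [← hm, ← hR, ← hκ']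
  have hfd : f.natDegree ≤ R + κ' := by
    rw [hw']
    exact hpl_m (hR ▸ le_max_left _ _) hwd le_rfl
  have hgd' : g.natDegree ≤ R + κ' := by
    rw [hw]
    exact hpl_m (hR ▸ le_max_right _ _) hwd le_rfl
  -- degrees of the coefficients
  have sab : (a + b).natDegree ≤ e := hpl_a hae hbe
  have pab : (a * b).natDegree ≤ 2 * e := hpl_m hae hbe (by omega)
  have dab : ((a - b) ^ 2).natDegree ≤ 2 * e := hpl_p 2 (hpl_s hae hbe) (by omega)
  have pab2 : ((a * b) ^ 2).natDegree ≤ 4 * e := hpl_p 2 pab (by omega)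
  have X2 : (X ^ 2).natDegree ≤ 2 * m := hpl_p 2 hXm (by omega)
  have X3 : (X ^ 3).natDegree ≤ 3 * m := hpl_p 3 hXm (by omega)
  have Z2 : (Z ^ 2).natDegree ≤ 2 * m := hpl_p 2 hZm (by omega)
  have Z3 : (Z ^ 3).natDegree ≤ 3 * m := hpl_p 3 hZm (by omega)
  rcases le_total X.natDegree Z.natDegree with hc | hc
  · have hmZ : m = Z.natDegree := hm.trans (max_eq_right hc)
    have c1 : (4 * (Z * ((a - b) ^ 2 * Z ^ 2 - 2 * (a + b) * X * Z - 3 * X ^ 2))).natDegree ≤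
        3 * m + 6 * e := by
      refine hpl_m hpl_4 (hpl_m hZm (j := 2 * m + 6 * e) (n := 3 * m + 6 * e) ?_ (by omega))
        (by omega)
      refine hpl_s (hpl_s ?_ ?_) ?_
      · exact hpl_m dab Z2 (by omega)
      · exact hpl_m (hpl_m (hpl_m hpl_2 sab (n := e) (by omega)) hXm (n := e + m) (by omega)) hZm
          (by omega)
      · exact hpl_m hpl_3 X2 (by omega)
    have c2 : (3 * X ^ 3 - (a + b) * X ^ 2 * Z - 5 * (a * b) * X * Z ^ 2 +
        2 * (a * b) * (a + b) * Z ^ 3).natDegree ≤ 3 * m + 6 * e := by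
      refine hpl_a (hpl_s (hpl_s ?_ ?_) ?_) ?_
      · exact hpl_m hpl_3 X3 (by omega)
      · exact hpl_m (hpl_m sab X2 (n := e + 2 * m) (by omega)) hZm (by omega)
      · exact hpl_m (hpl_m (hpl_m hpl_5 pab (n := 2 * e) (by omega)) hXm (n := 2 * e + m)
          (by omega)) Z2 (by omega)
      · exact hpl_m (hpl_m (hpl_m hpl_2 pab (n := 2 * e) (by omega)) sab (n := 3 * e)
          (by omega)) Z3 (by omega)
    have c3 : (4 * ((a * b) ^ 2 * (a - b) ^ 2) * Z ^ 7).natDegree ≤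
        3 * m + 6 * e + (R + κ') := by
      rw [I1]
      exact hpl_a (hpl_m c1 hfd le_rfl) (hpl_m c2 hgd' le_rfl)
    rw [natDegree_mul hκ4 (pow_ne_zero _ hZ), natDegree_pow, ← hmZ] at c3
    omega
  · have hmX : m = X.natDegree := hm.trans (max_eq_left hc)
    by_cases hX0 : X = 0
    · rw [hX0, natDegree_zero] at hmX
      omega
    have c1 : (4 * (X * ((a - b) ^ 2 * X ^ 2 - 2 * (a + b) * (a * b) * X * Z -
        3 * (a * b) ^ 2 * Z ^ 2))).natDegree ≤ 3 * m + 6 * e := by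
      refine hpl_m hpl_4 (hpl_m hXm (j := 2 * m + 6 * e) (n := 3 * m + 6 * e) ?_ (by omega))
        (by omega)
      refine hpl_s (hpl_s ?_ ?_) ?_
      · exact hpl_m dab X2 (by omega)
      · exact hpl_m (hpl_m (hpl_m (hpl_m hpl_2 sab (n := e) (by omega)) pab (n := 3 * e)
          (by omega)) hXm (n := 3 * e + m) (by omega)) hZm (by omega)
      · exact hpl_m (hpl_m hpl_3 pab2 (n := 4 * e) (by omega)) Z2 (by omega)
    have c2 : (a * b * (3 * (a * b) ^ 2 * Z ^ 3 - (a + b) * (a * b) * X * Z ^ 2 -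
        5 * (a * b) * X ^ 2 * Z + 2 * (a + b) * X ^ 3)).natDegree ≤ 3 * m + 6 * e := by
      refine hpl_m pab (j := 3 * m + 4 * e) ?_ (by omega)
      refine hpl_a (hpl_s (hpl_s ?_ ?_) ?_) ?_
      · exact hpl_m (hpl_m hpl_3 pab2 (n := 4 * e) (by omega)) Z3 (by omega)
      · exact hpl_m (hpl_m (hpl_m sab pab (n := 3 * e) (by omega)) hXm (n := 3 * e + m)
          (by omega)) Z2 (by omega)
      · exact hpl_m (hpl_m (hpl_m hpl_5 pab (n := 2 * e) (by omega)) X2 (n := 2 * e + 2 * m)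
          (by omega)) hZm (by omega)
      · exact hpl_m (hpl_m hpl_2 sab (n := e) (by omega)) X3 (by omega)
    have c3 : (4 * (a - b) ^ 2 * X ^ 7).natDegree ≤ 3 * m + 6 * e + (R + κ') := by
      rw [I2]
      exact hpl_a (hpl_m c1 hfd le_rfl) (hpl_m c2 hgd' le_rfl)
    rw [natDegree_mul (mul_ne_zero h4 (pow_ne_zero _ hab')) (pow_ne_zero _ hX0), natDegree_pow,
      ← hmX] at c3
    omega

end hpl

end Pool.Agent.MP72S.S
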