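import Pool.Agent.Lib.MP_72e2e6_nt.Sm.S.Spec

/-!
# MP_72e2e6_nt, `Sm`, block S: module `Ine`
-/

namespace Pool.Agent.MP72S.S

open Finset WeierstrassCurve Polynomial

open Pool.Agent.MP72W (pmap IsCoc LocTriv InSha ShaTwoFin XY px py)

open Pool.Agent.MP72S.C

open scoped Classical

section

variable {K : Type} [Field K] {Ω : Type} [Field Ω] [Algebra K Ω] (v : AbsoluteValue Ω ℝ)
  (τ : Ω →ₐ[K] Ω)

private theorem ine_sq (h2 : v 2 = 1) (hin : ∀ x, v x ≤ 1 → v (τ x - x) < 1) {w u c : Ω}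
    (hw : w ^ 2 = u) (hu : τ u = u) (hc : τ c = c) (hv : v u = v c ^ 2) : τ w = w := by
  by_cases hw0 : w = 0
  · rw [hw0, map_zero]
  have hvw : v w ≠ 0 := fun h => hw0 (v.eq_zero.1 h)
  have hvc : v c ≠ 0 := by
    intro h
    rw [h, ← hw, map_pow] at hv
    apply hvw
    have h3 : v w ^ 2 = 0 := by rw [hv]; norm_num
    exact pow_eq_zero_iff (two_ne_zero) |>.1 h3
  have hc0 : c ≠ 0 := fun h => hvc (by rw [h, map_zero])
  have hv1 : v (w / c) = 1 := by
    rw [map_div₀, div_eq_one_iff_eq hvc]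
    rw [← hw, map_pow] at hv
    exact (pow_left_inj₀ (v.nonneg w) (v.nonneg c) two_ne_zero).1 hv
  have hlt := hin (w / c) hv1.le
  have hq : τ (w / c) ^ 2 = (w / c) ^ 2 := by
    rw [← map_pow, div_pow, hw, map_div₀, map_pow, hu, hc]
  rcases sq_eq_sq_iff_eq_or_eq_neg.1 hq with h | h
  · have h3 : w = (w / c) * c := by field_simp
    rw [h3, map_mul, h, hc]
  · exfalso
    have h3 : τ (w / c) - w / c = -(2 * (w / c)) := by rw [h]; ring
    rw [h3, map_neg_eq_map, map_mul, h2, hv1] at hlt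
    norm_num at hlt

private theorem ine_val (hna : IsNonarchimedean v)
    (a : Fin 3 → K) (hal : ∀ i, v (al a Ω i) ≤ 1)
    (had : ∀ i j, i ≠ j → v (al a Ω i - al a Ω j) = 1) {x y : Ω} (hx : τ x = x) (hy : τ y = y)
    (he : y ^ 2 = (x - al a Ω 0) * (x - al a Ω 1) * (x - al a Ω 2)) (i : Fin 3) :
    ∃ c, τ c = c ∧ v (x - al a Ω i) = v c ^ 2 := by
  have hve : v y ^ 2 = v (x - al a Ω 0) * v (x - al a Ω 1) * v (x - al a Ω 2) := by
    rw [← map_pow, he, map_mul, map_mul]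
  have hadd : ∀ s t : Ω, v (s + t) ≤ max (v s) (v t) := hna
  have hdom : ∀ s t : Ω, v t < v s → v (s + t) = v s := by
    intro s t hst
    apply le_antisymm
    · exact (hadd s t).trans (max_le le_rfl hst.le)
    · by_contra hlt
      push Not at hlt
      have h3 := hadd (s + t) (-t)
      rw [add_neg_cancel_right, map_neg_eq_map] at h3
      exact absurd h3 (not_le.2 (max_lt hlt hst))
  by_cases h1 : 1 < v x
  · have hj : ∀ j, v (x - al a Ω j) = v x := by
      intro j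
      rw [sub_eq_add_neg]
      apply hdom
      rw [map_neg_eq_map]
      exact (hal j).trans_lt h1
    refine ⟨y / x, by rw [map_div₀, hx, hy], ?_⟩
    rw [hj, hj, hj] at hve
    rw [hj, map_div₀, div_pow, hve]
    have h0 : v x ≠ 0 := by
      intro h
      rw [h] at h1
      norm_num at h1
    field_simp
  · push Not at h1
    have hle : ∀ j, v (x - al a Ω j) ≤ 1 := by
      intro j
      rw [sub_eq_add_neg]
      refine (hadd _ _).trans (max_le h1 ?_)
      rw [map_neg_eq_map]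
      exact hal j
    rcases (hle i).lt_or_eq with hlt | heq
    · refine ⟨y, hy, ?_⟩
      have hj : ∀ j, j ≠ i → v (x - al a Ω j) = 1 := by
        intro j hji
        have h3 : x - al a Ω j = (al a Ω i - al a Ω j) + (x - al a Ω i) := by ring
        rw [h3, hdom _ _ (by rw [had i j hji.symm]; exact hlt), had i j hji.symm]
      rw [hve]
      fin_cases i
      · rw [hj 1 (by decide), hj 2 (by decide)]
        simp
      · rw [hj 0 (by decide), hj 2 (by decide)]
        simp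
      · rw [hj 0 (by decide), hj 1 (by decide)]
        simp
    · exact ⟨1, map_one τ, by rw [heq, map_one, one_pow]⟩

private theorem ine_two (h1 : C.S_Grp) (h2 : C.S_Vee) (a : Fin 3 → K) (hyp : Hyp a Ω)
    {P : PA a Ω} (hP : P + P = 0) : pmap (Wa a) τ P = P := by
  obtain ⟨hg1, hg2, hg3, hg4, -⟩ := h1 K a Ω hyp
  obtain ⟨hv1, hv2, -⟩ := h2 K a Ω hyp
  rcases (hv2 P).1 hP with rfl | ⟨i, rfl⟩
  · rfl
  · have h3 := pm_xy (Wa a) τ (hv1 i)
    have h4 : τ (al a Ω i) = al a Ω i := τ.commutes (a i)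
    rw [map_zero, h4] at h3
    exact hg4 _ _ _ _ h3 (hv1 i)

private theorem ine_one (h1 : C.S_Grp) (h2 : C.S_Vee) (h3 : C.S_Hal) (a : Fin 3 → K)
    (hyp : Hyp a Ω) (hQ : QC Ω) (hna : IsNonarchimedean v) (hv2 : v 2 = 1)
    (hin : ∀ x, v x ≤ 1 → v (τ x - x) < 1) (hal : ∀ i, v (al a Ω i) ≤ 1)
    (had : ∀ i j, i ≠ j → v (al a Ω i - al a Ω j) = 1) (P : PA a Ω)
    (hP : pmap (Wa a) τ (P + P) = P + P) : pmap (Wa a) τ P = P := by
  obtain ⟨hg1, hg2, hg3, hg4, -⟩ := h1 K a Ω hyp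
  rcases hg1 (P + P) with h0 | ⟨x, y, hxy⟩
  · exact ine_two τ h1 h2 a hyp h0
  have he := (hg2 _ _ _ hxy).2.2.2
  have hxy' := pm_xy (Wa a) τ hxy
  rw [hP] at hxy'
  have hx : τ x = x := ((hg2 _ _ _ hxy').2.1).symm.trans (hg2 _ _ _ hxy).2.1
  have hy : τ y = y := ((hg2 _ _ _ hxy').2.2.1).symm.trans (hg2 _ _ _ hxy).2.2.1
  have hr : ∃ r : Fin 3 → Ω, (∀ i, r i ^ 2 = x - al a Ω i) ∧ r 0 * r 1 * r 2 = y := by
    choose r hr using fun i : Fin 3 => hQ (x - al a Ω i)
    have h5 : (r 0 * r 1 * r 2) ^ 2 = y ^ 2 := by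
      rw [mul_pow, mul_pow, hr, hr, hr, he]
    rcases sq_eq_sq_iff_eq_or_eq_neg.1 h5 with h | h
    · exact ⟨r, hr, h⟩
    · refine ⟨fun i => -r i, fun i => by rw [neg_sq, hr], ?_⟩
      have h6 : -r 0 * -r 1 * -r 2 = -(r 0 * r 1 * r 2) := by ring
      show -r 0 * -r 1 * -r 2 = y
      rw [h6, h, neg_neg]
  obtain ⟨r, hr, hry⟩ := hr
  have hτr : ∀ i, τ (r i) = r i := by
    intro i
    obtain ⟨c, hc, hvc⟩ := ine_val v τ hna a hal had hx hy he i
    refine ine_sq v τ hv2 hin (hr i) ?_ hc hvc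
    rw [map_sub, hx]
    have h7 : τ (al a Ω i) = al a Ω i := τ.commutes (a i)
    rw [h7]
  obtain ⟨P₁, hP1, hP2, -, -⟩ := h3 K a Ω hyp (P + P) x y hxy r hr hry
  have hτP : pmap (Wa a) τ P₁ = P₁ := by
    have h8 := pm_xy (Wa a) τ hP1
    simp only [map_add, map_mul, hx, hτr] at h8
    exact hg4 _ _ _ _ h8 hP1
  have hV : (P - P₁) + (P - P₁) = 0 := by
    have h9 : (P - P₁) + (P - P₁) = (P + P) - (P₁ + P₁) := by abel
    rw [h9, hP2, sub_self]
  have h10 := ine_two τ h1 h2 a hyp hV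
  rw [pm_sub, hτP] at h10
  exact sub_left_inj.1 h10

end

/-- At a good place inertia fixes the division points of the fixed points. -/
theorem tIne : C.S_Grp → C.S_Vee → C.S_Hal → S_Ine := by
  intro h1 h2 h3 K _ a Ω _ _ I v τ hyp hQ hna hv2 hin hal had k
  obtain rfl : I = fun a b => Classical.propDecidable (a = b) := Subsingleton.elim _ _
  induction k with
  | zero =>
    intro P hP
    rw [pow_zero, one_nsmul] at hP
    exact hP
  | succ k ih =>
    intro P hP
    apply ih P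
    apply ine_one v τ h1 h2 h3 a hyp hQ hna hv2 hin hal had
    rw [← two_nsmul, ← mul_nsmul, mul_comm, ← pow_succ']
    exact hP

end Pool.Agent.MP72S.S
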