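import Pool.Agent.Lib.MP_72e2e6_nt.Sm.S.Spec

/-!
# MP_72e2e6_nt, `Sm`, block S, module Inf

Cocycles with values in the `2`-power torsion come from `Gal(Q/K)`.
-/

namespace Pool.Agent.MP72S.S

open Finset WeierstrassCurve Polynomial IntermediateField

open Pool.Agent.MP72W (pmap IsCoc LocTriv InSha ShaTwoFin XY px py)

open Pool.Agent.MP72S.C

open scoped Classical

theorem tInf (hNoQ : S_NoQ) : S_Inf := by
  intro K _ W Q _ N _ _ χ θ h2 hq hθ z hz hk
  obtain ⟨k, hk⟩ := hk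
  choose z' hz' using fun σ => hθ.rng (z σ) ⟨k, hk σ⟩
  have hlc : IsLocallyConstant z' := by
    rw [IsLocallyConstant.iff_eventually_eq]
    intro x
    filter_upwards [(IsLocallyConstant.iff_eventually_eq z).mp hz.loc x] with y hy
    exact hθ.inj (by rw [hz', hz', hy])
  have hco : ∀ σ τ, z' (σ * τ) = z' σ + tw χ (rs Q σ) (z' τ) := by
    intro σ τ
    apply hθ.inj
    rw [hθ.add, ← hθ.eqv, hz', hz', hz']
    exact hz.mul σ τ
  let Θ : N →+ (W⁄(SeparableClosure K)).toAffine.Point := AddMonoidHom.mk' θ hθ.add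
  have hT : ∀ σ, 2 ^ k • z' σ = 0 := by
    intro σ
    apply hθ.inj
    have e1 : θ (2 ^ k • z' σ) = 2 ^ k • θ (z' σ) := map_nsmul Θ (2 ^ k) (z' σ)
    have e2 : θ 0 = 0 := map_zero Θ
    rw [e1, e2, hz']
    exact hk σ
  have htw : ∀ n : N, tw χ (1 : Gal(Q/K)) n = n := by
    intro n
    apply hθ.inj
    have e := hθ.eqv 1 n
    rw [map_one] at e
    rw [← e]
    cases θ n with
    | zero => rfl
    | some x y h => rfl
  have hrs : ∀ σ ∈ Q.fixingSubgroup, rs Q σ = 1 := by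
    intro σ hσ
    rw [← IntermediateField.restrictNormalHom_ker, MonoidHom.mem_ker] at hσ
    exact hσ
  have hH : ∀ σ ∈ Q.fixingSubgroup, z' σ = 0 := by
    refine hNoQ K Q h2 hq N z' hlc ?_ ⟨k, fun σ _ => hT σ⟩
    intro σ hσ τ _
    rw [hco, hrs σ hσ, htw]
  have hfib : ∀ σ σ', rs Q σ = rs Q σ' → z' σ = z' σ' := by
    intro σ σ' he
    have hm : σ⁻¹ * σ' ∈ Q.fixingSubgroup := by
      rw [← IntermediateField.restrictNormalHom_ker, MonoidHom.mem_ker, map_mul, map_inv]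
      change (rs Q σ)⁻¹ * rs Q σ' = 1
      rw [he, inv_mul_cancel]
    have e := hco σ (σ⁻¹ * σ')
    rw [mul_inv_cancel_left, hH _ hm, tw_map_zero, add_zero] at e
    exact e.symm
  have hsur : Function.Surjective (rs Q) :=
    AlgEquiv.restrictNormalHom_surjective (SeparableClosure K)
  choose p hp using hsur
  let ψ : Gal(Q/K) → N := fun g => z' (p g)
  have hψ : ∀ σ, ψ (rs Q σ) = z' σ := fun σ => hfib _ _ (hp _)
  have hcont : Continuous (rs Q) := InfiniteGalois.restrictNormalHom_continuous Q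
  have hquo : Topology.IsQuotientMap (rs Q) :=
    hcont.isClosedMap.isQuotientMap hcont (fun g => ⟨p g, hp g⟩)
  refine ⟨ψ, ?_, ?_, ⟨k, fun g => hT _⟩, fun σ => by rw [hψ, hz']⟩
  · intro s
    rw [← hquo.isOpen_preimage, ← Set.preimage_comp]
    have e : ψ ∘ rs Q = z' := funext hψ
    rw [e]
    exact hlc s
  · intro σ τ
    rw [← hp σ, ← hp τ, ← map_mul, hψ, hψ, hψ]
    exact hco _ _

end Pool.Agent.MP72S.S
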