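import Pool.Agent.Lib.MP_72e2e6_nt.Sm.S.Spec

/-!
# MP_72e2e6_nt, `Sm`, block S, Kum: the square root of `d₀ ∏ π (x i)` (helper82)
-/

set_option autoImplicit false

namespace Pool.Agent.MP72S.S

open Finset

open Pool.Agent.MP72S.C

private lemma kum_mul {R : Type*} [CommRing R] (u v gu gv : R) (c d : ZMod 2)
    (hu : gu = if c = 0 then u else -u) (hv : gv = if d = 0 then v else -v) :
    gu * gv = if c + d = 0 then u * v else -(u * v) := by
  have key : ∀ x : ZMod 2, x = 0 ∨ x = 1 := by decide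
  subst hu hv
  rcases key c with rfl | rfl <;> rcases key d with rfl | rfl
  · rw [if_pos rfl, if_pos rfl, if_pos (by decide)]
  · rw [if_pos rfl, if_neg (by decide), if_neg (by decide)]
    ring
  · rw [if_neg (by decide), if_pos rfl, if_neg (by decide)]
    ring
  · rw [if_neg (by decide), if_neg (by decide), if_pos (by decide)]
    ring

theorem tKum : S_Kum := by
  intro K _ a Q P ι _ D av π d₀ hG x hx
  classical
  have key : ∀ s : Finset ι, ∃ δ : Q, δ ^ 2 = algebraMap K Q (∏ i ∈ s, π (x i)) ∧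
      ∀ g : Gal(Q/K), g δ = if ∑ i ∈ s, D.ch (x i) g = 0 then δ else -δ := by
    intro s
    induction s using Finset.induction_on with
    | empty =>
      refine ⟨1, ?_, fun g => ?_⟩
      · rw [Finset.prod_empty, map_one, one_pow]
      · rw [Finset.sum_empty, if_pos rfl, map_one]
    | insert i s hi ih =>
      obtain ⟨δ, h1, h2⟩ := ih
      obtain ⟨ε, h3, h4⟩ := hG.chv (x i) (hx i)
      refine ⟨ε * δ, ?_, fun g => ?_⟩
      · rw [Finset.prod_insert hi, map_mul, mul_pow, h1, h3]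
      · rw [Finset.sum_insert hi, map_mul]
        exact kum_mul _ _ _ _ _ _ (h4 g) (h2 g)
  refine ⟨mul_ne_zero hG.d0 (Finset.prod_ne_zero_iff.2 fun i _ => hG.pi0 _ (hx i)), ?_⟩
  obtain ⟨δ, h1, h2⟩ := key Finset.univ
  obtain ⟨ε, h3, h4⟩ := hG.ch0
  refine ⟨ε * δ, ?_, fun g => ?_⟩
  · rw [map_mul, mul_pow, h1, h3]
  · rw [map_mul]
    exact kum_mul _ _ _ _ _ _ (h4 g) (h2 g)

end Pool.Agent.MP72S.S
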