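import Pool.Agent.Lib.MP_72e2e6_nt.Sm.S.Spec

/-!
# MP_72e2e6_nt, `Sm/S/Ldc`: the local data of block D
-/

namespace Pool.Agent.MP72S.S

open Polynomial

theorem tLdc (hLf : D.S_Lf) (hLc : D.S_Lc) (hLn : D.S_Ln) (hRq : D.S_Rq) (hNrc : S_Nrc) :
    S_Ldc := by
  intro F _ _ h2F w A hA
  obtain ⟨⟨R, hLF⟩, _⟩ := hLf F w A.av hA.pl
  obtain ⟨hn, _, hult, hval, _⟩ := hLc F A.av _ _ R hLF
  obtain ⟨hnn, hz, hmul, hadd, hext, hgal, _, _⟩ := hLn F A.av _ _ R hLF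
  obtain ⟨hR, _⟩ := hRq F h2F w A hA
  have hN := hNrc F A.av _ _ R hLF
  have h2 : ‖(2 : A.av.Completion)‖ = 1 := by
    have h3 := hn (RatFunc.C (2 : F))
    rw [hLF.one 2 h2F, map_ofNat, map_ofNat] at h3
    exact h3
  let n : AbsoluteValue (MP72W.Kvs A.av) ℝ :=
    { toFun := MP72W.nm A.av
      map_mul' := hmul
      nonneg' := hnn
      eq_zero' := hz
      add_le' := fun x y => (hadd x y).trans
        (max_le_add_of_nonneg (hnn x) (hnn y)) }
  have hsub : ∀ x y : MP72W.Kvs A.av,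
      MP72W.nm A.av (x - y) ≤ max (MP72W.nm A.av x) (MP72W.nm A.av y) := by
    intro x y
    have h3 : MP72W.nm A.av (-y) = MP72W.nm A.av y := n.map_neg y
    rw [sub_eq_add_neg, ← h3]
    exact hadd x (-y)
  refine ⟨hult, h2, hn, ?_, n, A.emb, A.t, A.f, hadd, ?_, hext, ?_, ?_, ?_⟩
  · intro x hx
    obtain ⟨k, hk⟩ := hval x hx
    exact ⟨MP72W.unP w ^ k, by rw [hk, map_zpow₀]⟩
  · have h3 := hext 2
    rw [map_ofNat, h2] at h3
    exact h3
  · intro x hx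
    obtain ⟨c, hc, hxc⟩ := hN x hx
    have h3 : A.t x - x = A.t (x - c) - (x - c) := by
      rw [map_sub, hA.tg c hc]
      ring
    show MP72W.nm A.av (A.t x - x) < 1
    rw [h3]
    exact lt_of_le_of_lt (hsub _ _) (max_lt (by rw [hgal]; exact hxc) hxc)
  · intro x
    exact (hR A.t x).symm
  · intro x
    exact (hR A.f x).symm

end Pool.Agent.MP72S.S
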