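import Pool.Agent.Lib.MP_72e2e6_nt.Sm.S.Spec

/-!
# MP_72e2e6_nt, `Sm`, block S, Main: the theorem of block S (helper72)
-/

set_option autoImplicit false

namespace Pool.Agent.MP72S.S

open Finset WeierstrassCurve Polynomial

open Pool.Agent.MP72W (pmap IsCoc LocTriv InSha ShaTwoFin XY px py)

open Pool.Agent.MP72S.C

open scoped Classical

theorem tMain (h1 : S_Kum) (h2 : S_Twt) (h3 : S_Typ) (h4 : S_Sfn) (h5 : S_Hdb) (h6 : S_Hgt) :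
    S_Main := by
  intro F _ _ a Q P ι _ _ D av π d₀ hG hA x hx hT hGd L hL hD
  have : Normal (RatFunc F) Q := hG.nrm
  have hxi : ∀ i, x i ≠ D.inf := fun i h => hx.nS i (h ▸ hA.infS)
  obtain ⟨hdd, δ, hδ, hδg⟩ := h1 (RatFunc F) a Q P ι D av π d₀ hG x hxi
  obtain ⟨θ, hθ⟩ := h2 (RatFunc F) a Q hG.hyp hG.qc _ hdd δ (D.chi x) hδ hδg
  have hty := h3 (RatFunc F) a Q P ι D av π d₀ hG x _ θ hdd hθ hT hGd
  have hb : Hyp (fun i => (d₀ * ∏ k, π (x k)) * a i) (RatFunc F) :=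
    ⟨hG.hyp.1, fun i j h => hG.hyp.2 (mul_left_cancel₀ hdd h)⟩
  obtain ⟨hSha, hdiv⟩ :=
    h4 (RatFunc F) (fun i => (d₀ * ∏ k, π (x k)) * a i) Q (NN a Q) P ι D x θ hb hθ hA hx hty L hL hD
  refine ⟨?_, hSha⟩
  obtain ⟨δ', _, ⟨B, hB⟩, hfin, htor⟩ := h5 F (fun i => (d₀ * ∏ k, π (x k)) * a i) hb
  have hf : Finite (PA (fun i => (d₀ * ∏ k, π (x k)) * a i) (RatFunc F)) :=
    h6 _ _ B hB hfin htor hdiv
  have e : ((Wa fun i => (d₀ * ∏ k, π (x k)) * a i)⁄(RatFunc F)) =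
    Wa fun i => (d₀ * ∏ k, π (x k)) * a i := WeierstrassCurve.map_id _
  rwa [PA, e] at hf

end Pool.Agent.MP72S.S
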