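import Pool.Agent.Lib.MP_72e2e6_nt.Sm.S.Spec

/-!
# MP_72e2e6_nt, `Sm/S/Nrc`: integral elements are near to constants
-/

namespace Pool.Agent.MP72S.S

open Polynomial

/-- If the product of the `x - b` has norm less than one, then so has one of them. -/
private theorem prod_lt {L A : Type} [Field L] (n : L → ℝ) (hn0 : ∀ x, 0 ≤ n x) (hn1 : n 1 = 1)
    (hm : ∀ x y, n (x * y) = n x * n y) (x : L) (j : A → L) (s : Multiset A)
    (h : n (s.map fun b => x - j b).prod < 1) : ∃ b ∈ s, n (x - j b) < 1 := by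
  induction s using Multiset.induction_on with
  | empty =>
    rw [Multiset.map_zero, Multiset.prod_zero, hn1] at h
    exact absurd h (lt_irrefl _)
  | cons a s ih =>
    by_cases ha : n (x - j a) < 1
    · exact ⟨a, Multiset.mem_cons_self a s, ha⟩
    · rw [Multiset.map_cons, Multiset.prod_cons, hm] at h
      obtain ⟨b, hb, hb'⟩ := ih (lt_of_le_of_lt
        (le_mul_of_one_le_left (hn0 _) (not_lt.mp ha)) h)
      exact ⟨b, Multiset.mem_cons_of_mem hb, hb'⟩

/-- Ultrametric sums. -/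
private theorem sum_lt {L A : Type} [Field L] (n : L → ℝ) (hn : n 0 = 0)
    (ha : ∀ x y, n (x + y) ≤ max (n x) (n y)) (s : Finset A) (f : A → L)
    (h : ∀ i ∈ s, n (f i) < 1) : n (∑ i ∈ s, f i) < 1 := by
  classical
  induction s using Finset.induction_on with
  | empty =>
    rw [Finset.sum_empty, hn]
    exact one_pos
  | insert a s has ih =>
    rw [Finset.sum_insert has]
    exact lt_of_le_of_lt (ha _ _) (max_lt (h a (Finset.mem_insert_self a s))
      (ih fun i hi => h i (Finset.mem_insert_of_mem hi)))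

theorem tNrc (hLc : D.S_Lc) (hLn : D.S_Ln) (hFg : D.S_Fg) (hQG : D.S_QG) (hKk : D.S_Kk) :
    S_Nrc := by
  intro F _ _ v d ϖ R hLF x hx
  obtain ⟨hn, _, hult, _, _, _, hlc⟩ := hLc F v d ϖ R hLF
  obtain ⟨hnn, hz, hmul, hadd, hext, _, _, _⟩ := hLn F v d ϖ R hLF
  obtain ⟨_, hFg2, _⟩ := hFg F
  obtain ⟨_, hQG2, _⟩ := hQG F
  obtain ⟨hac, hK2, hK3, _⟩ := hKk F
  have hone : MP72W.nm v 1 = 1 := by
    have h1 := hext 1
    rw [map_one, norm_one] at h1
    exact h1
  have hzero : MP72W.nm v 0 = 0 := (hz 0).mpr rfl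
  have hpow : ∀ (y : MP72W.Kvs v) (n : ℕ), MP72W.nm v (y ^ n) = MP72W.nm v y ^ n := by
    intro y n
    induction n with
    | zero => rw [pow_zero, pow_zero, hone]
    | succ n ih => rw [pow_succ, pow_succ, hmul, ih]
  -- the minimal polynomial
  set f : v.Completion[X] := minpoly v.Completion x with hf
  have hint : IsIntegral v.Completion x := Algebra.IsIntegral.isIntegral x
  have hfm : f.Monic := minpoly.monic hint
  set m : ℕ := f.natDegree with hm
  have hfc : ∀ i, ‖f.coeff i‖ ≤ 1 := (spectralValue_le_one_iff hfm).mp hx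
  choose c hc1 hc2 using fun i => hlc (f.coeff i) (hfc i)
  -- the embedding of the constants
  let ι : MP72W.Kgs F →ₐ[RatFunc F] MP72W.Kvs v := IsSepClosed.lift
  let j : D.kF F →+* MP72W.Kvs v :=
    ((ι.comp (D.Qf F).val).toRingHom).comp (algebraMap (D.kF F) (D.Qf F))
  have hj : ∀ i, ∃ b : D.kF F, j b = algebraMap v.Completion (MP72W.Kvs v) (c i) := by
    intro i
    have h1 : algebraMap v.Completion (MP72W.Kvs v) (c i) ∈
        MP72W.Cst (Nat.card F) (MP72W.Kvs v) := by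
      refine ⟨d, hLF.dpos, ?_⟩
      rw [← map_pow, hc1]
    obtain ⟨c', hc', he⟩ := (hFg2 (MP72W.Kvs v) ι).2 _ h1
    have h2 : (⟨c', hQG2 c' hc'⟩ : D.Qf F) ∈ D.kF F := (hK2 _).mpr hc'
    exact ⟨⟨_, h2⟩, he⟩
  choose b hb using hj
  -- the two monic polynomials
  set g : (D.kF F)[X] := X ^ m + ∑ i : Fin m, C (b i) * X ^ (i : ℕ) with hg
  have hgm : g.Monic := monic_X_pow_add (degree_sum_fin_lt _)
  have hgs : g.Splits := IsAlgClosed.splits g
  have hprod : g.eval₂ j x = (g.roots.map fun b => x - j b).prod := by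
    conv_lhs => rw [hgs.eq_prod_roots_of_monic hgm]
    rw [eval₂_multiset_prod, Multiset.map_map]
    congr 1
    refine Multiset.map_congr rfl fun y _ => ?_
    rw [Function.comp_apply, eval₂_sub, eval₂_X, eval₂_C]
  have hsum : g.eval₂ j x = ∑ i : Fin m,
      algebraMap v.Completion (MP72W.Kvs v) (c i - f.coeff i) * x ^ (i : ℕ) := by
    have h1 : aeval x f = 0 := minpoly.aeval _ _
    rw [aeval_eq_sum_range, Finset.sum_range_succ, ← hm, hfm.coeff_natDegree, one_smul,
      Finset.sum_range] at h1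
    rw [hg, eval₂_add, eval₂_finsetSum, eval₂_pow, eval₂_X]
    have h2 : x ^ m = -∑ i : Fin m, f.coeff i • x ^ (i : ℕ) := by
      rw [eq_neg_iff_add_eq_zero, add_comm]
      exact h1
    rw [h2, neg_add_eq_sub, ← Finset.sum_sub_distrib]
    refine Finset.sum_congr rfl fun i _ => ?_
    rw [eval₂_mul, eval₂_C, eval₂_pow, eval₂_X, hb, map_sub, sub_mul, Algebra.smul_def]
  have hlt : MP72W.nm v (g.eval₂ j x) < 1 := by
    rw [hsum]
    refine sum_lt (MP72W.nm v) hzero hadd _ _ fun i _ => ?_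
    rw [hmul, hpow, hext, norm_sub_rev]
    exact mul_lt_one_of_nonneg_of_lt_one_left (norm_nonneg _) (hc2 _)
      (pow_le_one₀ (hnn _) hx)
  rw [hprod] at hlt
  obtain ⟨y, _, hy⟩ := prod_lt (MP72W.nm v) hnn hone hmul x j _ hlt
  refine ⟨j y, ?_, hy⟩
  obtain ⟨n, hn0, hyn⟩ := hK3 y
  exact ⟨n, hn0, by rw [← map_pow, hyn]⟩

end Pool.Agent.MP72S.S
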