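import Pool.Agent.Lib.MP_72e2e6_nt.Sm.S.Spec

/-!
# MP_72e2e6_nt, `Sm`, block S, Plt: the conditions `Tame` and `Good` for `F(t)` (helper72)
-/

set_option autoImplicit false

namespace Pool.Agent.MP72S.S

open Finset WeierstrassCurve Polynomial

open Pool.Agent.MP72W (pmap IsCoc LocTriv InSha ShaTwoFin XY px py)

open Pool.Agent.MP72S.C

private theorem plt_three : ∀ k i j u : Fin 3, k ≠ i → k ≠ j → i ≠ j → u = i ∨ u = j ∨ u = k := by
  decide

private theorem plt_tame {K : Type} [Field K] (av : AbsoluteValue K ℝ) (e : Fin 3 → K) (M : ℝ)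
    (hM : 0 ≤ M) (hsq : ∀ c : K, av c ^ 2 ≠ M) (k i j : Fin 3) (hki : k ≠ i) (hkj : k ≠ j)
    (hij : i ≠ j) (h1 : av (e k - e i) = M) (h2 : av (e k - e j) = M) (h3 : av (e i - e j) ≤ M) :
    Tame av e := by
  have h1' : av (e i - e k) = M := by rw [av.map_sub, h1]
  have h2' : av (e j - e k) = M := by rw [av.map_sub, h2]
  have h3' : av (e j - e i) ≤ M := by rw [av.map_sub]; exact h3
  have h0 : ∀ u, av (e u - e u) ≤ M := fun u => by rw [sub_self, map_zero]; exact hM
  refine ⟨M, hsq, fun u v => ?_, fun u => ?_⟩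
  · rcases plt_three k i j u hki hkj hij with rfl | rfl | rfl <;>
      rcases plt_three _ _ _ v hki hkj hij with rfl | rfl | rfl
    · exact h0 _
    · exact h3
    · exact h1'.le
    · exact h3'
    · exact h0 _
    · exact h2'.le
    · exact h1.le
    · exact h2.le
    · exact h0 _
  · rcases plt_three k i j u hki hkj hij with rfl | rfl | rfl
    · exact ⟨_, h1'⟩
    · exact ⟨_, h2'⟩
    · exact ⟨_, h1⟩

private theorem plt_min {F : Type} [Field F] {p a b : F[X]} (hp : Irreducible p)
    (hab : a + b ≠ 0) : min (multiplicity p a) (multiplicity p b) ≤ multiplicity p (a + b) := by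
  have hf : FiniteMultiplicity p (a + b) := FiniteMultiplicity.of_not_isUnit hp.not_isUnit hab
  rw [← hf.pow_dvd_iff_le_multiplicity]
  exact dvd_add ((pow_dvd_pow p (min_le_left _ _)).trans (pow_multiplicity_dvd p a))
    ((pow_dvd_pow p (min_le_right _ _)).trans (pow_multiplicity_dvd p b))

/-- `f = g + h` in the form used for the three differences. -/
private theorem plt_min' {F : Type} [Field F] {p : F[X]} (hp : Irreducible p) {a : Fin 3 → F[X]}
    (ha : Function.Injective a) (i k j : Fin 3) (hij : i ≠ j) :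
    min (multiplicity p (a i - a k)) (multiplicity p (a k - a j)) ≤ multiplicity p (a i - a j) := by
  have h : (a i - a k) + (a k - a j) = a i - a j := by ring
  have h0 : (a i - a k) + (a k - a j) ≠ 0 := by rw [h, sub_ne_zero]; exact fun e => hij (ha e)
  have := plt_min hp h0
  rwa [h] at this

private theorem plt_symm {F : Type} [Field F] (p a b : F[X]) :
    multiplicity p (a - b) = multiplicity p (b - a) := by
  rw [← multiplicity_neg, neg_sub]

/-- The minimum of three numbers is attained twice. -/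
private theorem plt_nat (A B C : ℕ) (h1 : min B C ≤ A) (h2 : min A C ≤ B) (h3 : min A B ≤ C) :
    (A = B ∧ A ≤ C) ∨ (A = C ∧ A ≤ B) ∨ (B = C ∧ B ≤ A) := by
  omega

private theorem plt_nat' (A B C : ℕ) (h1 : A ≤ max B C) (h2 : B ≤ max A C) (h3 : C ≤ max A B) :
    (A = B ∧ C ≤ A) ∨ (A = C ∧ B ≤ A) ∨ (B = C ∧ A ≤ B) := by
  omega

private theorem plt_sub {F : Type} [Field F] (D : F[X]) (a : Fin 3 → F[X]) (i j : Fin 3) :
    algebraMap F[X] (RatFunc F) D * algebraMap F[X] (RatFunc F) (a i) -
      algebraMap F[X] (RatFunc F) D * algebraMap F[X] (RatFunc F) (a j) =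
    algebraMap F[X] (RatFunc F) (D * (a i - a j)) := by
  rw [map_mul, map_sub, mul_sub]

/-- The values at a finite place are not squares. -/
private theorem plt_sq {F : Type} [Field F] {p : F[X]} {v : AbsoluteValue (RatFunc F) ℝ}
    (hv : MP72W.IsPl (some p) v) {μ : ℕ} (hμ : Odd μ) (c : RatFunc F) :
    v c ^ 2 ≠ (1 / 2 : ℝ) ^ μ := by
  obtain ⟨_, _, hp⟩ := hv
  intro h
  have h2 : (0 : ℝ) < 1 / 2 := by norm_num
  rcases eq_or_ne c 0 with rfl | hc
  · rw [map_zero, zero_pow two_ne_zero] at h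
    exact (pow_pos h2 μ).ne h
  · have hd : c.denom ≠ 0 := RatFunc.denom_ne_zero c
    have hn : c.num ≠ 0 := RatFunc.num_ne_zero hc
    have e : c * algebraMap F[X] (RatFunc F) c.denom = algebraMap F[X] (RatFunc F) c.num := by
      exact ((div_eq_iff (RatFunc.algebraMap_ne_zero hd)).1 (RatFunc.num_div_denom c)).symm
    have e1 := congrArg v e
    rw [map_mul, hp _ hd, hp _ hn] at e1
    have e2 : (1 / 2 : ℝ) ^ (μ + 2 * multiplicity p c.denom) =
        (1 / 2) ^ (2 * multiplicity p c.num) := by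
      rw [pow_add, ← h, pow_mul', pow_mul', ← mul_pow, e1]
    have e3 := pow_right_injective₀ h2 (by norm_num) e2
    obtain ⟨r, hr⟩ := hμ
    omega

private theorem plt_sq' {F : Type} [Field F] {v : AbsoluteValue (RatFunc F) ℝ}
    (hv : MP72W.IsPl (none : Option F[X]) v) {μ : ℕ} (hμ : Odd μ) (c : RatFunc F) :
    v c ^ 2 ≠ (2 : ℝ) ^ μ := by
  intro h
  rcases eq_or_ne c 0 with rfl | hc
  · rw [map_zero, zero_pow two_ne_zero] at h
    exact (pow_pos two_pos μ).ne h
  · have h1 : v c = 2 ^ c.intDegree := hv c hc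
    rw [h1, ← zpow_natCast, ← zpow_natCast, ← zpow_mul] at h
    have e3 := zpow_right_injective₀ (two_pos) (by norm_num) h
    obtain ⟨r, hr⟩ := hμ
    push_cast at e3
    omega

/-- The general form for the two kinds of places: `w` decreasing or increasing. -/
private theorem plt_case {F : Type} [Field F] (v : AbsoluteValue (RatFunc F) ℝ)
    (e : Fin 3 → RatFunc F) (n : Fin 3 → Fin 3 → ℕ) (w : ℕ → ℝ) (hw : ∀ m, 0 ≤ w m)
    (hsq : ∀ m, Odd m → ∀ c, v c ^ 2 ≠ w m)
    (hv : ∀ i j, i ≠ j → v (e i - e j) = w (n i j))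
    (h : (n 0 1 = n 0 2 ∧ Odd (n 0 1) ∧ w (n 1 2) ≤ w (n 0 1)) ∨
      (n 0 1 = n 1 2 ∧ Odd (n 0 1) ∧ w (n 0 2) ≤ w (n 0 1)) ∨
      (n 0 2 = n 1 2 ∧ Odd (n 0 2) ∧ w (n 0 1) ≤ w (n 0 2))) : Tame v e := by
  rcases h with ⟨h1, h2, h3⟩ | ⟨h1, h2, h3⟩ | ⟨h1, h2, h3⟩
  · refine plt_tame v e (w (n 0 1)) (hw _) (hsq _ h2) 0 1 2 (by decide) (by decide) (by decide)
      (hv 0 1 (by decide)) ?_ ?_
    · rw [hv 0 2 (by decide), h1]
    · rw [hv 1 2 (by decide)]
      exact h3
  · refine plt_tame v e (w (n 0 1)) (hw _) (hsq _ h2) 1 0 2 (by decide) (by decide) (by decide)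
      ?_ ?_ ?_
    · rw [v.map_sub, hv 0 1 (by decide)]
    · rw [hv 1 2 (by decide), h1]
    · rw [hv 0 2 (by decide)]
      exact h3
  · refine plt_tame v e (w (n 0 2)) (hw _) (hsq _ h2) 2 0 1 (by decide) (by decide) (by decide)
      ?_ ?_ ?_
    · rw [v.map_sub, hv 0 2 (by decide)]
    · rw [v.map_sub, hv 1 2 (by decide), h1]
    · rw [hv 0 1 (by decide)]
      exact h3

private theorem plt_fin (P : Fin 3 → Fin 3 → Prop) (hs : ∀ i j, P i j → P j i)
    (h : ∀ i, ∃ j, j ≠ i ∧ P i j) : (P 0 1 ∨ P 0 2) ∧ (P 0 1 ∨ P 1 2) ∧ (P 0 2 ∨ P 1 2) := by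
  refine ⟨?_, ?_, ?_⟩
  · obtain ⟨j, hj, hP⟩ := h 0
    fin_cases j
    · exact absurd rfl hj
    · exact Or.inl hP
    · exact Or.inr hP
  · obtain ⟨j, hj, hP⟩ := h 1
    fin_cases j
    · exact Or.inl (hs _ _ hP)
    · exact absurd rfl hj
    · exact Or.inr hP
  · obtain ⟨j, hj, hP⟩ := h 2
    fin_cases j
    · exact Or.inl (hs _ _ hP)
    · exact Or.inr (hs _ _ hP)
    · exact absurd rfl hj

theorem tPlt : S_Plt := by
  intro F _ a D ha hD
  refine ⟨fun p v hv hodd => ?_, fun v hv hodd => ?_, fun p v hv hpD hpa => ?_⟩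
  · have hp : Irreducible p := hv.2.1
    have hpp : Prime p := hp.prime
    have hval : ∀ f : F[X], f ≠ 0 →
      v (algebraMap F[X] (RatFunc F) f) = (1 / 2) ^ multiplicity p f := hv.2.2
    obtain ⟨o1, o2, o3⟩ := plt_fin
      (fun i j => Odd (multiplicity p D + multiplicity p (a i - a j)))
      (fun i j h => by rw [plt_symm]; exact h) hodd
    refine plt_case v _ (fun i j => multiplicity p D + multiplicity p (a i - a j))
      (fun m => (1 / 2) ^ m) (fun m => by positivity) (fun m hm c => plt_sq hv hm c)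
      (fun i j hij => ?_) ?_
    · have hs : a i - a j ≠ 0 := sub_ne_zero.2 fun e => hij (ha e)
      have h0 : D * (a i - a j) ≠ 0 := mul_ne_zero hD hs
      rw [plt_sub, hval _ h0,
        multiplicity_mul hpp (FiniteMultiplicity.of_not_isUnit hp.not_isUnit h0)]
    · have k1 := plt_min' hp ha 0 2 1 (by decide)
      have k2 := plt_min' hp ha 0 1 2 (by decide)
      have k3 := plt_min' hp ha 1 0 2 (by decide)
      rw [plt_symm p (a 2) (a 1)] at k1
      rw [plt_symm p (a 1) (a 0)] at k3
      have hmono : ∀ s t : ℕ, s ≤ t → (1 / 2 : ℝ) ^ t ≤ (1 / 2) ^ s := fun s t h =>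
        pow_le_pow_of_le_one (by norm_num) (by norm_num) h
      rcases plt_nat _ _ _ k1 k2 k3 with ⟨e1, e2⟩ | ⟨e1, e2⟩ | ⟨e1, e2⟩
      · refine Or.inl ⟨by rw [e1], ?_, hmono _ _ (by omega)⟩
        rcases o1 with o | o
        · exact o
        · rw [e1]; exact o
      · refine Or.inr (Or.inl ⟨by rw [e1], ?_, hmono _ _ (by omega)⟩)
        rcases o2 with o | o
        · exact o
        · rw [e1]; exact o
      · refine Or.inr (Or.inr ⟨by rw [e1], ?_, hmono _ _ (by omega)⟩)
        rcases o3 with o | o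
        · exact o
        · rw [e1]; exact o
  · have hval : ∀ f : F[X], f ≠ 0 →
        v (algebraMap F[X] (RatFunc F) f) = 2 ^ f.natDegree := by
      intro f hf
      have h1 : v (algebraMap F[X] (RatFunc F) f) =
        2 ^ (algebraMap F[X] (RatFunc F) f).intDegree := hv _ (RatFunc.algebraMap_ne_zero hf)
      rw [h1, RatFunc.intDegree_polynomial, zpow_natCast]
    have hsym : ∀ i j, (a i - a j).natDegree = (a j - a i).natDegree := fun i j => by
      rw [← natDegree_neg, neg_sub]
    have hle : ∀ i k j, (a i - a j).natDegree ≤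
        max (a i - a k).natDegree (a k - a j).natDegree := fun i k j => by
      have h : (a i - a k) + (a k - a j) = a i - a j := by ring
      rw [← h]
      exact natDegree_add_le _ _
    obtain ⟨i₀, -, hi₀⟩ := Finset.exists_mem_eq_sup (univ : Finset (Fin 3)) univ_nonempty
      (fun i : Fin 3 => univ.sup fun j : Fin 3 => (a i - a j).natDegree)
    obtain ⟨j₀, -, hj₀⟩ := Finset.exists_mem_eq_sup (univ : Finset (Fin 3)) univ_nonempty
      (fun j : Fin 3 => (a i₀ - a j).natDegree)
    have hub : ∀ i j, (a i - a j).natDegree ≤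
        univ.sup fun i : Fin 3 => univ.sup fun j : Fin 3 => (a i - a j).natDegree := fun i j =>
      (Finset.le_sup (f := fun j : Fin 3 => (a i - a j).natDegree) (mem_univ j)).trans
        (Finset.le_sup (f := fun i : Fin 3 => univ.sup fun j : Fin 3 => (a i - a j).natDegree)
          (mem_univ i))
    rw [hi₀, hj₀] at hodd
    have hub' : ∀ i j, (a i - a j).natDegree ≤ (a i₀ - a j₀).natDegree := fun i j => by
      have := hub i j
      rwa [hi₀, hj₀] at this
    generalize hs : (a i₀ - a j₀).natDegree = s at hodd hub'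
    have hcases : s = 0 ∨ s = (a 0 - a 1).natDegree ∨ s = (a 0 - a 2).natDegree ∨
        s = (a 1 - a 2).natDegree := by
      rw [← hs]
      fin_cases i₀ <;> fin_cases j₀
      · left; simp
      · right; left; rfl
      · right; right; left; rfl
      · right; left; exact hsym _ _
      · left; simp
      · right; right; right; rfl
      · right; right; left; exact hsym _ _
      · right; right; right; exact hsym _ _
      · left; simp
    refine plt_case v _ (fun i j => D.natDegree + (a i - a j).natDegree)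
      (fun m => 2 ^ m) (fun m => by positivity) (fun m hm c => plt_sq' hv hm c)
      (fun i j hij => ?_) ?_
    · have hs : a i - a j ≠ 0 := sub_ne_zero.2 fun e => hij (ha e)
      rw [plt_sub, hval _ (mul_ne_zero hD hs), natDegree_mul hD hs]
    · have k1 := hle 0 2 1
      have k2 := hle 0 1 2
      have k3 := hle 1 0 2
      rw [hsym 2 1] at k1
      rw [hsym 1 0] at k3
      have b1 := hub' 0 1
      have b2 := hub' 0 2
      have b3 := hub' 1 2
      have hmono : ∀ s t : ℕ, s ≤ t → (2 : ℝ) ^ s ≤ 2 ^ t := fun s t h =>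
        pow_le_pow_right₀ one_le_two h
      rcases plt_nat' _ _ _ k1 k2 k3 with ⟨e1, e2⟩ | ⟨e1, e2⟩ | ⟨e1, e2⟩
      · refine Or.inl ⟨by rw [e1], ?_, hmono _ _ (by omega)⟩
        have : (a 0 - a 1).natDegree = s := by omega
        rw [this]
        exact hodd
      · refine Or.inr (Or.inl ⟨by rw [e1], ?_, hmono _ _ (by omega)⟩)
        have : (a 0 - a 1).natDegree = s := by omega
        rw [this]
        exact hodd
      · refine Or.inr (Or.inr ⟨by rw [e1], ?_, hmono _ _ (by omega)⟩)
        have : (a 0 - a 2).natDegree = s := by omega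
        rw [this]
        exact hodd
  · have hp : Irreducible p := hv.2.1
    have hpp : Prime p := hp.prime
    have hval : ∀ f : F[X], f ≠ 0 →
      v (algebraMap F[X] (RatFunc F) f) = (1 / 2) ^ multiplicity p f := hv.2.2
    refine ⟨fun i => ?_, fun i j hij => ?_⟩
    · simp only
      rw [← map_mul]
      rcases eq_or_ne (D * a i) 0 with h | h
      · rw [h, map_zero, map_zero]
        exact zero_le_one
      · rw [hval _ h]
        exact pow_le_one₀ (by norm_num) (by norm_num)
    · have hs : a i - a j ≠ 0 := sub_ne_zero.2 fun e => hij (ha e)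
      rw [plt_sub, hval _ (mul_ne_zero hD hs), multiplicity_eq_zero.2, pow_zero]
      intro h
      rcases hpp.dvd_or_dvd h with h | h
      · exact hpD h
      · exact hpa i j hij h

end Pool.Agent.MP72S.S
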