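import Pool.Agent.Lib.MP_72e2e6_nt.Sm.S.Spec

/-!
# MP_72e2e6_nt, `Sm`, block S: Sfn, finiteness of `Sha[2^∞]`, divisibility of the rational points
-/

namespace Pool.Agent.MP72S.S

open Finset WeierstrassCurve Polynomial

open Pool.Agent.MP72W (pmap IsCoc LocTriv InSha ShaTwoFin XY px py)

open Pool.Agent.MP72S.C

open scoped Classical

section

variable {K : Type} [Field K] {W : WeierstrassCurve K}
    {Q : IntermediateField K (SeparableClosure K)} [Normal K Q] {N : Type} [AddCommGroup N]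
    [DistribMulAction Gal(Q/K) N] {χ : Gal(Q/K) → ZMod 2}
    {θ : N → (W⁄(SeparableClosure K)).toAffine.Point}

private theorem tht_zero (h : Tht W Q χ θ) : θ 0 = 0 := by
  have h1 := h.add 0 0
  rw [add_zero] at h1
  exact left_eq_add.mp h1

private theorem tht_sub (h : Tht W Q χ θ) (a b : N) : θ (a - b) = θ a - θ b := by
  have h1 := h.add (a - b) b
  rw [sub_add_cancel] at h1
  rw [h1, add_sub_cancel_right]

private theorem tht_nsmul (h : Tht W Q χ θ) (n : ℕ) (a : N) : θ (n • a) = n • θ a := by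
  induction n with
  | zero => rw [zero_smul, zero_smul, tht_zero h]
  | succ n ih => rw [succ_nsmul, succ_nsmul, h.add, ih]

end

/-- The separable closure is closed under square roots. -/
private theorem qc_sep (K : Type) [Field K] (two : (2 : K) ≠ 0) : QC (SeparableClosure K) := by
  intro x
  by_cases hx : x = 0
  · exact ⟨0, by rw [hx]; ring⟩
  have two' : (2 : SeparableClosure K) ≠ 0 := by
    have := (algebraMap K (SeparableClosure K)).injective.ne two
    rwa [map_ofNat, map_zero] at this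
  have : NeZero ((2 : ℕ) : SeparableClosure K) := ⟨by exact_mod_cast two'⟩
  obtain ⟨z, hz⟩ := IsSepClosed.exists_pow_nat_eq x 2
  exact ⟨z, hz⟩

/-- Fixed points are rational. -/
private theorem fix_rat (K : Type) [Field K] (W : WeierstrassCurve K)
    (P : (W⁄(SeparableClosure K)).toAffine.Point)
    (h : ∀ σ : Gal(SeparableClosure K/K),
      pmap W (σ : SeparableClosure K →ₐ[K] SeparableClosure K) P = P) :
    ∃ P₀ : (W⁄K).toAffine.Point, pmap W (Algebra.ofId K (SeparableClosure K)) P₀ = P := by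
  cases P with
  | zero => exact ⟨0, rfl⟩
  | some x y hxy =>
    have hf : ∀ σ : Gal(SeparableClosure K/K), σ x = x ∧ σ y = y := by
      intro σ
      have h1 := h σ
      obtain ⟨h', e⟩ := pm_some W (σ : SeparableClosure K →ₐ[K] SeparableClosure K) hxy
      rw [e, Affine.Point.some.injEq] at h1
      exact h1
    have hx : x ∈ Set.range (algebraMap K (SeparableClosure K)) :=
      (InfiniteGalois.mem_range_algebraMap_iff_fixed x).mpr fun σ => (hf σ).1
    have hy : y ∈ Set.range (algebraMap K (SeparableClosure K)) :=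
      (InfiniteGalois.mem_range_algebraMap_iff_fixed y).mpr fun σ => (hf σ).2
    obtain ⟨x₀, rfl⟩ := hx
    obtain ⟨y₀, rfl⟩ := hy
    have h0 : (W⁄K).toAffine.Nonsingular x₀ y₀ :=
      (W.toAffine.baseChange_nonsingular (S := K)
        (Algebra.ofId K (SeparableClosure K)).injective x₀ y₀).mp hxy
    refine ⟨Affine.Point.some x₀ y₀ h0, ?_⟩
    obtain ⟨h', e⟩ := pm_some W (Algebra.ofId K (SeparableClosure K)) h0
    rw [e, Affine.Point.some.injEq]
    exact ⟨rfl, rfl⟩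

private theorem two_pow_div {A : Type} [AddCommGroup A] (h : ∀ P : A, ∃ P' : A, 2 • P' = P) (n : ℕ)
    (P : A) : ∃ P' : A, 2 ^ n • P' = P := by
  induction n generalizing P with
  | zero => exact ⟨P, by rw [pow_zero, one_smul]⟩
  | succ n ih =>
    obtain ⟨P₁, h1⟩ := h P
    obtain ⟨P₂, h2⟩ := ih P₁
    exact ⟨P₂, by rw [pow_succ, mul_comm, mul_smul, h2, h1]⟩

theorem tSfn (h1 : MP72W.S_Shg) (h2 : S_Dvo) (h3 : S_Exs) : S_Sfn := by
  intro K _ b Q _ N P ι _ _ _ _ D x θ hyp hθ hAx hOk hTyp L hL hDk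
  obtain ⟨hfin, hdec⟩ := h3 D hAx x hOk L hL hDk
  obtain ⟨-, sadd, sneg, -, scob⟩ := h1 K (Wa b)
  have hyps : Hyp b (SeparableClosure K) := by
    refine ⟨?_, hyp.2⟩
    have := (algebraMap K (SeparableClosure K)).injective.ne hyp.1
    rwa [map_ofNat, map_zero] at this
  have hdiv : ∀ (n : ℕ) (P : PA b (SeparableClosure K)), ∃ P' : PA b (SeparableClosure K),
      2 ^ n • P' = P :=
    two_pow_div (h2 K b (SeparableClosure K) (SeparableClosure K) (AlgHom.id K _) hyps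
      (qc_sep K hyp.1)).1
  -- the decomposition of the elements of `Sha` killed by a power of two
  have key : ∀ z, InSha (Wa b) z → (∃ k : ℕ, ∀ σ, 2 ^ k • z σ = 0) →
      ∃ (ψ₁ : Gal(Q/K) → N) (R : N), ((∃ t₁, D.IsZ x t₁ ψ₁) ∧ ∀ σ, 2 ^ (L - 1) • ψ₁ σ = 0) ∧
        ∀ σ : Gal(SeparableClosure K/K), z σ = θ (ψ₁ (rs Q σ)) +
          (pmap (Wa b) (σ : SeparableClosure K →ₐ[K] SeparableClosure K) (θ R) - θ R) := by
    intro z hz hk
    obtain ⟨t, ψ, hψ, e⟩ := hTyp z hz hk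
    obtain ⟨ψ₁, R, ht₁, hk₁, e₁⟩ := hdec t ψ hψ
    refine ⟨ψ₁, R, ⟨ht₁, hk₁⟩, fun σ => ?_⟩
    rw [← e σ, e₁, hθ.add, tht_sub hθ, hθ.eqv]
  constructor
  · refine ⟨(fun (ψ : Gal(Q/K) → N) (σ : Gal(SeparableClosure K/K)) => θ (ψ (rs Q σ))) ''
      {ψ | (∃ t, D.IsZ x t ψ) ∧ ∀ σ, 2 ^ (L - 1) • ψ σ = 0}, hfin.image _, ?_⟩
    rintro z hz ⟨n, P₀, hP₀⟩
    obtain ⟨P', hP'⟩ := hdiv n P₀
    have hz' := sadd _ _ hz (sneg _ (scob P'))
    obtain ⟨ψ₁, R, hψ₁, e⟩ := key _ hz' ⟨n, fun σ => by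
      rw [smul_add, hP₀ σ, smul_neg, smul_sub, ← pm_nsmul, hP']
      abel⟩
    refine ⟨_, ⟨ψ₁, hψ₁, rfl⟩, P' + θ R, fun σ => ?_⟩
    have e1 := e σ
    rw [← sub_eq_add_neg, sub_eq_iff_eq_add] at e1
    simp only
    rw [e1, pm_add]
    abel
  · intro e
    set e₁ : PA b (SeparableClosure K) :=
      pmap (Wa b) (Algebra.ofId K (SeparableClosure K)) e with he₁
    have hfix : ∀ σ : Gal(SeparableClosure K/K),
        pmap (Wa b) (σ : SeparableClosure K →ₐ[K] SeparableClosure K) e₁ = e₁ := by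
      intro σ
      rw [he₁, pm_comp]
      exact pm_congr _ _ _ _ fun x y _ => ⟨σ.commutes x, σ.commutes y⟩
    obtain ⟨P₀, hP₀⟩ := hdiv L e₁
    obtain ⟨ψ₁, R, hψ₁, hz⟩ := key _ (scob P₀) ⟨L, fun σ => by
      rw [smul_sub, ← pm_nsmul, hP₀, hfix, sub_self]⟩
    set P' : PA b (SeparableClosure K) := 2 ^ (L - 1) • P₀ - 2 ^ (L - 1) • θ R with hP'
    have hP'fix : ∀ σ : Gal(SeparableClosure K/K),
        pmap (Wa b) (σ : SeparableClosure K →ₐ[K] SeparableClosure K) P' = P' := by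
      intro σ
      have h0 := congrArg (fun z => 2 ^ (L - 1) • z) (hz σ)
      simp only [smul_add, smul_sub] at h0
      rw [← tht_nsmul hθ, hψ₁.2, tht_zero hθ, zero_add] at h0
      rw [hP', pm_sub, pm_nsmul, pm_nsmul]
      rw [sub_eq_sub_iff_add_eq_add] at h0 ⊢
      rw [h0]
      abel
    have hL2 : 2 * 2 ^ (L - 1) = 2 ^ L := by
      rw [← pow_succ', Nat.sub_add_cancel hL]
    have h2P' : 2 • P' = e₁ - θ (2 ^ L • R) := by
      rw [hP', smul_sub, smul_smul, smul_smul, hL2, hP₀, tht_nsmul hθ]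
    -- the torsion point
    have hS : 2 • (2 ^ L • R) = 0 := by
      have hfx : ∀ g : Gal(Q/K), tw (D.chi x) g (2 ^ L • R) = 2 ^ L • R := by
        intro g
        obtain ⟨σ, rfl⟩ := AlgEquiv.restrictNormalHom_surjective (F := K) (K₁ := Q)
          (SeparableClosure K) g
        apply hθ.inj
        rw [← hθ.eqv σ]
        have h3 : θ (2 ^ L • R) = e₁ - 2 • P' := by rw [h2P', sub_sub_cancel]
        rw [h3, pm_sub, pm_nsmul, hfix, hP'fix]
      exact hOk.tame D.inf hAx.infS _ (hfx _) (hfx _)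
    obtain ⟨e', he'⟩ := fix_rat K (Wa b) P' hP'fix
    refine ⟨e', pm_inj (Wa b) (Algebra.ofId K (SeparableClosure K)) ?_⟩
    rw [pm_nsmul, pm_nsmul, he', show (4 : ℕ) = 2 * 2 from rfl, mul_smul, h2P', smul_sub,
      ← tht_nsmul hθ, hS, tht_zero hθ, sub_zero]

end Pool.Agent.MP72S.S
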