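import Pool.Agent.Lib.MP_72e2e6_nt.Sm.S.Spec

/-!
# MP_72e2e6_nt, `Sm`, block S: elements close to `b` are `b` times a square
-/

namespace Pool.Agent.MP72S.S

open Filter Topology

private noncomputable def Sq1_η {L : Type} [NormedField L] (ε : L) : ℕ → L
  | 0 => 0
  | n + 1 => (ε - Sq1_η ε n ^ 2) / 2

private theorem Sq1_add {L : Type} [NormedField L] [IsUltrametricDist L] (x y : L) (c : ℝ)
    (hx : ‖x‖ ≤ c) (hy : ‖y‖ ≤ c) : ‖x + y‖ ≤ c :=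
  (IsUltrametricDist.norm_add_le_max x y).trans (max_le hx hy)

private theorem Sq1_sub {L : Type} [NormedField L] [IsUltrametricDist L] (x y : L) (c : ℝ)
    (hx : ‖x‖ ≤ c) (hy : ‖y‖ ≤ c) : ‖x - y‖ ≤ c := by
  rw [sub_eq_add_neg]
  exact Sq1_add x (-y) c hx (by rw [norm_neg]; exact hy)

private theorem Sq1_bd {L : Type} [NormedField L] [IsUltrametricDist L] (h2 : ‖(2 : L)‖ = 1)
    (ε : L) (hε : ‖ε‖ < 1) (n : ℕ) : ‖Sq1_η ε n‖ ≤ ‖ε‖ := by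
  induction n with
  | zero =>
    change ‖(0 : L)‖ ≤ ‖ε‖
    rw [norm_zero]
    exact norm_nonneg ε
  | succ n ih =>
    change ‖(ε - Sq1_η ε n ^ 2) / 2‖ ≤ ‖ε‖
    rw [norm_div, h2, div_one]
    refine Sq1_sub _ _ _ le_rfl ?_
    rw [norm_pow]
    have h0 := norm_nonneg (Sq1_η ε n)
    have h1 := norm_nonneg ε
    nlinarith

private theorem Sq1_df {L : Type} [NormedField L] [IsUltrametricDist L] (h2 : ‖(2 : L)‖ = 1)
    (ε : L) (hε : ‖ε‖ < 1) (n : ℕ) : ‖Sq1_η ε (n + 1) - Sq1_η ε n‖ ≤ ‖ε‖ * ‖ε‖ ^ n := by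
  induction n with
  | zero =>
    have e : Sq1_η ε (0 + 1) - Sq1_η ε 0 = ε / 2 := by
      change (ε - (0 : L) ^ 2) / 2 - 0 = ε / 2
      simp
    rw [e, norm_div, h2, div_one, pow_zero, mul_one]
  | succ n ih =>
    have h2' : (2 : L) ≠ 0 := by
      intro h
      rw [h, norm_zero] at h2
      exact zero_ne_one h2
    have e : Sq1_η ε (n + 1 + 1) - Sq1_η ε (n + 1) =
        -((Sq1_η ε (n + 1) - Sq1_η ε n) * (Sq1_η ε (n + 1) + Sq1_η ε n)) / 2 := by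
      have e1 : Sq1_η ε (n + 1 + 1) = (ε - Sq1_η ε (n + 1) ^ 2) / 2 := rfl
      have e2 : 2 * Sq1_η ε (n + 1) = ε - Sq1_η ε n ^ 2 := by
        change 2 * ((ε - Sq1_η ε n ^ 2) / 2) = _
        field_simp
      rw [e1, eq_div_iff h2', sub_mul, div_mul_cancel₀ _ h2', mul_comm (Sq1_η ε (n + 1)) 2, e2]
      ring
    rw [e, norm_div, h2, div_one, norm_neg, norm_mul]
    have h3 := Sq1_add _ _ _ (Sq1_bd h2 ε hε (n + 1)) (Sq1_bd h2 ε hε n)
    have h4 := norm_nonneg (Sq1_η ε (n + 1) - Sq1_η ε n)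
    calc ‖Sq1_η ε (n + 1) - Sq1_η ε n‖ * ‖Sq1_η ε (n + 1) + Sq1_η ε n‖
        ≤ (‖ε‖ * ‖ε‖ ^ n) * ‖ε‖ := mul_le_mul ih h3 (norm_nonneg _) (by positivity)
      _ = ‖ε‖ * ‖ε‖ ^ (n + 1) := by ring

theorem tSq1 : S_Sq1 := by
  intro L _ _ _ h2 a b hab
  have hb : b ≠ 0 := by
    intro h
    rw [h, norm_zero] at hab
    exact absurd hab (not_lt.2 (norm_nonneg _))
  have hbn : 0 < ‖b‖ := norm_pos_iff.2 hb
  have h2' : (2 : L) ≠ 0 := by
    intro h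
    rw [h, norm_zero] at h2
    exact zero_ne_one h2
  obtain ⟨ε, hεd⟩ : ∃ ε : L, ε = a / b - 1 := ⟨_, rfl⟩
  have hε : ‖ε‖ < 1 := by
    have e : ε = (a - b) / b := by
      rw [hεd]
      field_simp
    rw [e, norm_div, div_lt_one hbn]
    exact hab
  have hc : CauchySeq (Sq1_η ε) := by
    refine cauchySeq_of_le_geometric ‖ε‖ ‖ε‖ hε (fun n => ?_)
    rw [dist_comm, dist_eq_norm]
    exact Sq1_df h2 ε hε n
  obtain ⟨l, hl⟩ := cauchySeq_tendsto_of_complete hc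
  have h1 : Tendsto (fun n => 2 * Sq1_η ε (n + 1)) atTop (𝓝 (2 * l)) :=
    ((tendsto_add_atTop_iff_nat 1).2 hl).const_mul 2
  have h3 : Tendsto (fun n => ε - Sq1_η ε n ^ 2) atTop (𝓝 (ε - l ^ 2)) :=
    tendsto_const_nhds.sub (hl.pow 2)
  have e2 : (fun n => 2 * Sq1_η ε (n + 1)) = fun n => ε - Sq1_η ε n ^ 2 := by
    funext n
    change 2 * ((ε - Sq1_η ε n ^ 2) / 2) = _
    field_simp
  rw [e2] at h1
  have h4 : 2 * l = ε - l ^ 2 := tendsto_nhds_unique h1 h3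
  refine ⟨1 + l, ?_⟩
  have h5 : (1 + l) ^ 2 = a / b := by
    have : (1 + l) ^ 2 = 1 + (2 * l + l ^ 2) := by ring
    rw [this, h4, hεd]
    ring
  rw [h5]
  field_simp

end Pool.Agent.MP72S.S
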