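import Pool.Agent.Lib.MP_72e2e6_nt.Sm.S.Spec

/-!
# MP_72e2e6_nt, `Sm`, block S: rational points at a tame place
-/

namespace Pool.Agent.MP72S.S

open Finset WeierstrassCurve Polynomial

open Pool.Agent.MP72W (pmap IsCoc LocTriv InSha ShaTwoFin XY px py)

open Pool.Agent.MP72S.C

open scoped Classical

private theorem Tam_sum {L : Type} [Field L] (f : Fin 3 → L) (i j k : Fin 3) (h1 : i ≠ j)
    (h2 : i ≠ k) (h3 : j ≠ k) : f 0 * f 1 * f 2 = f i * f j * f k := by
  fin_cases i <;> fin_cases j <;> fin_cases k <;>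
    first
    | exact absurd rfl h1
    | exact absurd rfl h2
    | exact absurd rfl h3
    | (simp only [Fin.zero_eta, Fin.mk_one, Fin.reduceFinMk]; try ring)

private theorem Tam_cov : ∀ i j k : Fin 3, i ≠ j → i ≠ k → j ≠ k → ∀ t, t = i ∨ t = j ∨ t = k := by
  decide

private theorem Tam_thr : ∀ i j : Fin 3, i ≠ j → ∃ k, i ≠ k ∧ j ≠ k := by
  decide

private theorem Tam_two : ∀ i : Fin 3, ∃ j k, i ≠ j ∧ i ≠ k ∧ j ≠ k := by
  decide

/-- Halving of a point with square coordinates. -/
private theorem Tam_hal (hGrp : C.S_Grp) (hHal : C.S_Hal) {K : Type} [Field K] (a : Fin 3 → K)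
    (L : Type) [Field L] [Algebra K L] (hH : Hyp a L) (P : PA a L) (x y : L) (hP : XY P x y)
    (h : ∀ i, ∃ r : L, x - al a L i = r ^ 2) : ∃ Q : PA a L, Q + Q = P := by
  choose r hr using h
  have heq := ((hGrp K a L hH).2.1 P x y hP).2.2.2
  have h1 : (r 0 * r 1 * r 2) ^ 2 = y ^ 2 := by
    rw [heq, hr 0, hr 1, hr 2]
    ring
  rcases sq_eq_sq_iff_eq_or_eq_neg.1 h1 with h2 | h2
  · obtain ⟨Q, -, hQ, -⟩ := hHal K a L hH P x y hP r (fun i => (hr i).symm) h2
    exact ⟨Q, hQ⟩
  · obtain ⟨Q, -, hQ, -⟩ := hHal K a L hH P x y hP (fun i => - r i)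
      (fun i => by rw [hr i]; ring) (by rw [← neg_eq_iff_eq_neg] at h2; rw [← h2]; ring)
    exact ⟨Q, hQ⟩

/-- The analytic part. -/
private theorem Tam_an (hSq : S_Sq1) {L : Type} [NormedField L] [CompleteSpace L]
    [IsUltrametricDist L] (h2 : ‖(2 : L)‖ = 1) (α : Fin 3 → L) (M : ℝ)
    (hM : ∀ c : L, ‖c‖ ^ 2 ≠ M) (hle : ∀ i j, ‖α i - α j‖ ≤ M)
    (hex : ∀ i, ∃ j, ‖α i - α j‖ = M) (x y : L)
    (heq : y ^ 2 = (x - α 0) * (x - α 1) * (x - α 2)) (hne : ∀ i, x - α i ≠ 0) :
    (∀ i, ∃ r : L, x - α i = r ^ 2) ∨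
    ∃ k j l : Fin 3, k ≠ j ∧ k ≠ l ∧ j ≠ l ∧ ∀ i, ∃ r : L,
      α k + (α k - α j) * (α k - α l) / (x - α k) - α i = r ^ 2 := by
  have hy : y ≠ 0 := by
    intro h
    rw [h, zero_pow two_ne_zero] at heq
    exact mul_ne_zero (mul_ne_zero (hne 0) (hne 1)) (hne 2) heq.symm
  have heq' : ∀ i j k : Fin 3, i ≠ j → i ≠ k → j ≠ k →
      y ^ 2 = (x - α i) * (x - α j) * (x - α k) := by
    intro i j k h1 h2 h3
    rw [heq]
    exact Tam_sum (fun t => x - α t) i j k h1 h2 h3
  by_cases hA : ∃ i, M < ‖x - α i‖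
  · left
    obtain ⟨i, hi⟩ := hA
    have h3 : ∀ j, ∃ s : L, x - α j = (x - α i) * s ^ 2 := by
      intro j
      refine hSq L h2 (x - α j) (x - α i) ?_
      have e : x - α j - (x - α i) = α i - α j := by ring
      rw [e]
      exact (hle i j).trans_lt hi
    choose s hs using h3
    have hs0 : ∀ j, s j ≠ 0 := by
      intro j h
      apply hne j
      rw [hs j, h]
      ring
    intro j
    refine ⟨y / ((x - α i) * (s 0 * s 1 * s 2)) * s j, ?_⟩
    have h0 := hs0 0
    have h1 := hs0 1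
    have h2' := hs0 2
    have hi0 := hne i
    have e1 : y ^ 2 = (x - α i) ^ 3 * (s 0 * s 1 * s 2) ^ 2 := by
      rw [heq, hs 0, hs 1, hs 2]
      ring
    rw [mul_pow, div_pow, e1, hs j]
    field_simp
  · push Not at hA
    right
    obtain ⟨k, hk⟩ := Finite.exists_min fun i => ‖x - α i‖
    have hk0 : 0 < ‖x - α k‖ := norm_pos_iff.2 (hne k)
    have hM0 : 0 < M := hk0.trans_le (hA k)
    have hkM : ‖x - α k‖ < M := by
      by_contra hcon
      push Not at hcon
      have h3 : ∀ i, ‖x - α i‖ = M := fun i => le_antisymm (hA i) (hcon.trans (hk i))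
      apply hM (y / (x - α 0))
      rw [norm_div, div_pow, ← norm_pow y, heq, norm_mul, norm_mul, h3, h3, h3]
      field_simp
    have claim : ∀ j, k ≠ j → ‖x - α k‖ < ‖α k - α j‖ := by
      intro j hkj
      by_contra hcon
      push Not at hcon
      obtain ⟨l, hkl, hjl⟩ := Tam_thr k j hkj
      have h3 : ‖α k - α l‖ = M := by
        obtain ⟨j', hj'⟩ := hex k
        rcases Tam_cov k j l hkj hkl hjl j' with h | h | h
        · rw [h, sub_self, norm_zero] at hj'
          exact absurd hj' hM0.ne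
        · rw [h] at hj'
          rw [hj'] at hcon
          exact absurd hkM (not_lt.2 hcon)
        · rw [← h]
          exact hj'
      have h4 : ‖x - α l‖ = M := by
        have e : x - α l = (x - α k) + (α k - α l) := by ring
        rw [e, IsUltrametricDist.norm_add_eq_max_of_norm_ne_norm (by rw [h3]; exact hkM.ne), h3]
        exact max_eq_right hkM.le
      have h5 : ‖x - α j‖ = ‖x - α k‖ := by
        refine le_antisymm ?_ (hk j)
        have e : x - α j = (x - α k) + (α k - α j) := by ring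
        rw [e]
        exact (IsUltrametricDist.norm_add_le_max _ _).trans (max_le le_rfl hcon)
      apply hM (y / (x - α k))
      rw [norm_div, div_pow, ← norm_pow y, heq' k j l hkj hkl hjl, norm_mul, norm_mul, h4, h5]
      field_simp
    obtain ⟨j, l, hkj, hkl, hjl⟩ := Tam_two k
    have h3 : ∀ i, k ≠ i → ∃ s : L, x - α i = (α k - α i) * s ^ 2 := by
      intro i hki
      refine hSq L h2 (x - α i) (α k - α i) ?_
      have e : x - α i - (α k - α i) = x - α k := by ring
      rw [e]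
      exact claim i hki
    obtain ⟨s, hs⟩ := h3 j hkj
    obtain ⟨t, ht⟩ := h3 l hkl
    have hs0 : s ≠ 0 := by
      intro h
      apply hne j
      rw [hs, h]
      ring
    have ht0 : t ≠ 0 := by
      intro h
      apply hne l
      rw [ht, h]
      ring
    have hu0 := hne k
    have hyy : y ^ 2 = (x - α k) * ((α k - α j) * s ^ 2) * ((α k - α l) * t ^ 2) := by
      rw [heq' k j l hkj hkl hjl, hs, ht]
    refine ⟨k, j, l, hkj, hkl, hjl, fun i => ?_⟩
    rcases Tam_cov k j l hkj hkl hjl i with h | h | h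
    · refine ⟨y / ((x - α k) * s * t), ?_⟩
      rw [h, div_pow, hyy]
      field_simp
      ring
    · refine ⟨y / ((x - α k) * s), ?_⟩
      have e : α k + (α k - α j) * (α k - α l) / (x - α k) - α j =
          (α k - α j) * (x - α l) / (x - α k) := by
        field_simp
        ring
      rw [h, e, ht, div_pow, hyy]
      field_simp
    · refine ⟨y / ((x - α k) * t), ?_⟩
      have e : α k + (α k - α j) * (α k - α l) / (x - α k) - α l =
          (α k - α l) * (x - α j) / (x - α k) := by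
        field_simp
        ring
      rw [h, e, hs, div_pow, hyy]
      field_simp

theorem tTam (hGrp : C.S_Grp) (hVee : C.S_Vee) (hHal : C.S_Hal) (hTrn : S_Trn) (hSq : S_Sq1) :
    S_Tam := by
  intro K _ a L _ _ _ _ I hH h2 M hM hle hex P
  obtain rfl : I = fun a b => Classical.propDecidable (a = b) := Subsingleton.elim _ _
  have hg := hGrp K a L hH
  have hv := hVee K a L hH
  have h0 : 2 • (0 : PA a L) = 0 := nsmul_zero 2
  have hee : ∀ i, (ee a i : PA a L) + ee a i = 0 := fun i => (hv.2.1 (ee a i)).2 (Or.inr ⟨i, rfl⟩)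
  rcases hg.1 P with hP | ⟨x, y, hP⟩
  · exact ⟨0, 0, h0, by rw [hP, h0, add_zero]⟩
  have heq := (hg.2.1 P x y hP).2.2.2
  by_cases hx : ∃ i, x - al a L i = 0
  · obtain ⟨i, hi⟩ := hx
    have hxi : x = al a L i := sub_eq_zero.1 hi
    have hy : y = 0 := by
      have h3 : y ^ 2 = 0 := by
        rw [heq]
        fin_cases i
        · change x - al a L 0 = 0 at hi
          rw [hi]
          ring
        · change x - al a L 1 = 0 at hi
          rw [hi]
          ring
        · change x - al a L 2 = 0 at hi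
          rw [hi]
          ring
      exact pow_eq_zero_iff two_ne_zero |>.1 h3
    refine ⟨P, 0, ?_, by rw [h0, add_zero]⟩
    rw [two_nsmul]
    rw [hy] at hP
    exact hg.2.2.2.2.2.2.2.2 P x hP
  · push Not at hx
    rcases Tam_an hSq h2 (al a L) M hM hle hex x y heq hx with h | ⟨k, j, l, hkj, hkl, hjl, h⟩
    · obtain ⟨Q, hQ⟩ := Tam_hal hGrp hHal a L hH P x y hP h
      exact ⟨0, Q, h0, by rw [zero_add, two_nsmul, hQ]⟩
    · obtain ⟨y', hP'⟩ := hTrn K a L hH k j l hkj hkl hjl P x y hP (sub_ne_zero.1 (hx k))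
      obtain ⟨Q, hQ⟩ := Tam_hal hGrp hHal a L hH _ _ y' hP' h
      refine ⟨ee a k, Q, by rw [two_nsmul]; exact hee k, ?_⟩
      rw [two_nsmul, hQ, add_comm P, ← add_assoc, hee k, zero_add]

end Pool.Agent.MP72S.S
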