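import Pool.Agent.Lib.MP_72e2e6_nt.Sm.S.Lcx

/-!
# MP_72e2e6_nt, `Sm`, block S: Trm, locally trivial cocycles at the tame places
-/

namespace Pool.Agent.MP72S.S

open Finset WeierstrassCurve Polynomial

open Pool.Agent.MP72W (pmap IsCoc LocTriv InSha ShaTwoFin XY px py)

open Pool.Agent.MP72S.C

open scoped Classical

private theorem trm_div {A : Type} [AddCommGroup A] (h : ∀ P : A, ∃ T R : A, 2 • T = 0 ∧ P = T + 2 • R)
    (k : ℕ) (P : A) : ∃ T R : A, 2 • T = 0 ∧ P = T + 2 ^ k • R := by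
  induction k with
  | zero => exact ⟨0, P, smul_zero _, by rw [pow_zero, one_smul, zero_add]⟩
  | succ k ih =>
    obtain ⟨T, R, hT, e⟩ := ih
    by_cases hk : k = 0
    · subst hk
      obtain ⟨T', R', hT', e'⟩ := h P
      exact ⟨T', R', hT', by rw [e', zero_add, pow_one]⟩
    · obtain ⟨T', R', hT', e'⟩ := h R
      refine ⟨T, R', hT, ?_⟩
      rw [e, e', smul_add, lcx_pow hT' hk, zero_add, smul_smul, ← pow_succ]

private theorem trm_aux (hRe : D.S_Re) (hDvo : S_Dvo) {K : Type} [Field K]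
    (Q : IntermediateField K (SeparableClosure K)) [Normal K Q] (a : Fin 3 → K) (hyp : Hyp a K)
    {M : Type} [Field M] [Algebra K M]
    (hM : ∀ P : PA a M, ∃ T R : PA a M, 2 • T = 0 ∧ P = T + 2 • R)
    (ι : SeparableClosure K →ₐ[K] SeparableClosure M) (τ φ : Gal(SeparableClosure M/M))
    (g h : Gal(Q/K)) (hg : ∀ x : Q, τ (ι x) = ι (g x)) (hh : ∀ x : Q, φ (ι x) = ι (h x))
    (z : Gal(SeparableClosure K/K) → PA a (SeparableClosure K))
    (hk : ∃ k : ℕ, ∀ σ, 2 ^ k • z σ = 0) (hz : LocTriv (Wa a) z M) :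
    ∃ (R : PA a (SeparableClosure K)) (m : ℕ) (σ σ' : Gal(SeparableClosure K/K)),
        2 ^ m • R = 0 ∧ rs Q σ = g ∧ rs Q σ' = h ∧
        z σ = pmap (Wa a) (σ : SeparableClosure K →ₐ[K] SeparableClosure K) R - R ∧
        z σ' = pmap (Wa a) (σ' : SeparableClosure K →ₐ[K] SeparableClosure K) R - R := by
  obtain ⟨Q₀, k, hfix, hall⟩ := lcx_coc hRe (Wa a) hz hk ι
  have two : (2 : K) ≠ 0 := hyp.1
  have twoK : (2 : SeparableClosure K) ≠ 0 := by
    have := (algebraMap K (SeparableClosure K)).injective.ne two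
    rwa [map_ofNat, map_zero] at this
  obtain ⟨R₀, hR₀⟩ := lcx_fix K (Wa a) M _ hfix
  obtain ⟨T, R, hT, e⟩ := trm_div hM k R₀
  set Q₁ : PA a (SeparableClosure M) :=
    Q₀ - pmap (Wa a) (Algebra.ofId M (SeparableClosure M)) R with hQ₁
  have h1 : 2 ^ (k + 1) • Q₁ = 0 := by
    rw [pow_succ', mul_smul, hQ₁, smul_sub, ← pm_nsmul, ← hR₀, ← pm_sub, e, add_sub_cancel_right,
      ← pm_nsmul, hT, pm_zero]
  obtain ⟨R₂, hR₂, hR₂0⟩ := (hDvo K a (SeparableClosure K) (SeparableClosure M) ι ⟨twoK, hyp.2⟩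
    (lcx_qc K two)).2 (k + 1) Q₁ 0 (by rw [h1, pm_zero])
  have key : ∀ (τ₁ : Gal(SeparableClosure M/M)) (g₁ : Gal(Q/K)),
      (∀ x : Q, τ₁ (ι x) = ι (g₁ x)) → ∃ σ : Gal(SeparableClosure K/K), rs Q σ = g₁ ∧
        z σ = pmap (Wa a) (σ : SeparableClosure K →ₐ[K] SeparableClosure K) R₂ - R₂ := by
    intro τ₁ g₁ hg₁
    obtain ⟨σ, hσ, e₁⟩ := hall τ₁
    refine ⟨σ, lcx_rs ι hg₁ hσ, pm_inj (Wa a) ι ?_⟩
    have h2 : pmap (Wa a) (τ₁ : SeparableClosure M →ₐ[M] SeparableClosure M)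
        (pmap (Wa a) (Algebra.ofId M (SeparableClosure M)) R) =
          pmap (Wa a) (Algebra.ofId M (SeparableClosure M)) R := by
      rw [pm_comp]
      exact pm_congr _ _ _ _ fun x y _ => ⟨τ₁.commutes x, τ₁.commutes y⟩
    have h3 : Q₀ = Q₁ + pmap (Wa a) (Algebra.ofId M (SeparableClosure M)) R := by
      rw [hQ₁, sub_add_cancel]
    have h4 : pmap (Wa a) (τ₁ : SeparableClosure M →ₐ[M] SeparableClosure M)
        (pmap (Wa a) ι R₂) =
        pmap (Wa a) ι (pmap (Wa a) (σ : SeparableClosure K →ₐ[K] SeparableClosure K) R₂) := by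
      refine (pm_sq (Wa a) (((τ₁ : SeparableClosure M →ₐ[M]
        SeparableClosure M).restrictScalars K).comp ι) ι _ R₂
        fun x y _ => ⟨rfl, rfl⟩).symm.trans ?_
      exact pm_sq _ _ _ _ _ fun x y _ => ⟨hσ x, hσ y⟩
    rw [e₁, h3, pm_add, h2, add_sub_add_right_eq_sub, ← hR₂, h4, pm_sub]
  obtain ⟨σ, hσ, e₁⟩ := key τ g hg
  obtain ⟨σ', hσ', e₂⟩ := key φ h hh
  exact ⟨R₂, k + 1, σ, σ', hR₂0, hσ, hσ', e₁, e₂⟩

theorem tTrm (hRe : D.S_Re) (hDvo : S_Dvo) (hTam : S_Tam) : S_Trm := by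
  intro K _ Q _ a hyp av g h hloc htame z hz hk hlt
  obtain ⟨hult, h2, hnM, hval, n, ι, τ, φ, -, -, -, -, hg, hh⟩ := hloc
  obtain ⟨M, hM1, hM2, hM3⟩ := htame
  have two : (2 : av.Completion) ≠ 0 := by
    intro h0
    rw [h0, norm_zero] at h2
    exact zero_ne_one h2
  have hdiff : ∀ i j, ‖al a av.Completion i - al a av.Completion j‖ = av (a i - a j) := by
    intro i j
    rw [← hnM, map_sub]
    rfl
  refine trm_aux hRe hDvo Q a hyp ?_ ι τ φ g h hg hh z hk hlt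
  refine hTam K a av.Completion ⟨two, hyp.2⟩ h2 M ?_ ?_ ?_
  · intro c hc
    by_cases hc0 : c = 0
    · apply hM1 0
      rw [map_zero, ← hc, hc0, norm_zero]
    · obtain ⟨d, hd⟩ := hval c hc0
      exact hM1 d (by rw [← hd, hc])
  · intro i j
    rw [hdiff]
    exact hM2 i j
  · intro i
    obtain ⟨j, hj⟩ := hM3 i
    exact ⟨j, by rw [hdiff, hj]⟩

end Pool.Agent.MP72S.S
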