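import Pool.Agent.Lib.MP_72e2e6_nt.Sm.S.Spec

/-!
# MP_72e2e6_nt, `Sm`, block S: translation by a point of order two
-/

namespace Pool.Agent.MP72S.S

open Finset WeierstrassCurve Polynomial

open Pool.Agent.MP72W (pmap IsCoc LocTriv InSha ShaTwoFin XY px py)

open Pool.Agent.MP72S.C

open scoped Classical

private theorem Trn_sum {L : Type} [Field L] (f : Fin 3 → L) (i j k : Fin 3) (h1 : i ≠ j)
    (h2 : i ≠ k) (h3 : j ≠ k) : f 0 + f 1 + f 2 = f i + f j + f k ∧
      ∀ x, (x - f 0) * (x - f 1) * (x - f 2) = (x - f i) * (x - f j) * (x - f k) := by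
  fin_cases i <;> fin_cases j <;> fin_cases k <;>
    first
    | exact absurd rfl h1
    | exact absurd rfl h2
    | exact absurd rfl h3
    | (refine ⟨?_, fun x => ?_⟩ <;> simp only [Fin.zero_eta, Fin.mk_one, Fin.reduceFinMk] <;> ring)

theorem tTrn (hGrp : C.S_Grp) (hVee : C.S_Vee) : S_Trn := by
  intro K _ a L _ _ hH i j k hij hik hjk P x y hP hx
  obtain ⟨-, g2, -, -, -, -, g7, -, -⟩ := hGrp K a L hH
  obtain ⟨v1, -⟩ := hVee K a L hH
  obtain ⟨-, -, -, heq⟩ := g2 P x y hP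
  obtain ⟨e1, e2⟩ := Trn_sum (al a L) i j k hij hik hjk
  rw [e2 x] at heq
  have hne : x - al a L i ≠ 0 := sub_ne_zero.2 hx
  have h7 := g7 P (ee a i) x y (al a L i) 0 (y / (x - al a L i))
    (al a L i + (al a L i - al a L j) * (al a L i - al a L k) / (x - al a L i)) hP (v1 i) hx
    (by rw [sub_zero, div_mul_cancel₀ _ hne])
    (by
      rw [div_pow, heq, e1]
      field_simp
      ring)
  exact ⟨_, h7⟩

end Pool.Agent.MP72S.S
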