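import Pool.Agent.Lib.MP_72e2e6_nt.Sm.S.Spec

/-!
# MP_72e2e6_nt, `Sm`, block S: the quadratic twist
-/

namespace Pool.Agent.MP72S.S

open Finset WeierstrassCurve Polynomial

open Pool.Agent.MP72W (pmap IsCoc LocTriv InSha ShaTwoFin XY px py)

open Pool.Agent.MP72S.C

open scoped Classical

private theorem Twt_phi (hTwi : C.S_Twi) {K : Type} [Field K] (a : Fin 3 → K) (L : Type)
    [Field L] [Algebra K L] [I : DecidableEq L] (hH : Hyp a L) (dd : K) (hdd : dd ≠ 0) (δ : L)
    (hδ : δ ^ 2 = algebraMap K L dd) :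
    ∃ φ : PA a L → PA (fun i => dd * a i) L,
      (∀ P Q, φ (P + Q) = φ P + φ Q) ∧ (∀ (n : ℕ) P, φ (n • P) = n • φ P) ∧
      Function.Bijective φ ∧ ∀ s : Gal(L/K),
        (s δ = δ → ∀ P, pmap (Wa fun i => dd * a i) (s : L →ₐ[K] L) (φ P) =
          φ (pmap (Wa a) (s : L →ₐ[K] L) P)) ∧
        (s δ = -δ → ∀ P, pmap (Wa fun i => dd * a i) (s : L →ₐ[K] L) (φ P) =
          φ (- pmap (Wa a) (s : L →ₐ[K] L) P)) := by
  obtain rfl : I = fun a b => Classical.propDecidable (a = b) := Subsingleton.elim _ _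
  have h := (hTwi K a L hH dd 0 hdd δ hδ 1).2
  have e : (fun i => dd * a ((1 : Equiv.Perm (Fin 3)) i) + 0) = fun i => dd * a i := by
    funext i
    rw [add_zero]
    rfl
  rw [e] at h
  obtain ⟨φ, -, -, h3⟩ := h
  refine ⟨φ, fun P Q => map_add φ P Q, fun n P => map_nsmul φ n P, φ.bijective, fun s => ?_⟩
  refine ⟨fun hs P => (h3 s).2.1 hs P, fun hs P => ?_⟩
  rw [map_neg]
  exact (h3 s).2.2 hs P

theorem tTwt (_hGrp : C.S_Grp) (_hVee : C.S_Vee) (hTwi : C.S_Twi) (hDvo : S_Dvo) : S_Twt := by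
  intro K _ a Q _ hH hQ dd hdd δ χ hδ hχ
  have inj1 : Function.Injective (algebraMap K (SeparableClosure K)) :=
    (algebraMap K (SeparableClosure K)).injective
  have inj2 : Function.Injective (algebraMap K Q) := (algebraMap K Q).injective
  have hHK : Hyp a (SeparableClosure K) := by
    refine ⟨fun h => hH.1 (inj1 ?_), hH.2⟩
    rw [map_ofNat, map_zero]
    exact h
  have hHQ : Hyp a Q := by
    refine ⟨fun h => hH.1 (inj2 ?_), hH.2⟩
    rw [map_ofNat, map_zero]
    exact h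
  obtain ⟨φ, fadd, fsm, fbij, fs⟩ := Twt_phi hTwi a (SeparableClosure K) hHK dd hdd
    (δ : SeparableClosure K) (by
      have h := congrArg (fun z : Q => (z : SeparableClosure K)) hδ
      exact h)
  have f0 : φ 0 = 0 := by
    have h := fsm 0 0
    rw [zero_nsmul, zero_nsmul] at h
    exact h
  have fneg : ∀ P, φ (-P) = - φ P := by
    intro P
    have h := fadd P (-P)
    rw [add_neg_cancel, f0] at h
    exact (neg_eq_of_add_eq_zero_right h.symm).symm
  refine ⟨fun n => φ (pmap (Wa a) Q.val (pt n)), ?_, ?_, ?_, ?_, ?_⟩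
  · intro m n
    rw [pt_add, pm_add, fadd]
  · intro m n h
    exact pt_inj (pm_inj (Wa a) Q.val (fbij.1 h))
  · intro n
    obtain ⟨k, hk⟩ := pt_mem n
    refine ⟨k, ?_⟩
    rw [← fsm]
    have h1 := pm_nsmul (I := fun a b => Classical.propDecidable (a = b)) (Wa a) Q.val (2 ^ k)
      (pt n)
    rw [hk] at h1
    rw [← h1, ← f0]
    rfl
  · rintro P ⟨k, hk⟩
    obtain ⟨P1, rfl⟩ := fbij.2 P
    rw [← fsm, ← f0] at hk
    have hk1 := fbij.1 hk
    obtain ⟨P2, h1, h2⟩ := (@hDvo K _ a Q (SeparableClosure K) _ _ _ _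
      (fun a b => Classical.propDecidable (a = b)) _ Q.val hHQ hQ).2 k P1 0 hk1
    refine ⟨mkN P2 ⟨k, h2⟩, ?_⟩
    rw [pt_mkN]
    exact congrArg φ h1
  · intro σ n
    have hσ : ∀ x : Q, σ (x : SeparableClosure K) = ((rs Q σ x : Q) : SeparableClosure K) :=
      fun x => (AlgEquiv.restrictNormalHom_apply Q σ x).symm
    have e1 : pmap (Wa a) (σ : SeparableClosure K →ₐ[K] SeparableClosure K)
        (pmap (Wa a) Q.val (pt n)) = pmap (Wa a) Q.val (pt (rs Q σ • n)) := by
      rw [pt_smul]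
      unfold act
      rw [pm_comp, pm_comp]
      refine pm_congr (Wa a) _ _ (pt n) fun x y _ => ⟨?_, ?_⟩
      · exact hσ x
      · exact hσ y
    have hd : σ (δ : SeparableClosure K) = ((if χ (rs Q σ) = 0 then δ else -δ : Q) :
        SeparableClosure K) := by
      rw [hσ, hχ]
    by_cases hc : χ (rs Q σ) = 0
    · rw [if_pos hc] at hd
      have h2 := (fs σ).1 hd (pmap (Wa a) Q.val (pt n))
      rw [h2, e1]
      have h3 : tw χ (rs Q σ) n = rs Q σ • n := by
        unfold tw sg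
        rw [if_pos hc]
      rw [h3]
    · rw [if_neg hc] at hd
      have h2 := (fs σ).2 hd (pmap (Wa a) Q.val (pt n))
      rw [h2, e1]
      have h3 : tw χ (rs Q σ) n = - (rs Q σ • n) := by
        unfold tw sg
        rw [if_neg hc]
      rw [h3, pt_neg, pm_neg]

end Pool.Agent.MP72S.S
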