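import Pool.Agent.Lib.MP_72e2e6_nt.Sm.S.Spec

/-!
# MP_72e2e6_nt, `Sm`, block S: Typ, the Selmer cocycle of a locally trivial cocycle
-/

namespace Pool.Agent.MP72S.S

open Finset WeierstrassCurve Polynomial

open Pool.Agent.MP72W (pmap IsCoc LocTriv InSha ShaTwoFin XY px py)

open Pool.Agent.MP72S.C

open scoped Classical

private theorem tht_zero {K : Type} [Field K] {W : WeierstrassCurve K}
    {Q : IntermediateField K (SeparableClosure K)} [Normal K Q] {N : Type} [AddCommGroup N]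
    [DistribMulAction Gal(Q/K) N] {χ : Gal(Q/K) → ZMod 2}
    {θ : N → (W⁄(SeparableClosure K)).toAffine.Point} (h : Tht W Q χ θ) : θ 0 = 0 := by
  have h1 := h.add 0 0
  rw [add_zero] at h1
  exact left_eq_add.mp h1

private theorem tht_sub {K : Type} [Field K] {W : WeierstrassCurve K}
    {Q : IntermediateField K (SeparableClosure K)} [Normal K Q] {N : Type} [AddCommGroup N]
    [DistribMulAction Gal(Q/K) N] {χ : Gal(Q/K) → ZMod 2}
    {θ : N → (W⁄(SeparableClosure K)).toAffine.Point} (h : Tht W Q χ θ) (a b : N) :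
    θ (a - b) = θ a - θ b := by
  have h1 := h.add (a - b) b
  rw [sub_add_cancel] at h1
  rw [h1, add_sub_cancel_right]

private theorem typ_aux (h1 : S_Unr) (h2 : S_Trm) (h3 : S_Inf) {K : Type} [Field K]
    (a : Fin 3 → K) (Q : IntermediateField K (SeparableClosure K)) [Normal K Q] (P ι : Type)
    [Fintype ι] (D : Dat Gal(Q/K) (NN a Q) P) (av : P → AbsoluteValue K ℝ) (π : P → K) (d₀ : K)
    (hG : GOk a Q D av π d₀) (x : ι → P) (b : Fin 3 → K) (hyp : Hyp b K)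
    (θ : NN a Q → PA b (SeparableClosure K)) (hθ : Tht (Wa b) Q (D.chi x) θ)
    (hT : ∀ v ∈ Set.range (D.pl x), Tame (av v) b)
    (hgood : ∀ v, v ∉ Set.range (D.pl x) → Good (av v) b) : TypOk (Wa b) Q D x θ := by
  intro z hz hk
  have two : (2 : K) ≠ 0 := hG.hyp.1
  obtain ⟨ψ, hlc, hco, hbd, hψ⟩ := h3 K (Wa b) Q (NN a Q) (D.chi x) θ two hG.qc hθ z hz.1 hk
  have hloc : ∀ v, LocTriv (Wa b) z (av v).Completion := fun v => hz.2 _ (hG.ntr v)
  have hur : ∀ v, v ∉ Set.range (D.pl x) → ψ (D.tau v) = 0 := by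
    intro v hv
    obtain ⟨σ, hσ, hzσ⟩ := h1 K Q b hyp (av v) (D.tau v) (D.phi v) (hG.loc v) (hgood v hv) z hz.1 hk
      (hloc v)
    apply hθ.inj
    rw [tht_zero hθ, ← hzσ, ← hψ, hσ]
  have hlo : ∀ j, ∃ R : NN a Q, D.Lo x (D.pl x j) R ψ := by
    intro j
    obtain ⟨R, m, σ, σ', hR, hσ, hσ', e1, e2⟩ := h2 K Q b hyp (av (D.pl x j)) (D.tau (D.pl x j))
      (D.phi (D.pl x j)) (hG.loc _) (hT _ ⟨j, rfl⟩) z hz.1 hk (hloc _)
    obtain ⟨R', rfl⟩ := hθ.rng R ⟨m, hR⟩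
    refine ⟨R', ?_, ?_⟩
    · apply hθ.inj
      rw [tht_sub hθ, ← hσ, hψ, e1, hθ.eqv]
    · apply hθ.inj
      rw [tht_sub hθ, ← hσ', hψ, e2, hθ.eqv]
  choose R hR using hlo
  exact ⟨fun j => 2 • R j, ψ, ⟨⟨hlc, hco, hbd, hur⟩, fun j => ⟨R j, rfl, hR j⟩⟩, hψ⟩

theorem tTyp (h1 : S_Unr) (h2 : S_Trm) (h3 : S_Inf) : S_Typ := by
  intro K _ a Q _ P ι _ D av π d₀ hG x dd θ hdd hθ hT hgood
  exact typ_aux h1 h2 h3 a Q P ι D av π d₀ hG x (fun i => dd * a i)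
    ⟨hG.hyp.1, fun i j hij => hG.hyp.2 (mul_left_cancel₀ hdd hij)⟩ θ hθ hT hgood

end Pool.Agent.MP72S.S
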