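import Pool.Agent.Lib.MP_72e2e6_nt.Sm.S.Spec

/-!
# MP_72e2e6_nt, `Sm`, block S: common lemmas for `Unr` and `Trm`
-/

namespace Pool.Agent.MP72S.S

open Finset WeierstrassCurve Polynomial

open Pool.Agent.MP72W (pmap IsCoc LocTriv InSha ShaTwoFin XY px py)

open Pool.Agent.MP72S.C

open scoped Classical

/-- The separable closure is closed under square roots. -/
theorem lcx_qc (K : Type) [Field K] (two : (2 : K) ≠ 0) : QC (SeparableClosure K) := by
  intro x
  by_cases hx : x = 0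
  · exact ⟨0, by rw [hx]; ring⟩
  have two' : (2 : SeparableClosure K) ≠ 0 := by
    have := (algebraMap K (SeparableClosure K)).injective.ne two
    rwa [map_ofNat, map_zero] at this
  have : NeZero ((2 : ℕ) : SeparableClosure K) := ⟨by exact_mod_cast two'⟩
  obtain ⟨z, hz⟩ := IsSepClosed.exists_pow_nat_eq x 2
  exact ⟨z, hz⟩

/-- Fixed points are rational. -/
theorem lcx_fix (K : Type) [Field K] (W : WeierstrassCurve K) (M : Type) [Field M] [Algebra K M]
    (P : (W⁄(SeparableClosure M)).toAffine.Point)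
    (h : ∀ σ : Gal(SeparableClosure M/M),
      pmap W (σ : SeparableClosure M →ₐ[M] SeparableClosure M) P = P) :
    ∃ P₀ : (W⁄M).toAffine.Point, pmap W (Algebra.ofId M (SeparableClosure M)) P₀ = P := by
  cases P with
  | zero => exact ⟨0, rfl⟩
  | some x y hxy =>
    have hf : ∀ σ : Gal(SeparableClosure M/M), σ x = x ∧ σ y = y := by
      intro σ
      have h1 := h σ
      obtain ⟨h', e⟩ := pm_some W (σ : SeparableClosure M →ₐ[M] SeparableClosure M) hxy
      rw [e, Affine.Point.some.injEq] at h1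
      exact h1
    have hx : x ∈ Set.range (algebraMap M (SeparableClosure M)) :=
      (InfiniteGalois.mem_range_algebraMap_iff_fixed x).mpr fun σ => (hf σ).1
    have hy : y ∈ Set.range (algebraMap M (SeparableClosure M)) :=
      (InfiniteGalois.mem_range_algebraMap_iff_fixed y).mpr fun σ => (hf σ).2
    obtain ⟨x₀, rfl⟩ := hx
    obtain ⟨y₀, rfl⟩ := hy
    have h0 : (W⁄M).toAffine.Nonsingular x₀ y₀ :=
      (W.toAffine.baseChange_nonsingular (S := M)
        (Algebra.ofId M (SeparableClosure M)).injective x₀ y₀).mp hxy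
    refine ⟨Affine.Point.some x₀ y₀ h0, ?_⟩
    obtain ⟨h', e⟩ := pm_some W (Algebra.ofId M (SeparableClosure M)) h0
    rw [e, Affine.Point.some.injEq]
    exact ⟨rfl, rfl⟩

/-- The point of `LocTriv` and the restrictions of the elements of the local Galois group. -/
theorem lcx_coc (hRe : D.S_Re) {K : Type} [Field K] (W : WeierstrassCurve K) {M : Type} [Field M]
    [Algebra K M] {z : Gal(SeparableClosure K/K) → (W⁄(SeparableClosure K)).toAffine.Point}
    (hz : LocTriv W z M) (hk : ∃ k : ℕ, ∀ σ, 2 ^ k • z σ = 0)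
    (ι : SeparableClosure K →ₐ[K] SeparableClosure M) :
    ∃ (Q₀ : (W⁄(SeparableClosure M)).toAffine.Point) (k : ℕ),
      (∀ τ : Gal(SeparableClosure M/M),
        pmap W (τ : SeparableClosure M →ₐ[M] SeparableClosure M) (2 ^ k • Q₀) = 2 ^ k • Q₀) ∧
      ∀ τ : Gal(SeparableClosure M/M), ∃ σ : Gal(SeparableClosure K/K), (∀ x, τ (ι x) = ι (σ x)) ∧
        pmap W ι (z σ) = pmap W (τ : SeparableClosure M →ₐ[M] SeparableClosure M) Q₀ - Q₀ := by
  obtain ⟨Q₀, hQ⟩ := hz ι
  obtain ⟨k, hk⟩ := hk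
  have h1 : ∀ τ : Gal(SeparableClosure M/M), ∃ σ : Gal(SeparableClosure K/K),
      (∀ x, τ (ι x) = ι (σ x)) ∧
      pmap W ι (z σ) = pmap W (τ : SeparableClosure M →ₐ[M] SeparableClosure M) Q₀ - Q₀ := by
    intro τ
    have h2 := (hRe K (SeparableClosure K) M (SeparableClosure M) ι).2.1 τ
    exact ⟨_, h2, hQ _ τ h2⟩
  refine ⟨Q₀, k, fun τ => ?_, h1⟩
  obtain ⟨σ, -, h3⟩ := h1 τ
  have h4 := congrArg (fun P => 2 ^ k • P) h3
  simp only [smul_sub] at h4
  rw [← pm_nsmul, ← pm_nsmul, hk, pm_zero] at h4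
  exact (sub_eq_zero.mp h4.symm)

/-- The restriction to `Q`. -/
theorem lcx_rs {K : Type} [Field K] {Q : IntermediateField K (SeparableClosure K)} [Normal K Q]
    {M : Type} [Field M] [Algebra K M] (ι : SeparableClosure K →ₐ[K] SeparableClosure M)
    {τ : Gal(SeparableClosure M/M)} {g : Gal(Q/K)} (hg : ∀ x : Q, τ (ι x) = ι (g x))
    {σ : Gal(SeparableClosure K/K)} (hσ : ∀ x, τ (ι x) = ι (σ x)) : rs Q σ = g := by
  refine AlgEquiv.ext fun x => ?_
  have h1 := AlgEquiv.restrictNormal_commutes σ Q x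
  refine (algebraMap Q (SeparableClosure K)).injective (h1.trans (ι.injective ?_))
  exact (hσ _).symm.trans (hg x)

/-- `2 ^ k • 2 • P`. -/
theorem lcx_pow {A : Type} [AddCommGroup A] {P : A} (h : 2 • P = 0) {k : ℕ} (hk : k ≠ 0) :
    2 ^ k • P = 0 := by
  obtain ⟨j, rfl⟩ := Nat.exists_eq_succ_of_ne_zero hk
  rw [pow_succ, mul_smul, h, smul_zero]

end Pool.Agent.MP72S.S
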