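import Pool.Agent.Lib.MP_72e2e6_nt.Sm.S.Defs
import Pool.Agent.Lib.MP_72e2e6_nt.Sm.C.SpecC
import Pool.Agent.Lib.MP_72e2e6_nt.Sm.D.Spec
import Pool.Agent.Lib.MP_72e2e6_nt.Sm.A.Spec2
import Pool.Agent.Lib.MP_72e2e6_nt.W2.E.Spec

/-!
# MP_72e2e6_nt, `Sm`, block S: finiteness of the rational points and of the literal `Sha[2^∞]`

The proofs are complete in the docstrings; every module is independent (used statements are
hypotheses): file `Sm/S/<Name>.lean` (import this file only) with `theorem t<Name> : S_<Name>` or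
`theorem t<Name> (h1 : S_X) (h2 : S_Y) .. : S_<Name>` (in the order of the docstring), namespace
`Pool.Agent.MP72S.S`, other declarations `private`; `C.S_..` are the statements of block C
(namespace `MP72S.C`), `D.S_..` those of block D, `MP72S.S_..` those of block A, `MP72W.S_..` those of
`W2`.

DECIDABILITY. The group law on the points depends on an instance of `DecidableEq`; for a general
field with `open scoped Classical` it is `Classical.propDecidable`, for `SeparableClosure K` and `↥Q`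
Lean finds another one. All are equal but not by definition. Remedy: prove everything for an
arbitrary instance `[I : DecidableEq L]` and use
`obtain rfl : I = fun a b => Classical.propDecidable (a = b) := Subsingleton.elim _ _`; the lemmas
`pm_add`, `pm_sub`, `pm_neg`, `pm_nsmul`, `pm_inj`, `pm_comp`, `pm_congr`, `pm_sq`, `pm_xy` of `Defs` hold
for all instances. In proofs we write `σ P` for `pmap W σ P` and `∂P` for `σ ↦ σ P - P`.
`K^s = SeparableClosure K`, `V` = the points of order two and `O`; they are the images of the points over `K`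
(`C.S_Vee`: `O`, `ee i`, coordinates `al a L i, 0`), so they are fixed by all `K`-homomorphisms.
-/

namespace Pool.Agent.MP72S.S

open Finset WeierstrassCurve Polynomial

open Pool.Agent.MP72W (pmap IsCoc LocTriv InSha ShaTwoFin XY px py)

open Pool.Agent.MP72S.C

open scoped Classical

/-! ### 1. Curves over fields closed under square roots -/

/-- **Dvo** (100 lines, uses `C.S_Vee`, `C.S_Dvn`). Division points over a field closed under square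
roots.

Proof. (1) `C.S_Dvn` (1). (2) Induction on `k`. `k = 0`: `P = R`. `k + 1`: by (1) `R = 2 • R₁`; then
`2 • (2 ^ k • P' - f R₁) = 0`, so by `C.S_Vee` (2) `2 ^ k • P' - f R₁` is `O` or `ee i = f (ee i)` (`f` maps the
point `(al a Ω i, 0)` to `(al a Ω' i, 0)`; `C.S_Vee` (1)), i.e. `= f T` with `2 • T = 0`, and
`2 ^ k • P' = f (R₁ + T)`. By induction `P' = f P`, `2 ^ k • P = R₁ + T`, and
`2 ^ (k + 1) • P = 2 • R₁ = R`. (`Hyp a Ω'` follows from `Hyp a Ω` as `f` is injective.) -/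
def S_Dvo : Prop :=
  ∀ (K : Type) [Field K] (a : Fin 3 → K) (Ω Ω' : Type) [Field Ω] [Field Ω'] [Algebra K Ω]
    [Algebra K Ω'] [DecidableEq Ω] [DecidableEq Ω'] (f : Ω →ₐ[K] Ω'), Hyp a Ω → QC Ω →
    (∀ P : PA a Ω, ∃ P' : PA a Ω, 2 • P' = P) ∧
    ∀ (k : ℕ) (P' : PA a Ω') (R : PA a Ω), 2 ^ k • P' = pmap (Wa a) f R →
      ∃ P : PA a Ω, pmap (Wa a) f P = P' ∧ 2 ^ k • P = R

/-- **Trn** (60 lines, uses `C.S_Grp`, `C.S_Vee`). Translation by a point of order two.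

Proof. `ee i = (α i, 0)` (`C.S_Vee` (1)), `C.S_Grp` (7) with `l = y / (x - α i)`:
`X = l ^ 2 + α 0 + α 1 + α 2 - x - α i = l ^ 2 + α j + α k - x` and `l ^ 2 = (x - α j) (x - α k) / (x - α i)`
(equation, `C.S_Grp` (2)), so `X - α i = (α i - α j) (α i - α k) / (x - α i)` (`field_simp`, `ring`). `{i, j, k} = {0, 1, 2}`
(`fin_cases`). -/
def S_Trn : Prop :=
  ∀ (K : Type) [Field K] (a : Fin 3 → K) (L : Type) [Field L] [Algebra K L], Hyp a L →
    ∀ i j k : Fin 3, i ≠ j → i ≠ k → j ≠ k → ∀ (P : PA a L) (x y : L), XY P x y →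
      x ≠ al a L i → ∃ y', XY (P + ee a i)
        (al a L i + (al a L i - al a L j) * (al a L i - al a L k) / (x - al a L i)) y'

/-- **Twt** (200 lines, uses `C.S_Grp`, `C.S_Vee`, `C.S_Twi`, `S_Dvo`). The quadratic twist.

Proof. Let `b = fun i => dd * a i`, `ϖ = δ` in `K^s` (`ϖ ^ 2 = dd`). `C.S_Twi` for `L = K^s`, `D = dd`,
`b = 0`, `π = 1`, `δ = ϖ` gives the isomorphism `φ : PA a K^s ≃ PA b K^s`,
`(x, y) ↦ (dd x, dd ϖ y)`. Put `θ n = φ (pmap (Q.val) (pt n))`, `Q.val : Q →ₐ[K] K^s`. `add`, `inj`, `tor` are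
clear (`pt` is additive and injective, `pt_mem`). `rng`: if `2 ^ k • P = 0`, `P = φ P₁`, then
`2 ^ k • P₁ = 0 = (image of O)`, so by `S_Dvo` (`Ω = Q`, `Ω' = K^s`) `P₁` is the image of a `P₂ ∈ PA a Q` with
`2 ^ k • P₂ = O`; `a = mkN P₂`. `eqv`: for `σ` in the absolute Galois group, `g = rs Q σ`:
`σ x = g x` for `x ∈ Q` (`AlgEquiv.restrictNormalHom_apply` / `restrictNormal_commutes`), so
`pmap σ (pmap Q.val (pt n)) = pmap Q.val (act a g (pt n))`. If `χ g = 0` then `σ ϖ = ϖ` and `σ φ(P) = φ(σ P)`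
(`C.S_Twi` (3)), `tw χ g n = g • n`. If `χ g = 1` then `σ ϖ = - ϖ`, `σ φ(P) = - φ(σ P)` and
`tw χ g n = - (g • n)`. -/
def S_Twt : Prop :=
  ∀ (K : Type) [Field K] (a : Fin 3 → K) (Q : IntermediateField K (SeparableClosure K))
    [Normal K Q], Hyp a K → QC Q → ∀ dd : K, dd ≠ 0 → ∀ (δ : Q) (χ : Gal(Q/K) → ZMod 2),
    δ ^ 2 = algebraMap K Q dd → (∀ g : Gal(Q/K), g δ = if χ g = 0 then δ else -δ) →
    ∃ θ : NN a Q → PA (fun i => dd * a i) (SeparableClosure K), Tht (Wa fun i => dd * a i) Q χ θ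

/-! ### 2. Local theory -/

/-- **Sq1** (80 lines). Elements close to `b` are `b` times a square.

Proof. `b ≠ 0`, `ε = a / b - 1`, `‖ε‖ < 1`. Let `η 0 = 0`, `η (n + 1) = (ε - (η n) ^ 2) / 2`. By induction
`‖η n‖ ≤ ‖ε‖`, and `η (n + 1) - η n = - (η n - η (n - 1)) (η n + η (n - 1)) / 2` gives
`‖η (n + 1) - η n‖ ≤ ‖ε‖ ^ (n + 1)`: a Cauchy sequence (`cauchySeq_of_le_geometric`). Its limit `η` satisfies
`2 η = ε - η ^ 2`, so `(1 + η) ^ 2 = 1 + ε` and `a = b (1 + η) ^ 2`. -/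
def S_Sq1 : Prop :=
  ∀ (L : Type) [NormedField L] [CompleteSpace L] [IsUltrametricDist L], ‖(2 : L)‖ = 1 →
    ∀ a b : L, ‖a - b‖ < ‖b‖ → ∃ s : L, a = b * s ^ 2

/-- **Tam** (200 lines, uses `C.S_Grp`, `C.S_Vee`, `C.S_Hal`, `S_Trn`, `S_Sq1`). At a tame place every
rational point is a point of order two plus `2` times a point.

Proof. `α i = al a L i`. (0) If `P = (x, y)` and all `x - α i` are squares, `x - α i = r i ^ 2`, then
`(r 0 r 1 r 2) ^ 2 = y ^ 2`; changing the sign of `r 0` we may suppose `r 0 r 1 r 2 = y`, and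
`P = Q + Q = O + 2 • Q` by `C.S_Hal`. Let `P ≠ O`, `P = (x, y)`, `u i = x - α i`. If some `u i = 0`: `P = ee i`
(`y = 0`), `T = P`. So let all `u i ≠ 0`; `u 0 u 1 u 2 = y ^ 2`, `y ≠ 0`; `u i - u j = α j - α i`.
(A) Some `‖u i‖ > M`: for all `j` `‖u j - u i‖ ≤ M < ‖u i‖`, so `u j = u i s j ^ 2` (`S_Sq1`), and
`y ^ 2 = u i ^ 3 (s 0 s 1 s 2) ^ 2`, so `u i = (y / (u i s 0 s 1 s 2)) ^ 2` is a square, and all `u j` are: (0).
(B) All `‖u i‖ ≤ M`. Not all are equal to `M`, otherwise `‖y‖ ^ 2 = M ^ 3` and `‖y / u 0‖ ^ 2 = M`. Let `k` be an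
index with `‖u k‖` minimal; `‖u k‖ < M`. CLAIM: `‖u k‖ < ‖α k - α j‖` for both `j ≠ k`. Suppose
`‖α k - α j‖ ≤ ‖u k‖` for some `j ≠ k`, and let `l` be the third index. By hypothesis (for `k`) some
`‖α k - α j'‖ = M`, and `j' ≠ k, j`, so `‖α k - α l‖ = M`. `u l = u k + (α k - α l)` has norm `M`;
`u j = u k + (α k - α j)` has norm at most `‖u k‖`, so `‖u j‖ = ‖u k‖` by minimality, and
`‖y‖ ^ 2 = ‖u k‖ ^ 2 M`, `‖y / u k‖ ^ 2 = M`: contradiction. So for `j ≠ k` `u j = (α k - α j) s j ^ 2`, `s j ≠ 0`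
(`S_Sq1`: `‖u j - (α k - α j)‖ = ‖u k‖ < ‖α k - α j‖`). Let `P' = P + ee k = (x', y')` (`S_Trn`, `{k, j, l}`):
`x' - α k = (α k - α j) (α k - α l) / u k = u j u l / (u k (s j s l) ^ 2) = (y / (u k s j s l)) ^ 2`, and
`x' - α j = (x' - α k) + (α k - α j) = (α k - α j) (α k - α l + u k) / u k = (α k - α j) u l / u k =
u j u l / (u k s j ^ 2) = (y / (u k s j)) ^ 2`; the same for `l`. By (0) `P' = 2 • R`, so
`P = ee k + 2 • R` (`ee k + ee k = O`). -/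
def S_Tam : Prop :=
  ∀ (K : Type) [Field K] (a : Fin 3 → K) (L : Type) [NormedField L] [CompleteSpace L]
    [IsUltrametricDist L] [Algebra K L] [DecidableEq L], Hyp a L → ‖(2 : L)‖ = 1 → ∀ M : ℝ,
    (∀ c : L, ‖c‖ ^ 2 ≠ M) → (∀ i j, ‖al a L i - al a L j‖ ≤ M) →
    (∀ i, ∃ j, ‖al a L i - al a L j‖ = M) →
    ∀ P : PA a L, ∃ T R : PA a L, 2 • T = 0 ∧ P = T + 2 • R

/-- **Ine** (150 lines, uses `C.S_Grp`, `C.S_Vee`, `C.S_Hal`). At a good place inertia fixes the division points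
of the fixed points.

Proof. Induction on `k`; it suffices to prove the case `k = 1`: if `τ (2 • P) = 2 • P` then `τ P = P` (for
`k + 1`: `2 ^ (k + 1) • P = 2 • (2 ^ k • P)`, so `2 ^ k • P` is fixed). (a) If `w ^ 2 = u`, `τ u = u` and
`v u = v c ^ 2` with `τ c = c`, then `τ w = w`: if `u = 0` clear; otherwise `c ≠ 0`, `w' = w / c`, `v w' = 1`,
`τ w' = ± w'`, and `τ w' = - w'` is impossible since `v (τ w' - w') < 1` and `v (- 2 w') = 1`. Let
`P' = 2 • P`. If `P' = O`: `P ∈ V` is fixed. Let `P' = (x, y)`, `τ x = x`, `τ y = y`, `u i = x - α i`, fixed by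
`τ`, `u 0 u 1 u 2 = y ^ 2`. (b) `v (u i) = v c ^ 2` with `c` fixed: if `v x > 1`, then `v (u j) = v x` for
all `j`, `v x ^ 3 = v y ^ 2`, `v x = v (y / x) ^ 2`. If `v x ≤ 1` all `v (u j) ≤ 1`; if `v (u i) = 1` take
`c = 1`; if `v (u i) < 1`, then `v (u j) = v (α i - α j) = 1` for `j ≠ i` and `v (u i) = v y ^ 2`. So choose
`r i ^ 2 = u i` (`QC`), `r 0 r 1 r 2 = y` (sign of `r 0`); by (a) `τ (r i) = r i`. By `C.S_Hal` there is
`P₁` with `P₁ + P₁ = P'` whose coordinates are polynomials in `x`, `r i`, so `τ P₁ = P₁`, and `P - P₁ ∈ V` is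
fixed. -/
def S_Ine : Prop :=
  ∀ (K : Type) [Field K] (a : Fin 3 → K) (Ω : Type) [Field Ω] [Algebra K Ω] [DecidableEq Ω]
    (v : AbsoluteValue Ω ℝ) (τ : Ω →ₐ[K] Ω), Hyp a Ω → QC Ω → IsNonarchimedean v → v 2 = 1 →
    (∀ x, v x ≤ 1 → v (τ x - x) < 1) → (∀ i, v (al a Ω i) ≤ 1) →
    (∀ i j, i ≠ j → v (al a Ω i - al a Ω j) = 1) →
    ∀ (k : ℕ) (P : PA a Ω), pmap (Wa a) τ (2 ^ k • P) = 2 ^ k • P → pmap (Wa a) τ P = P

/-- **Unr** (200 lines, uses `D.S_Re`, `S_Ine`). Locally trivial cocycles are unramified at the good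
places.

Proof. Let `K_v = av.Completion`, `Ω = K_v^s = SeparableClosure K_v`, `n, ι, τ, φ` as in `LocC`, and `Q₀` the point of
`LocTriv` for `ι`: `ι (z σ₁) = τ₁ Q₀ - Q₀` if `τ₁ ι = ι σ₁`. For every `τ₁ ∈ Gal(K_v^s/K_v)` there is such a
`σ₁ ∈ Gal(K^s/K)` (`D.S_Re` (2) for the extension `K^s / K` and `ι`), so `2 ^ k • (τ₁ Q₀ - Q₀) = ι (2 ^ k • z σ₁) = O`
and `2 ^ k • Q₀` is fixed by `Gal(K_v^s/K_v)`; so for `τ₁ = τ` `τ (2 ^ k • Q₀) = 2 ^ k • Q₀`. `Ω` is closed under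
square roots (`IsSepClosed`, `X ^ 2 - a` is separable for `a ≠ 0`, `2 ≠ 0`). `S_Ine` for `Ω`, the absolute value `n` and
`τ` (as a `K`-homomorphism; `n (al a Ω i) = ‖algebraMap (a i)‖ = av (a i)`, `Good`) gives `τ Q₀ = Q₀`. Let `σ₁` belong to
`τ`: `ι (z σ₁) = O`, so `z σ₁ = O` (`pm_inj`). Finally `rs Q σ₁ = g`: for `x ∈ Q` `ι (σ₁ x) = τ (ι x) = ι (g x)`, so
`σ₁ x = g x`, and `rs Q σ₁ x = σ₁ x` (`AlgEquiv.restrictNormalHom_apply` or `restrictNormal_commutes`). -/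
def S_Unr : Prop :=
  ∀ (K : Type) [Field K] (Q : IntermediateField K (SeparableClosure K)) [Normal K Q]
    (a : Fin 3 → K), Hyp a K → ∀ (av : AbsoluteValue K ℝ) (g h : Gal(Q/K)), LocC Q av g h →
    Good av a → ∀ z, IsCoc (Wa a) z → (∃ k : ℕ, ∀ σ, 2 ^ k • z σ = 0) →
      LocTriv (Wa a) z av.Completion → ∃ σ : Gal(SeparableClosure K/K), rs Q σ = g ∧ z σ = 0

/-- **Trm** (200 lines, uses `D.S_Re`, `S_Dvo`, `S_Tam`). Locally trivial cocycles at the tame places.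

Proof. `K_v`, `K_v^s`, `ι`, `τ`, `φ`, `Q₀` as in `S_Unr`. As there `2 ^ k • Q₀` is fixed by `Gal(K_v^s/K_v)`, so its
coordinates are in `K_v` (`K_v^s / K_v` is Galois: `InfiniteGalois.mem_bot_iff_fixed` or similar): `2 ^ k • Q₀` is the
image of an `R₀ ∈ PA a K_v` (nonsingularity over `K_v`: `WeierstrassCurve.Affine.baseChange_nonsingular`, or
`C.S_Grp` (3)). The hypotheses of `S_Tam` for `L = K_v`: `Hyp a K_v`; `‖c‖ ^ 2 ≠ M` from `LocC` (4) and `Tame` (for `c = 0`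
use `av 0 ^ 2 ≠ M`). So `PA a K_v = V + 2 PA a K_v`, and by induction on `k` `R₀ = T + 2 ^ k • R` with `2 • T = 0`
(`T + 2 ^ k • (T' + 2 • R')`: for `k ≥ 1` `2 ^ k • T' = 0`; for `k = 0` `T = 0`, `R = R₀`). Let
`Q₁ = Q₀ - (image of R)`: `2 ^ k • Q₁` is the image of `T`, so `2 ^ (k + 1) • Q₁ = O`. By `S_Dvo` for `Ω = K^s`,
`Ω' = K_v^s`, `f = ι` (`K^s` is closed under square roots; `R = O` there) `Q₁ = ι R₂` with `2 ^ (k + 1) • R₂ = O`.
For `τ₁ ι = ι σ₁`: `ι (z σ₁) = τ₁ Q₀ - Q₀ = τ₁ Q₁ - Q₁` (the image of `R` is fixed by `τ₁`)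
`= τ₁ (ι R₂) - ι R₂ = ι (σ₁ R₂ - R₂)`, so `z σ₁ = σ₁ R₂ - R₂`. Apply this to the `σ₁` of `τ` and of `φ`
(`D.S_Re`); `rs Q σ = g`, `rs Q σ' = h` as in `S_Unr`. -/
def S_Trm : Prop :=
  ∀ (K : Type) [Field K] (Q : IntermediateField K (SeparableClosure K)) [Normal K Q]
    (a : Fin 3 → K), Hyp a K → ∀ (av : AbsoluteValue K ℝ) (g h : Gal(Q/K)), LocC Q av g h →
    Tame av a → ∀ z, IsCoc (Wa a) z → (∃ k : ℕ, ∀ σ, 2 ^ k • z σ = 0) →
      LocTriv (Wa a) z av.Completion →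
      ∃ (R : PA a (SeparableClosure K)) (m : ℕ) (σ σ' : Gal(SeparableClosure K/K)),
        2 ^ m • R = 0 ∧ rs Q σ = g ∧ rs Q σ' = h ∧
        z σ = pmap (Wa a) (σ : SeparableClosure K →ₐ[K] SeparableClosure K) R - R ∧
        z σ' = pmap (Wa a) (σ' : SeparableClosure K →ₐ[K] SeparableClosure K) R - R

/-- **Nrc** (120 lines, uses `D.S_Lc`, `D.S_Ln`, `D.S_Fg`, `D.S_QG`, `D.S_Kk`). Integral elements are near to
constants.

Proof. `L = Kvs v`. Let `nm x ≤ 1`, `f` the minimal polynomial of `x` over `K_v`, `m` its degree. Then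
`‖f.coeff i‖ ≤ 1` for all `i`: `nm x = spectralValue f = ⨆ i, spectralValueTerms f i`
(`le_ciSup (spectralValueTerms_bddAbove f) i`, `spectralValueTerms f i = ‖f.coeff i‖ ^ (1 / (m - i))` for `i < m`). By
`D.S_Lc` (7) choose `c i ∈ K_v` with `c i ^ Q = c i` (`Q = q ^ d`, `d ≥ 1`), `‖f.coeff i - c i‖ < 1`, `c m = 1`. Let
`ι : Kgs F → L` be an embedding over `K` (`IsSepClosed.lift`) and `j : kF F → Qf F → Kgs F → L` the composition, a
ring homomorphism. Every constant of `L` is in the image of `j`: it is `ι c'` with a constant `c'` of `Kgs F`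
(`D.S_Fg` (2)), `c' ∈ Qf F` (`D.S_QG` (2)) and in `kF F` (`D.S_Kk` (2)); conversely `j c` is a constant. So there is a monic
`f₁ ∈ (kF F)[X]` of degree `m` with `j (f₁.coeff i) = ` the image of `c i`; `kF F` is algebraically closed
(`D.S_Kk` (1)), so `f₁ = ∏ (X - b_l)`. `nm (∑ c i x ^ i) = nm (∑ (c i - f.coeff i) x ^ i) < 1` (ultrametric) and
`∑ c i x ^ i = ∏ (x - j b_l)`, so `nm (x - j b_l) < 1` for some `l`. -/
def S_Nrc : Prop :=
  ∀ (F : Type) [Field F] [Finite F] (v : AbsoluteValue (RatFunc F) ℝ) (d : ℕ)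
    (ϖ : RatFunc F) (R : Finset (RatFunc F)), MP72W.LF v d ϖ R →
    ∀ x : MP72W.Kvs v, MP72W.nm v x ≤ 1 →
      ∃ c ∈ MP72W.Cst (Nat.card F) (MP72W.Kvs v), MP72W.nm v (x - c) < 1

/-- **Ldc** (80 lines, uses `D.S_Lf`, `D.S_Lc`, `D.S_Ln`, `D.S_Rq`, `S_Nrc`). The local data of block D.

Proof. `IsPl` gives `LF` (`D.S_Lf`), so `D.S_Lc` (3), (1); `‖2‖ = 1`: `2` is the image of a nonzero constant of `F`
(`LF.one`); (4): `‖x‖ = v ϖ ^ n = v (ϖ ^ n)`. `n` = the absolute value given by `nm A.av` (`D.S_Ln` (1)-(4)), extending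
the norm (5), so `n 2 = 1`. `ι = A.emb`, `τ = A.t`, `φ = A.f`. Inertia: for `nm x ≤ 1` let `c` be a constant with
`nm (x - c) < 1` (`S_Nrc`); `t c = c` (`Lcd.Ok.tg`), so `t x - x = t (x - c) - (x - c)`, and `t` is an isometry
(`D.S_Ln` (6)). The last two: `D.S_Rq` (1) (`A.eQ x = A.emb x`). -/
def S_Ldc : Prop :=
  ∀ (F : Type) [Field F] [Finite F], (2 : F) ≠ 0 → ∀ (w : Option F[X]) (A : D.Lcd F), A.Ok w →
    LocC (D.Qf F) A.av (A.rQ A.t) (A.rQ A.f)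

/-! ### 3. Cocycles -/

/-- **NoQ** (150 lines). `Gal(K^s/Q)` has no homomorphisms to groups of order a power of two.

Proof. Let `H = Q.fixingSubgroup` (closed). First let `A = ZMod 2` (`h : Gal → ZMod 2` locally constant, additive
on `H`). `U = {σ ∈ H | h σ = 0}` is a subgroup, closed. Suppose `σ ∈ H`, `h σ ≠ 0`. By the infinite Galois
correspondence (`InfiniteGalois.fixingSubgroup_fixedField` for the closed subgroup `U`; `K^s / K` is Galois)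
there is `b ∈ K^s` fixed by `U` with `σ b ≠ b`. `c = b - σ b ≠ 0`. For `τ ∈ U`: `σ⁻¹ τ σ ∈ U`, so
`τ (σ b) = σ b` and `τ c = c`; `σ ^ 2 ∈ U`, so `σ c = σ b - b = - c`. So `c ^ 2` is fixed by `U` and `σ`, hence by
`H` (`ρ ∈ H`: `h ρ = 0` or `h (σ⁻¹ ρ) = 0`), so `c ^ 2 ∈ Q` (`InfiniteGalois.fixedField_fixingSubgroup`). By `QC Q`
`c ^ 2 = y ^ 2`, `y ∈ Q`, so `c = ± y ∈ Q` and `σ c = c`, `2 c = 0`, `c = 0`: contradiction. General case: suppose
that `h` is not `0` on `H`, let `k` be minimal with `2 ^ k • h = 0` on `H`, `k ≥ 1`, and `h₁ = 2 ^ (k - 1) • h`,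
with values on `H` in `A₂ = {x | 2 • x = 0}`, `h₁ τ₀ ≠ 0` for some `τ₀ ∈ H`. `A₂` is a vector space over `ZMod 2`
(`AddCommGroup.zmodModule`), so there is an additive `l : A₂ → ZMod 2` with `l (h₁ τ₀) ≠ 0`
(`Module.forall_dual_apply_eq_zero_iff`); apply the first case to `l ∘ h₁` (extended by `0` where `h₁` is not in
`A₂`). -/
def S_NoQ : Prop :=
  ∀ (K : Type) [Field K] (Q : IntermediateField K (SeparableClosure K)), (2 : K) ≠ 0 → QC Q →
    ∀ (A : Type) [AddCommGroup A] (h : Gal(SeparableClosure K/K) → A), IsLocallyConstant h →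
    (∀ σ ∈ Q.fixingSubgroup, ∀ τ ∈ Q.fixingSubgroup, h (σ * τ) = h σ + h τ) →
    (∃ k : ℕ, ∀ σ ∈ Q.fixingSubgroup, 2 ^ k • h σ = 0) → ∀ σ ∈ Q.fixingSubgroup, h σ = 0

/-- **Inf** (150 lines, uses `S_NoQ`). Cocycles with values in the `2`-power torsion come from `Gal(Q/K)`.

Proof. By `Tht.rng` `z σ = θ (z' σ)`; `z'` is locally constant (`θ` is injective), `2 ^ k • z' σ = 0`, and by
`Tht.eqv`, `add`, `inj`: `z' (σ τ) = z' σ + tw χ (rs Q σ) (z' τ)`. For `σ ∈ Q.fixingSubgroup` we have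
`rs Q σ = 1` and `tw χ 1 n = n` (`Tht.eqv` for the identity and `inj`). So `z'` is additive on
`Q.fixingSubgroup`, and `0` there by `S_NoQ`. If `rs Q σ = rs Q σ'`, then `σ' = σ τ` with `τ ∈ Q.fixingSubgroup` and
`z' σ' = z' σ + tw χ _ 0 = z' σ`. `rs Q` is surjective (`AlgEquiv.restrictNormalHom_surjective`); define
`ψ g = z' (a preimage)`, so `ψ (rs Q σ) = z' σ`; cocycle: clear (`tw χ (rs Q σ)`). Locally constant: `rs Q` is
continuous (`InfiniteGalois.restrictNormalHom_continuous`), surjective, from a compact to a Hausdorff space, so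
a quotient map (`IsQuotientMap`, `Continuous.isClosedMap`), and `ψ ∘ rs Q = z'` is locally constant. -/
def S_Inf : Prop :=
  ∀ (K : Type) [Field K] (W : WeierstrassCurve K)
    (Q : IntermediateField K (SeparableClosure K)) [Normal K Q] (N : Type) [AddCommGroup N]
    [DistribMulAction Gal(Q/K) N] (χ : Gal(Q/K) → ZMod 2)
    (θ : N → (W⁄(SeparableClosure K)).toAffine.Point), (2 : K) ≠ 0 → QC Q → Tht W Q χ θ →
    ∀ z, IsCoc W z → (∃ k : ℕ, ∀ σ, 2 ^ k • z σ = 0) →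
      ∃ ψ : Gal(Q/K) → N, IsLocallyConstant ψ ∧ IsCo χ ψ ∧
        (∃ k : ℕ, ∀ g, 2 ^ k • ψ g = 0) ∧ ∀ σ, θ (ψ (rs Q σ)) = z σ

/-- **Kum** (60 lines). The square root of `d₀ ∏ π (x i)`.

Proof. `δ = δ₀ ∏ δ (x i)` for the square roots in `GOk.ch0`, `GOk.chv`; for `g`: every factor is multiplied by
`1` or `-1` according to the value of its character, and `D.chi x g` is the sum of the characters in `ZMod 2`
(induction on the finite set of indices). -/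
def S_Kum : Prop :=
  ∀ (K : Type) [Field K] (a : Fin 3 → K) (Q : IntermediateField K (SeparableClosure K))
    (P ι : Type) [Fintype ι] (D : Dat Gal(Q/K) (NN a Q) P) (av : P → AbsoluteValue K ℝ)
    (π : P → K) (d₀ : K), GOk a Q D av π d₀ → ∀ x : ι → P, (∀ i, x i ≠ D.inf) →
    d₀ * ∏ i, π (x i) ≠ 0 ∧ ∃ δ : Q, δ ^ 2 = algebraMap K Q (d₀ * ∏ i, π (x i)) ∧
      ∀ g : Gal(Q/K), g δ = if D.chi x g = 0 then δ else -δ

/-- **Typ** (150 lines, uses `S_Unr`, `S_Trm`, `S_Inf`). The Selmer cocycle of a locally trivial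
cocycle.

Proof. `W = Wa (dd * a)`, `Hyp (dd * a) K` as `dd ≠ 0`. Let `z` be `InSha`, `2 ^ k • z = 0`, and `ψ` as in `S_Inf`
(`χ = D.chi x`). At every place `v` `LocTriv W z (av v).Completion` (`GOk.ntr`) and `LocC` hold
(`g = D.tau v`, `h = D.phi v`). `IsU`: `lc`, `co`, `bd` are clear; `ur`: at `v ∉ range (D.pl x)` `S_Unr` gives
`σ` with `rs Q σ = D.tau v`, `z σ = 0`, so `θ (ψ (D.tau v)) = 0 = θ 0` and `ψ (D.tau v) = 0`. `lo`: for
`v = D.pl x j` let `R, σ, σ'` be as in `S_Trm`, `R = θ Q_j` (`Tht.rng`); `θ (ψ (D.tau v)) = z σ = σ R - R =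
θ (tw χ (D.tau v) Q_j - Q_j)` (`Tht.eqv`, `add`), so `ψ (D.tau v) = tw χ (D.tau v) Q_j - Q_j`, the same for
`D.phi v` with `σ'`. Put `t j = 2 • Q_j`. -/
def S_Typ : Prop :=
  ∀ (K : Type) [Field K] (a : Fin 3 → K) (Q : IntermediateField K (SeparableClosure K))
    [Normal K Q] (P ι : Type) [Fintype ι] (D : Dat Gal(Q/K) (NN a Q) P)
    (av : P → AbsoluteValue K ℝ) (π : P → K) (d₀ : K), GOk a Q D av π d₀ →
    ∀ (x : ι → P) (dd : K) (θ : NN a Q → PA (fun i => dd * a i) (SeparableClosure K)), dd ≠ 0 →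
    Tht (Wa fun i => dd * a i) Q (D.chi x) θ →
    (∀ v ∈ Set.range (D.pl x), Tame (av v) fun i => dd * a i) →
    (∀ v, v ∉ Set.range (D.pl x) → Good (av v) fun i => dd * a i) →
    TypOk (Wa fun i => dd * a i) Q D x θ

/-! ### 4. The group of the types and finiteness of Sha -/

/-- **Exs** (120 lines, uses `MP72S.S_Inj`, `MP72S.S_Uq`, `MP72S.S_Tin`, `MP72S.S_Tai`, `MP72S.S_Bas`). Exponent and
finiteness of the Selmer group from `Dk x L ≤ T`.

Proof. `ℓ = L - 1`. Write `c(u)` for the constant function `u`; `c(u) ∈ Z x` for all `u ∈ N` (`S_Tin` with a half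
`R` of `u`, `Ax.dvs`). (1) For `t ∈ Z x` there is `u` with `2 ^ ℓ • t = c(u)`: `2 ^ n • t = 0` for some `n` (`t j = 2 Q_j`,
`Ax.prim`, finitely many `j`); induction on `n`: `n ≤ ℓ`: `u = 0`. `n ≥ L`: `t' = 2 ^ (n - L) • t` is in
`Z x ⊓ tor L`, so `2 ^ (n - 1) • t = 2 ^ ℓ • t' ∈ D.Dk x L ≤ D.T`, i.e. it is `c(s)`, `2 s = 0`. Choose `w` with
`2 ^ (n - 1) • w = s`; then `2 ^ (n - 1) • (t - c(w)) = 0`, and by induction `2 ^ ℓ • (t - c(w)) = c(u')`,
`u = u' + 2 ^ ℓ • w`. (2) Let `IsZ x t ψ`, `2 ^ ℓ • t = c(u)`, `u = 2 ^ ℓ • w`, `w = 2 • R`. Then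
`ψ₁ = ψ - (tw R - R)` is a Selmer cocycle of type `t₁ = t - c(w)` (`S_Tin`, `IsZ.add`, `IsZ.neg`) and
`2 ^ ℓ • t₁ = 0`, so `2 ^ ℓ • ψ₁`, of type `0`, is `0` by `S_Inj` (`IsZ` of `2 ^ ℓ • ψ₁`: multiples of `IsZ`, or `S_Uq`).
(3) Finiteness: the `ψ` with `IsZ x t ψ`, `2 ^ ℓ • ψ = 0`: the type `2 ^ ℓ • t` belongs to `0`; by `D.Ok` and (1) we may
use: `ψ` is determined by its type `t` (`S_Inj`), and `2 ^ (ℓ + 1) • t = 0`: at `j` `2 ^ ℓ • Q_j` is fixed by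
`tw (tau)`, `tw (phi)` (since `2 ^ ℓ • ψ = 0`), so `2 • 2 ^ ℓ • Q_j = 0` by `Ok.tame` for `j = inl s`, and for
`j = inr i` because `tw (tau (x i)) R = - R` (`S_Tai` or directly from `Ax`), so `2 ^ ℓ • t j = 0`. So `t` is in the
finite set of the functions `D.J ι → {y | 2 ^ ℓ • y = 0}` (`S_Bas` (2)). (Alternatively choose for every type one cocycle.)
-/
def S_Exs : Prop :=
  ∀ {G N P ι : Type} [Group G] [TopologicalSpace G] [AddCommGroup N] [DistribMulAction G N]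
    [Fintype ι] [DecidableEq ι] (D : Dat G N P), Ax D → ∀ x : ι → P, D.Ok x → ∀ L : ℕ, 1 ≤ L →
    D.Dk x L ≤ D.T ι →
    {ψ : G → N | (∃ t, D.IsZ x t ψ) ∧ ∀ σ, 2 ^ (L - 1) • ψ σ = 0}.Finite ∧
    ∀ t (ψ : G → N), D.IsZ x t ψ → ∃ (ψ₁ : G → N) (R : N), (∃ t₁, D.IsZ x t₁ ψ₁) ∧
      (∀ σ, 2 ^ (L - 1) • ψ₁ σ = 0) ∧ ∀ σ, ψ σ = ψ₁ σ + (tw (D.chi x) σ R - R)

/-- **Sfn** (200 lines, uses `MP72W.S_Shg`, `S_Dvo`, `S_Exs`). Finiteness of `Sha[2^∞]` and divisibility of the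
rational points.

Proof. `K^s` is closed under square roots (`2 ≠ 0`), so the points over `K^s` are divisible by `2` (`S_Dvo` (1)).
`χ = D.chi x`, `ℓ = L - 1`.
(1) `ShaTwoFin`: `T` = the set of the `σ ↦ θ (ψ₁ (rs Q σ))` for `ψ₁` in the finite set of `S_Exs`. Let `z` be `InSha`,
`2 ^ n • z = ∂P`. Choose `P'` with `2 ^ n • P' = P`; `z' = z - ∂P'` is `InSha` (`S_Shg`) and `2 ^ n • z' = 0`. By `TypOk`
`z' = θ ∘ ψ ∘ rs Q`, `ψ` a Selmer cocycle, and `ψ = ψ₁ + (tw R - R)` by `S_Exs`; so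
`z' σ = θ (ψ₁ (rs Q σ)) + (σ (θ R) - θ R)` (`Tht.eqv`, `Tht.add`), and `z - θ ∘ ψ₁ ∘ rs Q = ∂(P' + θ R)`.
(2) Let `e ∈ PA b K`, `e₁` its image over `K^s` (fixed by the Galois group), `P` with `2 ^ L • P = e₁`.
`z = ∂P` is `InSha` (`S_Shg`), `2 ^ L • z = 0`. As before `z = θ ∘ ψ₁ ∘ rs Q + ∂(θ R)` and `2 ^ ℓ • z = ∂(2 ^ ℓ • θ R)`.
So `P' = 2 ^ ℓ • P - 2 ^ ℓ • θ R` is fixed by the Galois group, i.e. the image of some `e' ∈ PA b K`
(`K^s / K` is Galois, as in `S_Unr`). `2 • P' = e₁ - 2 ^ L • θ R`. The point `S = 2 ^ L • θ R = θ (2 ^ L • R) =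
e₁ - 2 • P'` is fixed by the Galois group, so `2 ^ L • R` is fixed by all `tw χ g` (`rs Q` is surjective,
`Tht.eqv`, `inj`), and `2 • 2 ^ L • R = 0` by `Ok.tame` for `D.inf ∈ D.S` (`Ax.infS`). So `2 • S = 0` and
`2 • e₁ = 4 • P'`, hence `2 • e = 4 • e'` (`pm_inj`). -/
def S_Sfn : Prop :=
  ∀ (K : Type) [Field K] (b : Fin 3 → K) (Q : IntermediateField K (SeparableClosure K))
    [Normal K Q] (N P ι : Type) [AddCommGroup N] [DistribMulAction Gal(Q/K) N] [Fintype ι]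
    [DecidableEq ι] (D : Dat Gal(Q/K) N P) (x : ι → P)
    (θ : N → PA b (SeparableClosure K)), Hyp b K → Tht (Wa b) Q (D.chi x) θ → Ax D → D.Ok x →
    TypOk (Wa b) Q D x θ → ∀ L : ℕ, 1 ≤ L → D.Dk x L ≤ D.T ι →
    ShaTwoFin (Wa b) ∧ ∀ e : PA b K, ∃ e' : PA b K, 2 • e = 4 • e'

/-! ### 5. Heights -/

/-- **Hpl** (150 lines). The height of `(X ^ 2 - a b Z ^ 2) ^ 2 / (4 X Z (X + a Z) (X + b Z))`.

Proof. `f = (X ^ 2 - a b Z ^ 2) ^ 2`, `g₁ = X Z (X + a Z) (X + b Z)`, `σ = a + b`, `π = a b`, `κ = π ^ 2 (a - b) ^ 2 ≠ 0`.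
The identities (both by `ring`)
(I) `κ Z ^ 7 = Z ((a - b) ^ 2 Z ^ 2 - 2 σ X Z - 3 X ^ 2) f + (3 X ^ 3 - σ X ^ 2 Z - 5 π X Z ^ 2 + 2 π σ Z ^ 3) g₁`,
(II) `(a - b) ^ 2 X ^ 7 = X ((a - b) ^ 2 X ^ 2 - 2 σ π X Z - 3 π ^ 2 Z ^ 2) f +
π (3 π ^ 2 Z ^ 3 - σ π X Z ^ 2 - 5 π X ^ 2 Z + 2 σ X ^ 3) g₁`.
Let `r = f / (4 g₁) = num / denom`, coprime: `f * denom = 4 g₁ * num`, so `4 g₁ = denom * w`, `f = num * w`. `w` divides
`κ Z ^ 7` and `κ X ^ 7`, and `X ^ 7`, `Z ^ 7` are coprime, so `w ∣ κ` and `deg w ≤ deg κ`. So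
`max (deg f) (deg g₁) ≤ deg κ + max (deg num) (deg denom)` (`4` is a nonzero constant). Let
`m = max (deg X) (deg Z)` and `c` a bound for the degrees of the coefficients of the cofactors in (I), (II)
(polynomials in `a, b`). If `deg Z = m`: (I) gives `7 m ≤ 3 m + c + max (deg f) (deg g₁)`. If `deg X = m > deg Z` then
`X ≠ 0` and (II) gives the same. `B = c + deg κ`. -/
def S_Hpl : Prop :=
  ∀ (F : Type) [Field F] (a b : F[X]), (2 : F) ≠ 0 → a ≠ 0 → b ≠ 0 → a ≠ b → ∃ B : ℕ,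
    ∀ (X Z : F[X]) (r : RatFunc F), IsCoprime X Z → Z ≠ 0 →
      4 * X * Z * (X + a * Z) * (X + b * Z) ≠ 0 →
      r * algebraMap F[X] (RatFunc F) (4 * X * Z * (X + a * Z) * (X + b * Z)) =
        algebraMap F[X] (RatFunc F) ((X ^ 2 - a * b * Z ^ 2) ^ 2) →
      4 * max X.natDegree Z.natDegree ≤ max r.num.natDegree r.denom.natDegree + B

/-- **Hdb** (200 lines, uses `C.S_Grp`, `C.S_Vee`, `C.S_Prd`, `S_Hpl`). Heights and doubling.

Proof. Let `δ` be (the image of) a nonzero polynomial with `a = δ (e 0 - e 1)`, `b = δ (e 0 - e 2)` polynomials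
(the product of the denominators); `a, b ≠ 0`, `a ≠ b`. For `P ≠ O` let `u = px P - e 0`, `U = δ u`,
`h P = hgt δ (e 0) P = max (deg num U) (deg denom U)`. (1) If `P + P = O` (finitely many `P`, by `C.S_Vee`): choose
`B ≥ 4 h P`. Let `P + P ≠ O`. By `C.S_Prd` (2) with `i = 0`:
`(px (P + P) - e 0) (2 y) ^ 2 = (u ^ 2 - (e 0 - e 1) (e 0 - e 2)) ^ 2`, `y ^ 2 = u (u + (e 0 - e 1)) (u + (e 0 - e 2))`
(`C.S_Grp` (2)), `y ≠ 0`. Multiply by `δ ^ 4`: with `U' = δ (px (P + P) - e 0)`: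
`U' * 4 U (U + a) (U + b) = (U ^ 2 - a b) ^ 2`. Let `U = X / Z` (`num`, `denom`): multiply by `Z ^ 4`:
`U' * 4 X Z (X + a Z) (X + b Z) = (X ^ 2 - a b Z ^ 2) ^ 2`: `S_Hpl` with `r = U'`. (2) `F` is finite, so there are
finitely many `U` with `num`, `denom` of degree at most `n`, hence finitely many `x = U / δ + e 0`, and at most
two points for every `x` (`C.S_Grp` (6)). (3) `C.S_Vee` (2). -/
def S_Hdb : Prop :=
  ∀ (F : Type) [Field F] [Finite F] (e : Fin 3 → RatFunc F), Hyp e (RatFunc F) →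
    ∃ δ : RatFunc F, δ ≠ 0 ∧
    (∃ B : ℕ, ∀ P : PA e (RatFunc F), 4 * hgt δ (e 0) P ≤ hgt δ (e 0) (P + P) + B) ∧
    (∀ n : ℕ, {P : PA e (RatFunc F) | hgt δ (e 0) P ≤ n}.Finite) ∧
    {P : PA e (RatFunc F) | P + P = 0}.Finite

/-- **Hgt** (100 lines). Abstract height argument.

Proof. Let `M = {2 • P | P}` (a subgroup). `M = 2 M`: for `P` choose `P'` with `2 • P = 4 • P' = 2 • (2 • P')`. So
every `X ∈ M` is `2 • X'` with `X' ∈ M`, and `4 h X' ≤ h X + B`. Let `A₀ = {X ∈ M | h X ≤ B}` (finite; if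
`h X ≤ B` then `h X' ≤ B / 2 ≤ B`). So `X' ∈ A₀` for `X ∈ A₀`: the map `A₀ ∩ {X' | 2 • X' ∈ A₀} → A₀`,
`X' ↦ 2 • X'`, is surjective; `A₀` is finite, so the set on the left is `A₀` and `2 A₀ = A₀`. By strong
induction on `h X` every `X ∈ M` is in `A₀`: if `h X > B` then `h X' ≤ (h X + B) / 4 < h X`, so `X' ∈ A₀` and
`X = 2 • X' ∈ A₀`. So `M` is finite, and `P ↦ 2 • P` has finite fibres (cosets of `{P | P + P = 0}`). -/
def S_Hgt : Prop :=
  ∀ (A : Type) [AddCommGroup A] (h : A → ℕ) (B : ℕ), (∀ P, 4 * h P ≤ h (P + P) + B) →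
    (∀ n : ℕ, {P | h P ≤ n}.Finite) → {P : A | P + P = 0}.Finite →
    (∀ P : A, ∃ P', 2 • P = 4 • P') → Finite A

/-! ### 6. The places of `F(t)` and the main theorem of the block -/

/-- **Plt** (150 lines). The conditions `Tame` and `Good` for `F(t)`.

Proof. `m(f)` = the multiplicity of `p` in `f`, `v (f) = 2 ^ (- m(f))` for a polynomial `f ≠ 0` (`IsPl`),
`e i - e j = D (a i - a j)`, `m (f g) = m(f) + m(g)`. (1) Let `m i j = m (D (a i - a j))`, `i ≠ j`. By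
`m (f + g) ≥ min` the minimum `μ` of the three values `m 0 1, m 0 2, m 1 2` is attained at least twice, so there
is `k` with `m k i = μ` for both `i ≠ k`; by hypothesis (for `k`) `μ` is odd. `M = 2 ^ (- μ)`:
`v (e i - e j) ≤ M`, and for every `i` some `j` gives equality (`j = k`, or any `j` for `i = k`). `v c ^ 2 ≠ M`:
`v 0 = 0`, `v c = 2 ^ n` with `n ∈ ℤ` for `c ≠ 0` (quotient of polynomials) and `2 n = - μ` is impossible. (2) the same
with degrees: `v (f) = 2 ^ deg f`, the maximum of the degrees of the three differences is attained at least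
twice, `M = 2 ^ (deg D + max)`. (3) `v` of a polynomial is at most `1`, and `1` if `p` does not divide it. -/
def S_Plt : Prop :=
  ∀ (F : Type) [Field F] (a : Fin 3 → F[X]) (D : F[X]), Function.Injective a → D ≠ 0 →
    (∀ (p : F[X]) (v : AbsoluteValue (RatFunc F) ℝ), MP72W.IsPl (some p) v →
      (∀ i, ∃ j, j ≠ i ∧ Odd (multiplicity p D + multiplicity p (a i - a j))) →
      Tame v fun i => algebraMap F[X] (RatFunc F) D * algebraMap F[X] (RatFunc F) (a i)) ∧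
    (∀ v : AbsoluteValue (RatFunc F) ℝ, MP72W.IsPl (none : Option F[X]) v →
      Odd (D.natDegree + univ.sup fun i : Fin 3 => univ.sup fun j : Fin 3 =>
        (a i - a j).natDegree) →
      Tame v fun i => algebraMap F[X] (RatFunc F) D * algebraMap F[X] (RatFunc F) (a i)) ∧
    ∀ (p : F[X]) (v : AbsoluteValue (RatFunc F) ℝ), MP72W.IsPl (some p) v → ¬ p ∣ D →
      (∀ i j, i ≠ j → ¬ p ∣ a i - a j) →
      Good v fun i => algebraMap F[X] (RatFunc F) D * algebraMap F[X] (RatFunc F) (a i)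

/-- **Gok** (100 lines, uses `MP72W.S_Av`, `D.S_QG`, `D.S_Km`, `S_Ldc`). The hypotheses `GOk` for the data of block
D.

Proof. `nrm`, `qc`: `D.S_QG` (1), (4). `ntr`: `MP72W.S_Av` (3). `loc`: `S_Ldc`. `pi0`: `P ≠ 0`. `chv`, `ch0`: a square
root by `D.S_QG` (4), `D.S_Km` (2). -/
def S_Gok : Prop :=
  ∀ (F : Type) [Field F] [Finite F] (A : D.Pl F → D.Lcd F), (2 : F) ≠ 0 → D.LDok F A →
    ∀ (a : Fin 3 → RatFunc F), Function.Injective a → ∀ (B : Dat (D.GQ F) (NN a (D.Qf F)) (D.Pl F))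
      (d₀ : RatFunc F), B.inf = none → (∀ w, B.tau w = (A w).rQ (A w).t) →
      (∀ w, B.phi w = (A w).rQ (A w).f) →
      (∀ P : {P : F[X] // P.Monic ∧ Irreducible P},
        B.ch (some P) = D.hK (algebraMap F[X] (RatFunc F) P.1)) →
      B.ch0 = D.hK d₀ → d₀ ≠ 0 →
      GOk a (D.Qf F) B (fun w => (A w).av)
        (fun w => match w with
          | none => 1
          | some P => algebraMap F[X] (RatFunc F) P.1) d₀

/-- **Main** (60 lines, uses `S_Kum`, `S_Twt`, `S_Typ`, `S_Sfn`, `S_Hdb`, `S_Hgt`). THE THEOREM OF BLOCK S.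

Proof. `dd = d₀ ∏ π (x i)`, `≠ 0`, and `δ` by `S_Kum` (`x i ∉ D.S`, `D.inf ∈ D.S`); `θ` by `S_Twt` (`χ = D.chi x`), `TypOk` by
`S_Typ`, then `S_Sfn` for `b = dd * a` (`Hyp b K`), and finiteness by `S_Hdb`, `S_Hgt` for `A = PA b (RatFunc F)`
(`(Wa b)⁄K = Wa b`). -/
def S_Main : Prop :=
  ∀ (F : Type) [Field F] [Finite F] (a : Fin 3 → RatFunc F)
    (Q : IntermediateField (RatFunc F) (SeparableClosure (RatFunc F))) (P ι : Type) [Fintype ι]
    [DecidableEq ι] (D : Dat Gal(Q/RatFunc F) (NN a Q) P) (av : P → AbsoluteValue (RatFunc F) ℝ)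
    (π : P → RatFunc F) (d₀ : RatFunc F), GOk a Q D av π d₀ → Ax D → ∀ x : ι → P, D.Ok x →
    (∀ v ∈ Set.range (D.pl x), Tame (av v) fun i => (d₀ * ∏ k, π (x k)) * a i) →
    (∀ v, v ∉ Set.range (D.pl x) → Good (av v) fun i => (d₀ * ∏ k, π (x k)) * a i) →
    ∀ L : ℕ, 1 ≤ L → D.Dk x L ≤ D.T ι →
      Finite (Wa fun i => (d₀ * ∏ k, π (x k)) * a i).toAffine.Point ∧
        ShaTwoFin (Wa fun i => (d₀ * ∏ k, π (x k)) * a i)

end Pool.Agent.MP72S.S
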