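import Pool.Agent.Lib.MP_72e2e6_nt.Sm.S.Spec

/-!
# MP_72e2e6_nt, `Sm`, block S, module Exs: exponent and finiteness of the Selmer group
-/

namespace Pool.Agent.MP72S.S

open Finset

private theorem exs_dvs {N : Type} [AddCommGroup N] (h : ∀ x : N, ∃ y : N, 2 • y = x) (n : ℕ) :
    ∀ x : N, ∃ y : N, 2 ^ n • y = x := by
  induction n with
  | zero => exact fun x => ⟨x, by rw [pow_zero, one_smul]⟩
  | succ n ih =>
    intro x
    obtain ⟨y, hy⟩ := ih x
    obtain ⟨z, hz⟩ := h y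
    exact ⟨z, by rw [pow_succ, mul_smul, hz, hy]⟩

private theorem exs_up {A : Type} [AddCommGroup A] {a : A} {m n : ℕ} (hmn : m ≤ n)
    (h : 2 ^ m • a = 0) : 2 ^ n • a = 0 := by
  obtain ⟨k, rfl⟩ := Nat.exists_eq_add_of_le hmn
  rw [pow_add, mul_comm, mul_smul, h, smul_zero]

section

variable {G N P ι : Type} [Group G] [TopologicalSpace G] [AddCommGroup N] [DistribMulAction G N]
  [Fintype ι] [DecidableEq ι] {D : Dat G N P} {x : ι → P}

private theorem exs_cst (h3 : MP72S.S_Tin) (hA : Ax D) (hx : D.Ok x) (u : N) :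
    (fun _ : D.J ι => u) ∈ D.Z x := by
  obtain ⟨R, hR⟩ := hA.dvs u
  exact ⟨_, h3 D hA x hx u R hR⟩

private theorem exs_bd (hA : Ax D) (t : D.J ι → N) : ∃ n : ℕ, 2 ^ n • t = 0 := by
  classical
  choose k hk using fun j => hA.prim (t j)
  refine ⟨univ.sup k, funext fun j => ?_⟩
  show 2 ^ univ.sup k • t j = 0
  exact exs_up (le_sup (f := k) (mem_univ j)) (hk j)

private theorem exs_one (h3 : MP72S.S_Tin) (hA : Ax D) (hx : D.Ok x) {L : ℕ} (hL : 1 ≤ L)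
    (hT : D.Dk x L ≤ D.T ι) (n : ℕ) : ∀ t ∈ D.Z x, 2 ^ n • t = 0 →
      ∃ u : N, 2 ^ (L - 1) • t = fun _ => u := by
  induction n with
  | zero =>
    intro t _ h
    rw [pow_zero, one_smul] at h
    exact ⟨0, by rw [h, smul_zero]; rfl⟩
  | succ n ih =>
    intro t ht h
    rcases Nat.lt_or_ge n (L - 1) with hn | hn
    · exact ⟨0, exs_up (by omega) h⟩
    · have e1 : L - 1 + (n + 1 - L) = n := by omega
      have e2 : L + (n + 1 - L) = n + 1 := by omega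
      have h5 : 2 ^ n • t ∈ D.Dk x L := by
        refine ⟨2 ^ (n + 1 - L) • t, ⟨(D.Z x).nsmul_mem ht _, ?_⟩, ?_⟩
        · show 2 ^ L • 2 ^ (n + 1 - L) • t = 0
          rw [← mul_smul, ← pow_add, e2, h]
        · show 2 ^ (L - 1) • 2 ^ (n + 1 - L) • t = 2 ^ n • t
          rw [← mul_smul, ← pow_add, e1]
      obtain ⟨s, hs, hs'⟩ := hT h5
      obtain ⟨w, hw⟩ := exs_dvs hA.dvs n s
      have hcw := exs_cst h3 hA hx w
      obtain ⟨u', hu'⟩ := ih (t - fun _ => w) ((D.Z x).sub_mem ht hcw) (by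
        rw [smul_sub, hs']
        funext j
        show s - 2 ^ n • w = 0
        rw [hw, sub_self])
      refine ⟨u' + 2 ^ (L - 1) • w, ?_⟩
      rw [smul_sub, sub_eq_iff_eq_add] at hu'
      rw [hu']
      rfl

end

theorem tExs (_h1 : MP72S.S_Inj) (h2 : MP72S.S_Uq) (h3 : MP72S.S_Tin) (h4 : MP72S.S_Tai)
    (h5 : MP72S.S_Bas) : S_Exs := by
  classical
  intro G N P ι _ _ _ _ _ _ D hA x hx L hL hT
  obtain ⟨q1, -, -, -, q5⟩ := h2 D hA x
  obtain ⟨-, -, -, -, a5, -⟩ := h4 D hA x hx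
  obtain ⟨-, b2, -⟩ := h5 D hA
  constructor
  · have hfin : {t : D.J ι → N | ∀ j, t j ∈ {y : N | 2 ^ (L - 1) • y = 0}}.Finite :=
      Set.Finite.pi' fun _ => b2 (L - 1)
    refine (hfin.image fun t => D.coc x t).subset ?_
    rintro ψ ⟨⟨t, ht⟩, hψ⟩
    refine ⟨t, ?_, funext fun σ => q1 t ψ ht σ⟩
    rintro (s | i)
    · obtain ⟨Q, hQ, hτ, hφ⟩ := ht.lo (Sum.inl s)
      show 2 ^ (L - 1) • t (Sum.inl s) = 0
      have e1 : tw (D.chi x) (D.tau s.1) (2 ^ (L - 1) • Q) = 2 ^ (L - 1) • Q := by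
        have h6 := hψ (D.tau s.1)
        have h7 : ψ (D.tau s.1) = tw (D.chi x) (D.tau s.1) Q - Q := hτ
        rw [h7, smul_sub, ← tw_nsmul, sub_eq_zero] at h6
        exact h6
      have e2 : tw (D.chi x) (D.phi s.1) (2 ^ (L - 1) • Q) = 2 ^ (L - 1) • Q := by
        have h6 := hψ (D.phi s.1)
        have h7 : ψ (D.phi s.1) = tw (D.chi x) (D.phi s.1) Q - Q := hφ
        rw [h7, smul_sub, ← tw_nsmul, sub_eq_zero] at h6
        exact h6
      have e3 := hx.tame s.1 s.2 (2 ^ (L - 1) • Q) e1 e2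
      rw [← hQ, ← mul_smul, mul_comm, mul_smul]
      exact e3
    · show 2 ^ (L - 1) • t (Sum.inr i) = 0
      have h6 := hψ (D.tau (x i))
      rw [a5 i t ψ ht, smul_neg, neg_eq_zero] at h6
      exact h6
  · intro t ψ ht
    obtain ⟨n, hn⟩ := exs_bd hA t
    obtain ⟨u, hu⟩ := exs_one h3 hA hx hL hT n t ⟨ψ, ht⟩ hn
    obtain ⟨w, hw⟩ := exs_dvs hA.dvs (L - 1) u
    obtain ⟨R, hR⟩ := hA.dvs w
    have h6 : D.IsZ x (fun _ => w) fun σ => tw (D.chi x) σ R - R := h3 D hA x hx w R hR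
    have h7 := ht.add h6.neg
    have h8 : 2 ^ (L - 1) • (t + -(fun _ : D.J ι => w)) = 0 := by
      rw [smul_add, hu]
      funext j
      show u + 2 ^ (L - 1) • (-w) = 0
      rw [smul_neg, hw, add_neg_cancel]
    refine ⟨fun σ => ψ σ + -(tw (D.chi x) σ R - R), R, ⟨_, h7⟩, fun σ => ?_, fun σ => ?_⟩
    · have h9 := q5 _ ⟨_, h7⟩ (L - 1) h8 σ
      rw [q1 _ _ h7 σ] at h9
      exact h9
    · show ψ σ = ψ σ + -(tw (D.chi x) σ R - R) + (tw (D.chi x) σ R - R)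
      rw [neg_add_cancel_right]

end Pool.Agent.MP72S.S
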