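import Pool.Agent.Lib.MP_72e2e6_nt.Sm.S.Spec

/-!
# MP_72e2e6_nt, `Sm`, block S, module NoQ

`Gal(K^s/Q)` has no homomorphisms to groups of order a power of two if `Q` is closed under square
roots.
-/

namespace Pool.Agent.MP72S.S

open Finset WeierstrassCurve Polynomial IntermediateField

open Pool.Agent.MP72W (pmap IsCoc LocTriv InSha ShaTwoFin XY px py)

open Pool.Agent.MP72S.C

open scoped Classical

private theorem zmod2_cases (x : ZMod 2) : x = 0 ∨ x = 1 := by
  revert x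
  decide

/-- The case of homomorphisms to `ZMod 2`. -/
private theorem nq_two (K : Type) [Field K] (Q : IntermediateField K (SeparableClosure K))
    (h2 : (2 : K) ≠ 0) (hq : QC Q) (h : Gal(SeparableClosure K/K) → ZMod 2)
    (hl : IsLocallyConstant h)
    (ha : ∀ σ ∈ Q.fixingSubgroup, ∀ τ ∈ Q.fixingSubgroup, h (σ * τ) = h σ + h τ) :
    ∀ σ ∈ Q.fixingSubgroup, h σ = 0 := by
  set H := Q.fixingSubgroup with hH
  have h1 : h 1 = 0 := by
    have := ha 1 H.one_mem 1 H.one_mem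
    rw [mul_one] at this
    exact left_eq_add.mp this
  have hinv : ∀ σ ∈ H, h σ⁻¹ = -h σ := by
    intro σ hσ
    have := ha σ hσ σ⁻¹ (H.inv_mem hσ)
    rw [mul_inv_cancel, h1] at this
    exact (neg_eq_of_add_eq_zero_right this.symm).symm
  let U : Subgroup Gal(SeparableClosure K/K) :=
    { carrier := {σ | σ ∈ H ∧ h σ = 0}
      mul_mem' := by
        rintro σ τ ⟨a, b⟩ ⟨c, d⟩
        exact ⟨H.mul_mem a c, by rw [ha σ a τ c, b, d, add_zero]⟩
      one_mem' := ⟨H.one_mem, h1⟩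
      inv_mem' := by
        rintro σ ⟨a, b⟩
        exact ⟨H.inv_mem a, by rw [hinv σ a, b, neg_zero]⟩ }
  have hUc : IsClosed (U : Set Gal(SeparableClosure K/K)) := by
    have e : (U : Set Gal(SeparableClosure K/K)) = (H : Set _) ∩ h ⁻¹' {0} := rfl
    rw [e]
    exact (InfiniteGalois.fixingSubgroup_isClosed Q).inter
      (IsClopen.isClosed (hl.isClopen_fiber 0))
  have hU : (fixedField U).fixingSubgroup = U :=
    InfiniteGalois.fixingSubgroup_fixedField ⟨U, hUc⟩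
  intro σ hσ
  by_contra hne
  have hs1 : h σ = 1 := (zmod2_cases _).resolve_left hne
  have hσU : σ ∉ (fixedField U).fixingSubgroup := by
    rw [hU]
    exact fun hh => hne hh.2
  rw [IntermediateField.mem_fixingSubgroup_iff] at hσU
  push Not at hσU
  obtain ⟨b, hb, hσb⟩ := hσU
  rw [mem_fixedField_iff] at hb
  set c := b - σ b with hc
  have hc0 : c ≠ 0 := fun hh => hσb (sub_eq_zero.mp hh).symm
  have hcU : ∀ τ ∈ U, τ c = c := by
    intro τ hτ
    have hm : σ⁻¹ * τ * σ ∈ U := by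
      refine ⟨H.mul_mem (H.mul_mem (H.inv_mem hσ) hτ.1) hσ, ?_⟩
      rw [ha _ (H.mul_mem (H.inv_mem hσ) hτ.1) _ hσ, ha _ (H.inv_mem hσ) _ hτ.1, hinv σ hσ, hτ.2]
      ring
    have e1 : τ (σ b) = σ b := by
      have e2 := congrArg σ (hb _ hm)
      have e3 : σ ((σ⁻¹ * τ * σ) b) = τ (σ b) := by
        rw [← AlgEquiv.mul_apply, ← mul_assoc, ← mul_assoc, mul_inv_cancel, one_mul,
          AlgEquiv.mul_apply]
      rw [← e3, e2]
    rw [hc, map_sub, hb τ hτ, e1]
  have hσ2 : σ * σ ∈ U := by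
    refine ⟨H.mul_mem hσ hσ, ?_⟩
    rw [ha σ hσ σ hσ, hs1]
    decide
  have hσc : σ c = -c := by
    have e := hb _ hσ2
    rw [AlgEquiv.mul_apply] at e
    rw [hc, map_sub, e]
    ring
  have hcH : ∀ ρ ∈ H, ρ (c ^ 2) = c ^ 2 := by
    intro ρ hρ
    rcases zmod2_cases (h ρ) with hr | hr
    · rw [map_pow, hcU ρ ⟨hρ, hr⟩]
    · have hm : σ⁻¹ * ρ ∈ U := by
        refine ⟨H.mul_mem (H.inv_mem hσ) hρ, ?_⟩
        rw [ha _ (H.inv_mem hσ) _ hρ, hinv σ hσ, hr, hs1]
        ring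
      have e1 : ρ c = σ ((σ⁻¹ * ρ) c) := by
        rw [← AlgEquiv.mul_apply, ← mul_assoc, mul_inv_cancel, one_mul]
      rw [map_pow, e1, hcU _ hm, hσc]
      ring
  have hcQ : c ^ 2 ∈ Q := by
    rw [← InfiniteGalois.fixedField_fixingSubgroup Q, mem_fixedField_iff]
    exact hcH
  obtain ⟨y, hy⟩ := hq ⟨c ^ 2, hcQ⟩
  have hy' : (y : SeparableClosure K) ^ 2 = c ^ 2 := by
    have := congrArg (fun z : Q => (z : SeparableClosure K)) hy
    simpa using this
  have hcQ' : c ∈ Q := by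
    rcases sq_eq_sq_iff_eq_or_eq_neg.mp hy' with e | e
    · rw [← e]
      exact y.2
    · have e' : c = -(y : SeparableClosure K) := by rw [e, neg_neg]
      rw [e']
      exact Q.neg_mem y.2
  have hfix : σ c = c := (IntermediateField.mem_fixingSubgroup_iff Q σ).mp hσ c hcQ'
  rw [hσc] at hfix
  have h2c : (2 : SeparableClosure K) * c = 0 := by linear_combination -hfix
  have h2' : (2 : SeparableClosure K) ≠ 0 := by
    intro hh
    apply h2
    apply (algebraMap K (SeparableClosure K)).injective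
    rw [map_ofNat, hh, map_zero]
  exact hc0 ((mul_eq_zero.mp h2c).resolve_left h2')

theorem tNoQ : S_NoQ := by
  intro K _ Q h2 hq A _ h hl ha hk
  by_contra hcon
  push Not at hcon
  obtain ⟨σ₀, hσ₀, hne⟩ := hcon
  have hmin := Nat.find_spec hk
  obtain ⟨m, hm⟩ : ∃ m, Nat.find hk = m + 1 := by
    refine Nat.exists_eq_succ_of_ne_zero fun h0 => hne ?_
    have := hmin σ₀ hσ₀
    rwa [h0, pow_zero, one_smul] at this
  rw [hm] at hmin
  have hnot : ¬ ∀ σ ∈ Q.fixingSubgroup, 2 ^ m • h σ = 0 :=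
    Nat.find_min hk (by omega)
  push Not at hnot
  obtain ⟨τ₀, hτ₀, hτne⟩ := hnot
  let A₂ : AddSubgroup A := (nsmulAddMonoidHom (α := A) 2).ker
  have hA₂ : ∀ x : A₂, 2 • x = 0 := by
    intro x
    apply Subtype.ext
    have := x.2
    rw [AddMonoidHom.mem_ker] at this
    simpa using this
  let _ : Module (ZMod 2) A₂ := AddCommGroup.zmodModule hA₂
  have hmem : ∀ σ ∈ Q.fixingSubgroup, 2 ^ m • h σ ∈ A₂ := by
    intro σ hσ
    rw [AddMonoidHom.mem_ker]
    have := hmin σ hσ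
    rw [pow_succ', mul_smul] at this
    simpa using this
  obtain ⟨l, hl'⟩ : ∃ l : Module.Dual (ZMod 2) A₂, l ⟨2 ^ m • h τ₀, hmem τ₀ hτ₀⟩ ≠ 0 := by
    by_contra hno
    push Not at hno
    have := (Module.forall_dual_apply_eq_zero_iff (ZMod 2)
      (⟨2 ^ m • h τ₀, hmem τ₀ hτ₀⟩ : A₂)).mp hno
    exact hτne (congrArg Subtype.val this)
  let f : A → ZMod 2 := fun x => if hx : 2 ^ m • x ∈ A₂ then l ⟨2 ^ m • x, hx⟩ else 0
  have hf : ∀ x (hx : 2 ^ m • x ∈ A₂), f x = l ⟨2 ^ m • x, hx⟩ := fun x hx => dif_pos hx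
  have key := nq_two K Q h2 hq (f ∘ h) (hl.comp f) (by
    intro σ hσ τ hτ
    have hστ := hmem _ (mul_mem hσ hτ)
    simp only [Function.comp_apply]
    rw [hf _ hστ, hf _ (hmem σ hσ), hf _ (hmem τ hτ), ← map_add]
    congr 1
    apply Subtype.ext
    simp only [AddSubgroup.coe_add]
    rw [ha σ hσ τ hτ, smul_add]) τ₀ hτ₀
  rw [Function.comp_apply, hf _ (hmem τ₀ hτ₀)] at key
  exact hl' key

end Pool.Agent.MP72S.S
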