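import Pool.Agent.Lib.MP_72e2e6_nt.Sm.S.Lcx

/-!
# MP_72e2e6_nt, `Sm`, block S: Unr, locally trivial cocycles are unramified at the good places
-/

namespace Pool.Agent.MP72S.S

open Finset WeierstrassCurve Polynomial

open Pool.Agent.MP72W (pmap IsCoc LocTriv InSha ShaTwoFin XY px py)

open Pool.Agent.MP72S.C

open scoped Classical

private theorem unr_aux (hRe : D.S_Re) (hIne : S_Ine) {K : Type} [Field K]
    (Q : IntermediateField K (SeparableClosure K)) [Normal K Q] (a : Fin 3 → K) (hyp : Hyp a K)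
    (av : AbsoluteValue K ℝ) {M : Type} [Field M] [Algebra K M] (nM : M → ℝ)
    (hnM : ∀ x : K, nM (algebraMap K M x) = av x) (n : AbsoluteValue (SeparableClosure M) ℝ)
    (ι : SeparableClosure K →ₐ[K] SeparableClosure M) (τ : Gal(SeparableClosure M/M))
    (hna : IsNonarchimedean n) (h2 : n 2 = 1) (hext : ∀ x : M, n (algebraMap _ _ x) = nM x)
    (hin : ∀ x, n x ≤ 1 → n (τ x - x) < 1) (g : Gal(Q/K)) (hg : ∀ x : Q, τ (ι x) = ι (g x))
    (hgood : Good av a) (z : Gal(SeparableClosure K/K) → PA a (SeparableClosure K))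
    (hk : ∃ k : ℕ, ∀ σ, 2 ^ k • z σ = 0) (hz : LocTriv (Wa a) z M) :
    ∃ σ : Gal(SeparableClosure K/K), rs Q σ = g ∧ z σ = 0 := by
  obtain ⟨Q₀, k, hfix, hall⟩ := lcx_coc hRe (Wa a) hz hk ι
  have two : (2 : K) ≠ 0 := hyp.1
  have twoM : (2 : M) ≠ 0 := by
    have := (algebraMap K M).injective.ne two
    rwa [map_ofNat, map_zero] at this
  have twoS : (2 : SeparableClosure M) ≠ 0 := by
    have := (algebraMap M (SeparableClosure M)).injective.ne twoM
    rwa [map_ofNat, map_zero] at this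
  have hal : ∀ x : K, n (algebraMap K (SeparableClosure M) x) = av x := by
    intro x
    rw [IsScalarTower.algebraMap_apply K M (SeparableClosure M), hext, hnM]
  have hpm : ∀ P : ((Wa a)⁄(SeparableClosure M)).toAffine.Point,
      pmap (Wa a) (((τ : SeparableClosure M →ₐ[M] SeparableClosure M)).restrictScalars K) P =
        pmap (Wa a) (τ : SeparableClosure M →ₐ[M] SeparableClosure M) P := fun P =>
    pm_congr _ _ _ _ fun x y _ => ⟨rfl, rfl⟩
  have h1 := hIne K a (SeparableClosure M) n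
    (((τ : SeparableClosure M →ₐ[M] SeparableClosure M)).restrictScalars K) ⟨twoS, hyp.2⟩
    (lcx_qc M twoM) hna h2 hin (fun i => by
      rw [show al a (SeparableClosure M) i = algebraMap K (SeparableClosure M) (a i) from rfl, hal]
      exact hgood.1 i) (fun i j hij => by
      rw [show al a (SeparableClosure M) i = algebraMap K (SeparableClosure M) (a i) from rfl,
        show al a (SeparableClosure M) j = algebraMap K (SeparableClosure M) (a j) from rfl,
        ← map_sub, hal]
      exact hgood.2 i j hij) k Q₀ ((hpm _).trans (hfix τ))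
  rw [hpm] at h1
  obtain ⟨σ, hσ, e⟩ := hall τ
  rw [h1, sub_self] at e
  exact ⟨σ, lcx_rs ι hg hσ, pm_inj (Wa a) ι (e.trans (pm_zero _ _).symm)⟩

theorem tUnr (hRe : D.S_Re) (hIne : S_Ine) : S_Unr := by
  intro K _ Q _ a hyp av g h hloc hgood z hz hk hlt
  obtain ⟨-, -, hnM, -, n, ι, τ, φ, hna, h2, hext, hin, hg, -⟩ := hloc
  exact unr_aux hRe hIne Q a hyp av (fun x => ‖x‖) hnM n ι τ hna h2 hext hin g hg hgood z hk hlt

end Pool.Agent.MP72S.S
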