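import Pool.Agent.Lib.MP_72e2e6_nt.W2.C.Av
import Pool.Agent.Lib.MP_72e2e6_nt.W2.E.Shg
import Pool.Agent.Lib.MP_72e2e6_nt.Sm.A.Bas
import Pool.Agent.Lib.MP_72e2e6_nt.Sm.A.Hom
import Pool.Agent.Lib.MP_72e2e6_nt.Sm.A.Inj
import Pool.Agent.Lib.MP_72e2e6_nt.Sm.A.Tai
import Pool.Agent.Lib.MP_72e2e6_nt.Sm.A.Tin
import Pool.Agent.Lib.MP_72e2e6_nt.Sm.A.Uq
import Pool.Agent.Lib.MP_72e2e6_nt.Sm.C.All
import Pool.Agent.Lib.MP_72e2e6_nt.Sm.D.All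
import Pool.Agent.Lib.MP_72e2e6_nt.Sm.S.Dvo
import Pool.Agent.Lib.MP_72e2e6_nt.Sm.S.Exs
import Pool.Agent.Lib.MP_72e2e6_nt.Sm.S.Gok
import Pool.Agent.Lib.MP_72e2e6_nt.Sm.S.Hdb
import Pool.Agent.Lib.MP_72e2e6_nt.Sm.S.Hgt
import Pool.Agent.Lib.MP_72e2e6_nt.Sm.S.Hpl
import Pool.Agent.Lib.MP_72e2e6_nt.Sm.S.Ine
import Pool.Agent.Lib.MP_72e2e6_nt.Sm.S.Inf
import Pool.Agent.Lib.MP_72e2e6_nt.Sm.S.Kum
import Pool.Agent.Lib.MP_72e2e6_nt.Sm.S.Ldc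
import Pool.Agent.Lib.MP_72e2e6_nt.Sm.S.Main
import Pool.Agent.Lib.MP_72e2e6_nt.Sm.S.NoQ
import Pool.Agent.Lib.MP_72e2e6_nt.Sm.S.Nrc
import Pool.Agent.Lib.MP_72e2e6_nt.Sm.S.Plt
import Pool.Agent.Lib.MP_72e2e6_nt.Sm.S.Sfn
import Pool.Agent.Lib.MP_72e2e6_nt.Sm.S.Sq1
import Pool.Agent.Lib.MP_72e2e6_nt.Sm.S.Tam
import Pool.Agent.Lib.MP_72e2e6_nt.Sm.S.Trm
import Pool.Agent.Lib.MP_72e2e6_nt.Sm.S.Trn
import Pool.Agent.Lib.MP_72e2e6_nt.Sm.S.Twt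
import Pool.Agent.Lib.MP_72e2e6_nt.Sm.S.Typ
import Pool.Agent.Lib.MP_72e2e6_nt.Sm.S.Unr

/-!
# MP_72e2e6_nt, `Sm`, block S: all the modules together
-/

namespace Pool.Agent.MP72S.S

theorem aDvo : S_Dvo := tDvo C.aVee C.aDvn

theorem aTrn : S_Trn := tTrn C.aGrp C.aVee

theorem aTwt : S_Twt := tTwt C.aGrp C.aVee C.aTwi aDvo

theorem aSq1 : S_Sq1 := tSq1

theorem aTam : S_Tam := tTam C.aGrp C.aVee C.aHal aTrn aSq1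

theorem aIne : S_Ine := tIne C.aGrp C.aVee C.aHal

theorem aUnr : S_Unr := tUnr D.aRe aIne

theorem aTrm : S_Trm := tTrm D.aRe aDvo aTam

theorem aNrc : S_Nrc := tNrc D.aLc D.aLn D.aFg D.aQG D.aKk

theorem aLdc : S_Ldc := tLdc D.aLf D.aLc D.aLn D.aRq aNrc

theorem aNoQ : S_NoQ := tNoQ

theorem aInf : S_Inf := tInf aNoQ

theorem aKum : S_Kum := tKum

theorem aTyp : S_Typ := tTyp aUnr aTrm aInf

theorem aInj : MP72S.S_Inj := MP72S.tInj MP72S.tHom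

theorem aUq : MP72S.S_Uq := MP72S.tUq aInj

theorem aExs : S_Exs := tExs aInj aUq MP72S.tTin MP72S.tTai MP72S.tBas

theorem aSfn : S_Sfn := tSfn MP72W.tShg aDvo aExs

theorem aHpl : S_Hpl := tHpl

theorem aHdb : S_Hdb := tHdb C.aGrp C.aVee C.aPrd aHpl

theorem aHgt : S_Hgt := tHgt

theorem aPlt : S_Plt := tPlt

theorem aGok : S_Gok := tGok MP72W.tAv D.aQG D.aKm aLdc

theorem aMain : S_Main := tMain aKum aTwt aTyp aSfn aHdb aHgt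

end Pool.Agent.MP72S.S
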