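import Pool.Agent.Lib.MP_72e2e6_nt.Sm.Defs
import Pool.Agent.Lib.MP_72e2e6_nt.Sm.C.Defs

/-!
# MP_72e2e6_nt, `Sm`, block S (from the types to the literal Tate-Shafarevich group): definitions

`K` is a field, `K^s = SeparableClosure K`, `Q` a subfield of `K^s`, normal over `K` and closed under
square roots, `G = Gal(Q/K)`. The curve `Wa a`, its points `PA a L`, the `2`-power torsion `NN a L`,
`pt`, `act`, `Hyp`, `QC` are defined in block C, `pmap`, `IsCoc`, `LocTriv`, `InSha`, `ShaTwoFin` in
`W2/Stmt.lean`. The basic lemmas `pm_*` on `pmap` hold for all instances of `DecidableEq`.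
-/

namespace Pool.Agent.MP72S.S

open WeierstrassCurve

open Pool.Agent.MP72W (pmap IsCoc LocTriv InSha ShaTwoFin XY px py)

open Pool.Agent.MP72S.C

open scoped Classical

section pm

variable {K S L M N : Type} [Field K] (W : WeierstrassCurve K) [Field S] [Field L] [Field M]
  [Field N] [Algebra K S] [Algebra K L] [Algebra K M] [Algebra K N] [Algebra S L] [Algebra S M]
  [Algebra S N] [IsScalarTower K S L] [IsScalarTower K S M] [IsScalarTower K S N]

theorem pm_zero (f : L →ₐ[S] M) : pmap W f (0 : (W⁄L).toAffine.Point) = 0 := rfl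

theorem pm_neg (f : L →ₐ[S] M) (P : (W⁄L).toAffine.Point) : pmap W f (-P) = -pmap W f P :=
  map_neg (pmap W f) P

theorem pm_add [I : DecidableEq L] [J : DecidableEq M] (f : L →ₐ[S] M)
    (P Q : (W⁄L).toAffine.Point) : pmap W f (P + Q) = pmap W f P + pmap W f Q := by
  obtain rfl : I = fun a b => Classical.propDecidable (a = b) := Subsingleton.elim _ _
  obtain rfl : J = fun a b => Classical.propDecidable (a = b) := Subsingleton.elim _ _
  exact map_add (pmap W f) P Q

theorem pm_sub [I : DecidableEq L] [J : DecidableEq M] (f : L →ₐ[S] M)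
    (P Q : (W⁄L).toAffine.Point) : pmap W f (P - Q) = pmap W f P - pmap W f Q := by
  rw [sub_eq_add_neg, pm_add, pm_neg, ← sub_eq_add_neg]

theorem pm_nsmul [I : DecidableEq L] [J : DecidableEq M] (f : L →ₐ[S] M) (n : ℕ)
    (P : (W⁄L).toAffine.Point) : pmap W f (n • P) = n • pmap W f P := by
  obtain rfl : I = fun a b => Classical.propDecidable (a = b) := Subsingleton.elim _ _
  obtain rfl : J = fun a b => Classical.propDecidable (a = b) := Subsingleton.elim _ _
  exact map_nsmul (pmap W f) n P

theorem pm_some (f : L →ₐ[S] M) {x y : L} (h : (W⁄L).toAffine.Nonsingular x y) :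
    ∃ h', pmap W f (Affine.Point.some x y h) = Affine.Point.some (f x) (f y) h' := by
  unfold pmap
  rw [Affine.Point.map_some]
  exact ⟨_, rfl⟩

theorem pm_xy (f : L →ₐ[S] M) {P : (W⁄L).toAffine.Point} {x y : L} (h : XY P x y) :
    XY (pmap W f P) (f x) (f y) := by
  obtain ⟨h, rfl⟩ := h
  obtain ⟨h', e⟩ := pm_some W f h
  exact ⟨h', e⟩

theorem pm_inj (f : L →ₐ[S] M) : Function.Injective (pmap W f) := by
  exact Affine.Point.map_injective (W' := W.toAffine) f

theorem pm_comp (f : L →ₐ[S] M) (g : M →ₐ[S] N) (P : (W⁄L).toAffine.Point) :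
    pmap W g (pmap W f P) = pmap W (g.comp f) P := by
  cases P with
  | zero => rfl
  | some x y h =>
    unfold pmap
    rw [Affine.Point.map_some, Affine.Point.map_some, Affine.Point.map_some]
    rfl

/-- `pmap W f` and `pmap W g` agree at a point if `f` and `g` agree at the coordinates. -/
theorem pm_congr {S' : Type} [Field S'] [Algebra K S'] [Algebra S' L] [Algebra S' M]
    [IsScalarTower K S' L] [IsScalarTower K S' M] (f : L →ₐ[S] M) (g : L →ₐ[S'] M)
    (P : (W⁄L).toAffine.Point) (h : ∀ x y, XY P x y → f x = g x ∧ f y = g y) :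
    pmap W f P = pmap W g P := by
  cases P with
  | zero => rfl
  | some x y hx =>
    obtain ⟨h1, h2⟩ := h x y ⟨hx, rfl⟩
    unfold pmap
    rw [Affine.Point.map_some, Affine.Point.map_some, Affine.Point.some.injEq]
    exact ⟨h1, h2⟩

/-- A commutative square `f = t ∘ s` (on the coordinates of `P`). -/
theorem pm_sq {S' L' T : Type} [Field S'] [Algebra K S'] [Field L'] [Algebra K L']
    [Algebra S' L'] [Algebra S' M] [IsScalarTower K S' L'] [IsScalarTower K S' M]
    [Field T] [Algebra K T] [Algebra T L] [Algebra T L'] [IsScalarTower K T L]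
    [IsScalarTower K T L'] (f : L →ₐ[S] M) (s : L →ₐ[T] L') (t : L' →ₐ[S'] M)
    (P : (W⁄L).toAffine.Point) (h : ∀ x y, XY P x y → f x = t (s x) ∧ f y = t (s y)) :
    pmap W f P = pmap W t (pmap W s P) := by
  cases P with
  | zero => rfl
  | some x y hx =>
    obtain ⟨h1, h2⟩ := h x y ⟨hx, rfl⟩
    unfold pmap
    rw [Affine.Point.map_some, Affine.Point.map_some, Affine.Point.map_some,
      Affine.Point.some.injEq]
    exact ⟨h1, h2⟩

end pm

/-- The restriction homomorphism from the absolute Galois group to `Gal(Q/K)`. -/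
noncomputable abbrev rs {K : Type} [Field K] (Q : IntermediateField K (SeparableClosure K))
    [Normal K Q] : Gal(SeparableClosure K/K) →* Gal(Q/K) :=
  AlgEquiv.restrictNormalHom Q

/-- Local data at a place with the absolute value `av`, the inertia generator `g` and the Frobenius
element `h` in `Gal(Q/K)`: an absolute value `n` on the separable closure of the completion, an
embedding `ι` of `K^s`, and automorphisms `τ`, `φ` which induce `g`, `h` on `Q`; `τ` is trivial on the
residue field. -/
def LocC {K : Type} [Field K] (Q : IntermediateField K (SeparableClosure K))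
    (av : AbsoluteValue K ℝ) (g h : Gal(Q/K)) : Prop :=
  IsUltrametricDist av.Completion ∧ ‖(2 : av.Completion)‖ = 1 ∧
  (∀ x : K, ‖algebraMap K av.Completion x‖ = av x) ∧
  (∀ x : av.Completion, x ≠ 0 → ∃ c : K, ‖x‖ = av c) ∧
  ∃ (n : AbsoluteValue (SeparableClosure av.Completion) ℝ)
    (ι : SeparableClosure K →ₐ[K] SeparableClosure av.Completion)
    (τ φ : Gal(SeparableClosure av.Completion/av.Completion)),
    IsNonarchimedean n ∧ n 2 = 1 ∧ (∀ x : av.Completion, n (algebraMap _ _ x) = ‖x‖) ∧
    (∀ x, n x ≤ 1 → n (τ x - x) < 1) ∧ (∀ x : Q, τ (ι x) = ι (g x)) ∧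
    ∀ x : Q, φ (ι x) = ι (h x)

/-- `θ` identifies `N`, with the action twisted by `χ`, with the points of `W` of order a power of
two. -/
structure Tht {K : Type} [Field K] (W : WeierstrassCurve K)
    (Q : IntermediateField K (SeparableClosure K)) [Normal K Q] {N : Type} [AddCommGroup N]
    [DistribMulAction Gal(Q/K) N] (χ : Gal(Q/K) → ZMod 2)
    (θ : N → (W⁄(SeparableClosure K)).toAffine.Point) : Prop where
  add : ∀ a b, θ (a + b) = θ a + θ b
  inj : Function.Injective θ
  tor : ∀ a, ∃ k : ℕ, 2 ^ k • θ a = 0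
  rng : ∀ P, (∃ k : ℕ, 2 ^ k • P = 0) → ∃ a, θ a = P
  eqv : ∀ (σ : Gal(SeparableClosure K/K)) a,
    pmap W (σ : SeparableClosure K →ₐ[K] SeparableClosure K) (θ a) = θ (tw χ (rs Q σ) a)

/-- The global data: the field `Q`, the places with their absolute values `av v`,
the elements `π v` of `K` (the prime of the place) and `d₀` with their quadratic characters. -/
structure GOk {K : Type} [Field K] (a : Fin 3 → K)
    (Q : IntermediateField K (SeparableClosure K)) {P : Type} (D : Dat Gal(Q/K) (NN a Q) P)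
    (av : P → AbsoluteValue K ℝ) (π : P → K) (d₀ : K) : Prop where
  hyp : Hyp a K
  nrm : Normal K Q
  qc : QC Q
  ntr : ∀ v, (av v).IsNontrivial
  loc : ∀ v, LocC Q (av v) (D.tau v) (D.phi v)
  pi0 : ∀ v, v ≠ D.inf → π v ≠ 0
  chv : ∀ v, v ≠ D.inf → ∃ δ : Q, δ ^ 2 = algebraMap K Q (π v) ∧
    ∀ g : Gal(Q/K), g δ = if D.ch v g = 0 then δ else -δ
  d0 : d₀ ≠ 0
  ch0 : ∃ δ : Q, δ ^ 2 = algebraMap K Q d₀ ∧
    ∀ g : Gal(Q/K), g δ = if D.ch0 g = 0 then δ else -δ

/-- The condition at the ramified places: the largest of the `|e i - e j|` is not the square of an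
absolute value (and it occurs for every `i`). -/
def Tame {K : Type} [Field K] (av : AbsoluteValue K ℝ) (e : Fin 3 → K) : Prop :=
  ∃ M : ℝ, (∀ c : K, av c ^ 2 ≠ M) ∧ (∀ i j, av (e i - e j) ≤ M) ∧ ∀ i, ∃ j, av (e i - e j) = M

/-- The condition at the other places: good reduction. -/
def Good {K : Type} [Field K] (av : AbsoluteValue K ℝ) (e : Fin 3 → K) : Prop :=
  (∀ i, av (e i) ≤ 1) ∧ ∀ i j, i ≠ j → av (e i - e j) = 1

/-- Every locally trivial cocycle of order a power of two comes from a Selmer cocycle. -/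
def TypOk {K : Type} [Field K] (W : WeierstrassCurve K)
    (Q : IntermediateField K (SeparableClosure K)) [Normal K Q] {N P : Type} [AddCommGroup N]
    [DistribMulAction Gal(Q/K) N] (D : Dat Gal(Q/K) N P) {ι : Type} [Fintype ι] (x : ι → P)
    (θ : N → (W⁄(SeparableClosure K)).toAffine.Point) : Prop :=
  ∀ z, InSha W z → (∃ k : ℕ, ∀ σ, 2 ^ k • z σ = 0) →
    ∃ t ψ, D.IsZ x t ψ ∧ ∀ σ, θ (ψ (rs Q σ)) = z σ

/-- The height of `δ (x - e₀)`. -/
noncomputable def hgt {F : Type} [Field F] (δ e₀ : RatFunc F) {W : WeierstrassCurve (RatFunc F)} :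
    W.toAffine.Point → ℕ
  | .zero => 0
  | .some x _ _ => max (δ * (x - e₀)).num.natDegree (δ * (x - e₀)).denom.natDegree

end Pool.Agent.MP72S.S
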